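import Mathlib

/-!
# Automorphisms of `ℚ̄_p` over `ℚ_p` are isometries
-/

namespace Pool.Agent.Work.MP_395897_nt

variable {p : ℕ} [Fact p.Prime]

theorem norm_gal (σ : PadicAlgCl p ≃ₐ[ℚ_[p]] PadicAlgCl p) (x : PadicAlgCl p) : ‖σ x‖ = ‖x‖ := by
  have := spectralNorm_eq_of_equiv σ x
  simpa using this.symm

theorem isometry_gal (σ : PadicAlgCl p ≃ₐ[ℚ_[p]] PadicAlgCl p) : Isometry σ := by
  refine Isometry.of_dist_eq fun x y => ?_
  rw [dist_eq_norm, dist_eq_norm, ← map_sub, norm_gal]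

end Pool.Agent.Work.MP_395897_nt
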