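import Mathlib
import Pool.Agent.Work.MP_395897_nt.GalLem

/-!
# The action of the absolute Galois group of `ℚ_p` on `ℂ_p`
-/

namespace Pool.Agent.Work.MP_395897_nt

/-- The absolute Galois group `Gal(ℚ̄_p/ℚ_p)` of `ℚ_p`. -/
abbrev GalQp (p : ℕ) [Fact p.Prime] : Type := PadicAlgCl p ≃ₐ[ℚ_[p]] PadicAlgCl p

/-- The continuous extension to `ℂ_p` of an automorphism `σ` of `ℚ̄_p`. -/
noncomputable def galC {p : ℕ} [Fact p.Prime] (σ : GalQp p) : ℂ_[p] ≃+* ℂ_[p] :=
  UniformSpace.Completion.mapRingEquiv (σ : PadicAlgCl p ≃+* PadicAlgCl p)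
    (isometry_gal σ).continuous (isometry_gal σ.symm).continuous

end Pool.Agent.Work.MP_395897_nt
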