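import Mathlib
import Pool.Agent.Work.MP_395897_nt.GalDef

/-!
# The action of the absolute Galois group of `ℚ_p` on `ℂ_p`: lemmas
-/

namespace Pool.Agent.Work.MP_395897_nt

variable {p : ℕ} [Fact p.Prime]

@[simp] theorem galC_coe (σ : GalQp p) (x : PadicAlgCl p) :
    galC σ (x : ℂ_[p]) = ((σ x : PadicAlgCl p) : ℂ_[p]) :=
  UniformSpace.Completion.mapRingHom_coe (f := ((σ : PadicAlgCl p ≃+* PadicAlgCl p) :
    PadicAlgCl p →+* PadicAlgCl p)) (isometry_gal σ).continuous x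

theorem isometry_galC (σ : GalQp p) : Isometry (galC σ) :=
  (isometry_gal σ).completion_map

theorem norm_galC (σ : GalQp p) (x : ℂ_[p]) : ‖galC σ x‖ = ‖x‖ := by
  have := (isometry_galC σ).dist_eq x 0
  simpa [dist_eq_norm] using this

theorem val_eq_norm (x : ℂ_[p]) : ((Valued.v x : NNReal) : ℝ) = ‖x‖ := by
  rw [PadicComplex.norm_eq_norm, Valuation.norm_def, PadicComplex.RankOne.hom_eq_embedding]
  rw [Valuation.embedding_restrict (PadicComplex.valued p).v x]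

theorem mem_int_iff (x : ℂ_[p]) : x ∈ 𝓞_ℂ_[p] ↔ ‖x‖ ≤ 1 := by
  have h : x ∈ 𝓞_ℂ_[p] ↔ Valued.v x ≤ 1 := Iff.rfl
  rw [h, ← val_eq_norm, ← NNReal.coe_one, NNReal.coe_le_coe]

theorem galC_mem_iff (σ : GalQp p) (x : ℂ_[p]) : x ∈ 𝓞_ℂ_[p] ↔ galC σ x ∈ 𝓞_ℂ_[p] := by
  rw [mem_int_iff, mem_int_iff, norm_galC]

end Pool.Agent.Work.MP_395897_nt
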