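import Mathlib
import Pool.Agent.Work.MP_395897_nt.GalAct

/-!
# `𝓞_{ℂ_p}` is `p`-adically complete and `p` is not a unit in it
-/

open Ideal

namespace Pool.Agent.Work.MP_395897_nt

variable {p : ℕ} [Fact p.Prime]

theorem norm_p_C : ‖(p : ℂ_[p])‖ = (p : ℝ)⁻¹ := by
  rw [← PadicComplex.coe_natCast, PadicComplex.norm_extends,
    ← map_natCast (algebraMap ℚ_[p] (PadicAlgCl p)), norm_algebraMap', Padic.norm_p]

theorem int_dvd_iff (x y : 𝓞_ℂ_[p]) : x ∣ y ↔ ‖(y : ℂ_[p])‖ ≤ ‖(x : ℂ_[p])‖ := by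
  constructor
  · rintro ⟨z, rfl⟩
    have hz : ‖(z : ℂ_[p])‖ ≤ 1 := (mem_int_iff _).mp z.2
    have : ((x * z : 𝓞_ℂ_[p]) : ℂ_[p]) = (x : ℂ_[p]) * z := rfl
    rw [this, norm_mul]
    exact mul_le_of_le_one_right (norm_nonneg _) hz
  · intro h
    by_cases hx : (x : ℂ_[p]) = 0
    · rw [hx, norm_zero] at h
      have hy : (y : ℂ_[p]) = 0 := norm_le_zero_iff.mp h
      have : y = 0 := Subtype.ext hy
      rw [this]
      exact dvd_zero _
    · refine ⟨⟨(y : ℂ_[p]) / x, ?_⟩, ?_⟩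
      · rw [mem_int_iff, norm_div]
        exact div_le_one_of_le₀ h (norm_nonneg _)
      · apply Subtype.ext
        change (y : ℂ_[p]) = (x : ℂ_[p]) * ((y : ℂ_[p]) / x)
        field_simp

theorem natCast_int (n : ℕ) : (((n : ℕ) : 𝓞_ℂ_[p]) : ℂ_[p]) = n := rfl

theorem mem_pow_iff (n : ℕ) (x : 𝓞_ℂ_[p]) :
    x ∈ (span {(p : 𝓞_ℂ_[p])}) ^ n ↔ ‖(x : ℂ_[p])‖ ≤ ((p : ℝ)⁻¹) ^ n := by
  rw [span_singleton_pow, mem_span_singleton, int_dvd_iff]
  have : (((p : 𝓞_ℂ_[p]) ^ n : 𝓞_ℂ_[p]) : ℂ_[p]) = (p : ℂ_[p]) ^ n := rfl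
  rw [this, norm_pow, norm_p_C]

theorem inv_p_lt_one : ((p : ℝ)⁻¹) < 1 :=
  inv_lt_one_of_one_lt₀ (by exact_mod_cast (Fact.out : p.Prime).one_lt)

theorem inv_p_pos : 0 < ((p : ℝ)⁻¹) := by
  have : (0 : ℝ) < p := by exact_mod_cast (Fact.out : p.Prime).pos
  positivity

theorem not_isUnit_int : Fact ¬IsUnit (p : 𝓞_ℂ_[p]) := ⟨by
  intro h
  obtain ⟨y, hy⟩ := h.exists_right_inv
  have hy' : ‖(y : ℂ_[p])‖ ≤ 1 := (mem_int_iff _).mp y.2
  have h1 := congrArg (fun x : 𝓞_ℂ_[p] => ‖(x : ℂ_[p])‖) hy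
  have h2 : (((p : 𝓞_ℂ_[p]) * y : 𝓞_ℂ_[p]) : ℂ_[p]) = (p : ℂ_[p]) * y := rfl
  have h3 : ((1 : 𝓞_ℂ_[p]) : ℂ_[p]) = 1 := rfl
  simp only [h2, h3, norm_mul, norm_p_C, norm_one] at h1
  have h4 := inv_p_lt_one (p := p)
  have h5 := inv_p_pos (p := p)
  nlinarith⟩

theorem adicComplete_int : IsAdicComplete (span {(p : 𝓞_ℂ_[p])}) 𝓞_ℂ_[p] where
  haus' := by
    intro x hx
    have h1 : ∀ n : ℕ, ‖(x : ℂ_[p])‖ ≤ ((p : ℝ)⁻¹) ^ n := by
      intro n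
      have := hx n
      rw [SModEq.zero, smul_eq_mul, mul_top] at this
      exact (mem_pow_iff n x).mp this
    have h2 : ‖(x : ℂ_[p])‖ ≤ 0 := by
      have h3 := tendsto_pow_atTop_nhds_zero_of_lt_one inv_p_pos.le (inv_p_lt_one (p := p))
      exact ge_of_tendsto' h3 h1
    exact Subtype.ext (norm_le_zero_iff.mp h2)
  prec' := by
    intro f hf
    have h1 : ∀ {m n : ℕ}, m ≤ n → ‖(f m : ℂ_[p]) - f n‖ ≤ ((p : ℝ)⁻¹) ^ m := by
      intro m n hmn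
      have := hf hmn
      rw [SModEq.sub_mem, smul_eq_mul, mul_top] at this
      exact (mem_pow_iff m _).mp this
    have hcauchy : CauchySeq (fun n => (f n : ℂ_[p])) := by
      refine cauchySeq_of_le_tendsto_0 (fun n => 2 * ((p : ℝ)⁻¹) ^ n) ?_ ?_
      · intro n m N hn hm
        rw [dist_eq_norm]
        have e : (f n : ℂ_[p]) - f m = ((f N : ℂ_[p]) - f m) - ((f N : ℂ_[p]) - f n) := by ring
        rw [e]
        refine (norm_sub_le _ _).trans ?_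
        have := h1 hm
        have := h1 hn
        linarith
      · have h3 := tendsto_pow_atTop_nhds_zero_of_lt_one inv_p_pos.le (inv_p_lt_one (p := p))
        simpa using h3.const_mul 2
    obtain ⟨L, hL⟩ := cauchySeq_tendsto_of_complete hcauchy
    have hLnorm : ‖L‖ ≤ 1 := by
      refine le_of_tendsto' hL.norm fun n => (mem_int_iff _).mp (f n).2
    refine ⟨⟨L, (mem_int_iff _).mpr hLnorm⟩, fun n => ?_⟩
    rw [SModEq.sub_mem, smul_eq_mul, mul_top, mem_pow_iff]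
    change ‖(f n : ℂ_[p]) - L‖ ≤ _
    have h4 : Filter.Tendsto (fun m => ‖(f n : ℂ_[p]) - f m‖) Filter.atTop
        (nhds ‖(f n : ℂ_[p]) - L‖) := (tendsto_const_nhds.sub hL).norm
    refine le_of_tendsto h4 ?_
    filter_upwards [Filter.eventually_ge_atTop n] with m hm
    exact h1 hm

end Pool.Agent.Work.MP_395897_nt
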