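import Mathlib
import Pool.Agent.Work.MP_395897_nt.BInstLem

/-!
# The ring `𝓞_{ℂ_p}`: `p`-adic completeness (instances) and the Galois action
-/

namespace Pool.Agent.Work.MP_395897_nt

instance fact_not_isUnit {p : ℕ} [Fact p.Prime] : Fact ¬IsUnit (p : 𝓞_ℂ_[p]) := not_isUnit_int

instance isAdicComplete_int {p : ℕ} [Fact p.Prime] :
    IsAdicComplete (Ideal.span {(p : 𝓞_ℂ_[p])}) 𝓞_ℂ_[p] := adicComplete_int

/-- The action of `σ ∈ Gal(ℚ̄_p/ℚ_p)` on the ring of integers `𝓞_{ℂ_p}` of `ℂ_p`. -/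
noncomputable def galO {p : ℕ} [Fact p.Prime] (σ : GalQp p) : 𝓞_ℂ_[p] ≃+* 𝓞_ℂ_[p] :=
  (galC σ).restrict 𝓞_ℂ_[p] 𝓞_ℂ_[p] (by have h := galC_mem_iff σ; exact h)

@[simp] theorem coe_galO {p : ℕ} [Fact p.Prime] (σ : GalQp p) (x : 𝓞_ℂ_[p]) :
    ((galO σ x : 𝓞_ℂ_[p]) : ℂ_[p]) = galC σ x :=
  rfl

end Pool.Agent.Work.MP_395897_nt
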