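import Mathlib

/-!
Compatibilities of adic completions used to define the functoriality map.
-/

open Ideal WittVector

namespace Pool.Agent.Work.MP_395897_nt

noncomputable section

universe u

variable {S : Type u} [CommRing S] (I : Ideal S)

theorem pow_le_comap_pow {F : S →+* S} (hF : I ≤ I.comap F) (n : ℕ) :
    I ^ n ≤ (I ^ n).comap F :=
  (Ideal.pow_right_mono hF n).trans (Ideal.le_comap_pow F n)

theorem factorPow_evalₐ {m n : ℕ} (hmn : m ≤ n) (x : AdicCompletion I S) :
    Ideal.Quotient.factorPow I hmn (AdicCompletion.evalₐ I n x) = AdicCompletion.evalₐ I m x := by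
  obtain ⟨a, rfl⟩ := AdicCompletion.mk_surjective I S x
  rw [AdicCompletion.evalₐ_mk, AdicCompletion.evalₐ_mk]
  have h := AdicCompletion.Ideal.mk_eq_mk I hmn a
  exact h

theorem adicMap_compat (F : S →+* S) (hF : I ≤ I.comap F) {m n : ℕ} (hmn : m ≤ n) :
    (Ideal.Quotient.factorPow I hmn).comp
      ((Ideal.quotientMap (I ^ n) F (pow_le_comap_pow I hF n)).comp
        (AdicCompletion.evalₐ I n : AdicCompletion I S →+* S ⧸ I ^ n)) =
      (Ideal.quotientMap (I ^ m) F (pow_le_comap_pow I hF m)).comp
        (AdicCompletion.evalₐ I m : AdicCompletion I S →+* S ⧸ I ^ m) := by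
  ext x
  obtain ⟨a, rfl⟩ := AdicCompletion.mk_surjective I S x
  simp only [RingHom.comp_apply, RingHom.coe_coe, AdicCompletion.evalₐ_mk,
    Ideal.quotientMap_mk]
  have h := AdicCompletion.Ideal.mk_eq_mk I hmn a
  have h2 := congrArg (Ideal.quotientMap (I ^ m) F (pow_le_comap_pow I hF m)) h
  simpa using h2

end

end Pool.Agent.Work.MP_395897_nt
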