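import Mathlib
import Pool.Agent.Work.MP_395897_nt.BAdicLem

/-!
Functoriality of Mathlib's period rings in ring endomorphisms of `R` (first part): definitions.
-/

open Ideal WittVector

namespace Pool.Agent.Work.MP_395897_nt

noncomputable section

universe u

/-- The endomorphism of the adic completion induced by an endomorphism preserving the ideal. -/
def adicMap {S : Type u} [CommRing S] (I : Ideal S) (F : S →+* S) (hF : I ≤ I.comap F) :
    AdicCompletion I S →+* AdicCompletion I S :=
  AdicCompletion.liftRingHom I
    (fun n => (Ideal.quotientMap (I ^ n) F (pow_le_comap_pow I hF n)).comp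
      (AdicCompletion.evalₐ I n : AdicCompletion I S →+* S ⧸ I ^ n))
    (fun hmn => adicMap_compat I F hF hmn)

/-- An endomorphism of a ring `A` induces an endomorphism of `A[1/p]`. -/
def locMap (p : ℕ) {A : Type u} [CommRing A] (f : A →+* A) :
    Localization.Away (p : A) →+* Localization.Away (p : A) :=
  Localization.awayLift ((algebraMap A (Localization.Away (p : A))).comp f) (p : A)
    (by simpa using IsLocalization.Away.algebraMap_isUnit (S := Localization.Away (p : A)) (p : A))

variable {R : Type u} [CommRing R] (p : ℕ) [Fact p.Prime]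

/-- The endomorphism of `R/p` induced by an endomorphism of `R`. -/
def modPMap (f : R →+* R) : ModP R p →+* ModP R p :=
  Ideal.quotientMap (span {(p : R)}) f (by
    rw [Ideal.span_singleton_le_iff_mem, Ideal.mem_comap, map_natCast]
    exact Ideal.mem_span_singleton_self _)

variable [Fact ¬IsUnit (p : R)]

/-- The endomorphism of the tilt induced by an endomorphism of `R`. -/
def tiltMap (f : R →+* R) : PreTilt R p →+* PreTilt R p :=
  Perfection.map p (modPMap p f)

/-- The endomorphism of `W(R♭)` induced by an endomorphism of `R`. -/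
def wittMap (f : R →+* R) : WittVector p (PreTilt R p) →+* WittVector p (PreTilt R p) :=
  WittVector.map (tiltMap p f)

/-- `W(R♭)[1/p]`. -/
abbrev WLoc (R : Type u) [CommRing R] (p : ℕ) [Fact p.Prime] [Fact ¬IsUnit (p : R)] : Type u :=
  Localization.Away (p : WittVector p (PreTilt R p))

/-- The canonical map `ℤ_p → W(R♭)`. -/
def zpToWitt (R : Type u) [CommRing R] (p : ℕ) [Fact p.Prime] [Fact ¬IsUnit (p : R)] :
    ℤ_[p] →+* WittVector p (PreTilt R p) :=
  (WittVector.map (ZMod.castHom (dvd_refl p) (PreTilt R p))).comp
    ((WittVector.equiv p).symm : ℤ_[p] →+* WittVector p (ZMod p))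

/-- The canonical map `ℤ_p → W(R♭)[1/p]`. -/
def zpToWLoc (R : Type u) [CommRing R] (p : ℕ) [Fact p.Prime] [Fact ¬IsUnit (p : R)] :
    ℤ_[p] →+* WLoc R p :=
  (algebraMap (WittVector p (PreTilt R p)) (WLoc R p)).comp (zpToWitt R p)

/-- The kernel of `θ[1/p]`. -/
abbrev kerTheta (R : Type u) [CommRing R] (p : ℕ) [Fact p.Prime] [Fact ¬IsUnit (p : R)]
    [IsAdicComplete (span {(p : R)}) R] : Ideal (WLoc R p) :=
  RingHom.ker (fontaineThetaInvertP R p)

end

end Pool.Agent.Work.MP_395897_nt
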