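import Mathlib
import Pool.Agent.Work.MP_395897_nt.BDefs1

/-!
Lemmas on the maps of `BDefs1`.
-/

open Ideal WittVector

namespace Pool.Agent.Work.MP_395897_nt

noncomputable section

universe u

set_option linter.unusedSectionVars false

section adic

variable {S : Type u} [CommRing S] (I : Ideal S)

theorem evalₐ_adicMap (F : S →+* S) (hF : I ≤ I.comap F) (n : ℕ) (x : AdicCompletion I S) :
    AdicCompletion.evalₐ I n (adicMap I F hF x) =
      Ideal.quotientMap (I ^ n) F (pow_le_comap_pow I hF n) (AdicCompletion.evalₐ I n x) :=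
  AdicCompletion.evalₐ_liftRingHom I _ (fun hmn => adicMap_compat I F hF hmn) n x

theorem adicMap_of (F : S →+* S) (hF : I ≤ I.comap F) (x : S) :
    adicMap I F hF (AdicCompletion.of I S x) = AdicCompletion.of I S (F x) := by
  refine AdicCompletion.ext_evalₐ fun n => ?_
  rw [evalₐ_adicMap, AdicCompletion.evalₐ_of, AdicCompletion.evalₐ_of, Ideal.quotientMap_mk]

theorem adicMap_id (h : I ≤ I.comap (RingHom.id S)) :
    adicMap I (RingHom.id S) h = RingHom.id _ := by
  ext1 x
  refine AdicCompletion.ext_evalₐ fun n => ?_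
  rw [evalₐ_adicMap]
  obtain ⟨a, rfl⟩ := AdicCompletion.mk_surjective I S x
  simp

theorem adicMap_congr {F G : S →+* S} (h : F = G) (hF : I ≤ I.comap F) (hG : I ≤ I.comap G) :
    adicMap I F hF = adicMap I G hG := by
  subst h
  rfl

theorem adicMap_comp (F G : S →+* S) (hF : I ≤ I.comap F) (hG : I ≤ I.comap G)
    (hFG : I ≤ I.comap (F.comp G)) :
    adicMap I (F.comp G) hFG = (adicMap I F hF).comp (adicMap I G hG) := by
  ext1 x
  refine AdicCompletion.ext_evalₐ fun n => ?_
  rw [RingHom.comp_apply, evalₐ_adicMap, evalₐ_adicMap, evalₐ_adicMap]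
  obtain ⟨a, rfl⟩ := AdicCompletion.mk_surjective I S x
  simp

end adic

variable {R : Type u} [CommRing R] (p : ℕ) [Fact p.Prime]

@[simp] theorem modPMap_mk (f : R →+* R) (x : R) :
    modPMap p f (Ideal.Quotient.mk (span {(p : R)}) x) = Ideal.Quotient.mk (span {(p : R)}) (f x) :=
  rfl

theorem modPMap_id : modPMap p (RingHom.id R) = RingHom.id _ := by
  refine Ideal.Quotient.ringHom_ext ?_
  ext x
  rfl

theorem modPMap_comp (f g : R →+* R) :
    modPMap p (f.comp g) = (modPMap p f).comp (modPMap p g) := by
  refine Ideal.Quotient.ringHom_ext ?_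
  ext x
  rfl

variable [Fact ¬IsUnit (p : R)]

@[simp] theorem coeff_tiltMap (f : R →+* R) (n : ℕ) (x : PreTilt R p) :
    PreTilt.coeff n (tiltMap p f x) = modPMap p f (PreTilt.coeff n x) := by
  exact Perfection.coeff_map (p := p) (modPMap p f) x n

theorem tiltMap_id : tiltMap p (RingHom.id R) = RingHom.id _ := by
  ext x
  refine Perfection.ext (R := ModP R p) (p := p) fun n => ?_
  have := coeff_tiltMap p (RingHom.id R) n x
  rw [modPMap_id] at this
  exact this

theorem tiltMap_comp (f g : R →+* R) :
    tiltMap p (f.comp g) = (tiltMap p f).comp (tiltMap p g) := by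
  ext x
  refine Perfection.ext (R := ModP R p) (p := p) fun n => ?_
  have h1 := coeff_tiltMap p (f.comp g) n x
  have h2 := coeff_tiltMap p f n (tiltMap p g x)
  have h3 := coeff_tiltMap p g n x
  rw [modPMap_comp] at h1
  rw [h3] at h2
  exact h1.trans h2.symm

theorem wittMap_id : wittMap p (RingHom.id R) = RingHom.id _ := by
  ext x n
  simp [wittMap, tiltMap_id]

theorem wittMap_comp (f g : R →+* R) :
    wittMap p (f.comp g) = (wittMap p f).comp (wittMap p g) := by
  ext x n
  simp [wittMap, tiltMap_comp]

variable [IsAdicComplete (span {(p : R)}) R]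

theorem untilt_tiltMap (f : R →+* R) (x : PreTilt R p) :
    (tiltMap p f x).untilt = f x.untilt := by
  have hI : (span {(p : R)}).map f ≤ span {(p : R)} := by
    rw [Ideal.map_span, Set.image_singleton, map_natCast]
  refine Perfection.teichmuller_spec (fun n => ?_)
  obtain ⟨y, hy⟩ := Ideal.Quotient.mk_surjective (PreTilt.coeff n x)
  refine ⟨f y, ?_, ?_⟩
  · have h := coeff_tiltMap p f n x
    rw [← hy] at h
    exact h.symm
  · have h1 : PreTilt.untilt x ≡ y ^ p ^ n [SMOD (span {(p : R)}) ^ (n + 1)] :=
      Perfection.teichmuller_sModEq hy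
    rw [SModEq.sub_mem] at h1 ⊢
    have h2 := Ideal.mem_map_of_mem f h1
    rw [Ideal.map_pow] at h2
    have h3 := Ideal.pow_right_mono hI (n + 1) h2
    rw [map_sub, map_pow] at h3
    rw [← neg_mem_iff, neg_sub]
    exact h3

theorem fontaineTheta_wittMap (f : R →+* R) (x : WittVector p (PreTilt R p)) :
    fontaineTheta R p (wittMap p f x) = f (fontaineTheta R p x) := by
  rw [IsHausdorff.eq_iff_smodEq (I := span {(p : R)})]
  intro n
  simp only [smul_eq_mul, mul_top]
  have key : ((Ideal.Quotient.mk ((span {(p : R)}) ^ n)).comp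
      ((fontaineTheta R p).comp (wittMap p f))) =
      ((Ideal.Quotient.mk ((span {(p : R)}) ^ n)).comp (f.comp (fontaineTheta R p))) := by
    refine eq_of_apply_teichmuller_eq (p := p) _ _ ?_ ?_
    · refine ⟨n, ?_⟩
      have : (p : R ⧸ (span {(p : R)}) ^ n) = Ideal.Quotient.mk ((span {(p : R)}) ^ n) p := by
        simp [map_natCast]
      rw [this, ← map_pow, Ideal.Quotient.eq_zero_iff_mem]
      exact Ideal.pow_mem_pow (mem_span_singleton_self _) _
    · intro x
      simp only [RingHom.comp_apply, wittMap, WittVector.map_teichmuller,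
        fontaineTheta_teichmuller, untilt_tiltMap]
  exact congrArg (fun g => g x) (congrArg DFunLike.coe key)

theorem locMap_algebraMap {A : Type u} [CommRing A] (f : A →+* A) (a : A) :
    locMap p f (algebraMap A _ a) = algebraMap A _ (f a) := by
  simp [locMap]

theorem locMap_id {A : Type u} [CommRing A] : locMap p (RingHom.id A) = RingHom.id _ := by
  refine IsLocalization.ringHom_ext (Submonoid.powers (p : A)) ?_
  ext a
  simp [locMap_algebraMap]

theorem locMap_comp {A : Type u} [CommRing A] (f g : A →+* A) :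
    locMap p (f.comp g) = (locMap p f).comp (locMap p g) := by
  refine IsLocalization.ringHom_ext (Submonoid.powers (p : A)) ?_
  ext a
  simp [locMap_algebraMap]

theorem fontaineThetaInvertP_algebraMap (a : WittVector p (PreTilt R p)) :
    fontaineThetaInvertP R p (algebraMap _ _ a) = algebraMap R _ (fontaineTheta R p a) := by
  simp [fontaineThetaInvertP]

theorem fontaineThetaInvertP_locMap (f : R →+* R) (x : WLoc R p) :
    fontaineThetaInvertP R p (locMap p (wittMap p f) x) =
      locMap p f (fontaineThetaInvertP R p x) := by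
  have key : (fontaineThetaInvertP R p).comp (locMap p (wittMap p f)) =
      (locMap p f).comp (fontaineThetaInvertP R p) := by
    refine IsLocalization.ringHom_ext (Submonoid.powers (p : WittVector p (PreTilt R p))) ?_
    ext a
    simp only [RingHom.comp_apply, locMap_algebraMap, fontaineThetaInvertP_algebraMap,
      fontaineTheta_wittMap]
  exact congrArg (fun g => g x) (congrArg DFunLike.coe key)

theorem kerTheta_le (f : R →+* R) :
    kerTheta R p ≤ (kerTheta R p).comap (locMap p (wittMap p f)) := by
  intro x hx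
  rw [Ideal.mem_comap, RingHom.mem_ker, fontaineThetaInvertP_locMap]
  rw [RingHom.mem_ker] at hx
  rw [hx, map_zero]

theorem isUnit_zpToWLoc (R : Type u) [CommRing R] (p : ℕ) [Fact p.Prime]
    [Fact ¬IsUnit (p : R)] (y : nonZeroDivisors ℤ_[p]) : IsUnit (zpToWLoc R p y) := by
  have hy : (y : ℤ_[p]) ≠ 0 := nonZeroDivisors.coe_ne_zero y
  rw [PadicInt.unitCoeff_spec hy, map_mul, map_pow]
  refine ((Units.isUnit _).map _).mul (IsUnit.pow _ ?_)
  have h : zpToWLoc R p (p : ℤ_[p]) =
      algebraMap (WittVector p (PreTilt R p)) (WLoc R p) (p : WittVector p (PreTilt R p)) := by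
    simp [zpToWLoc]
  rw [h]
  exact IsLocalization.Away.algebraMap_isUnit _

end

end Pool.Agent.Work.MP_395897_nt
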