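import Mathlib
import Pool.Agent.Work.MP_395897_nt.BLem1

/-!
Ring structure on Mathlib's `BDeRham` and functoriality of `BDeRhamPlus`: definitions.
-/

open Ideal WittVector

namespace Pool.Agent.Work.MP_395897_nt

noncomputable section

universe u

variable {R : Type u} [CommRing R] (p : ℕ) [Fact p.Prime] [Fact ¬IsUnit (p : R)]
  [IsAdicComplete (span {(p : R)}) R]

/-- The endomorphism of `BDeRhamPlus` induced by an endomorphism of `R`. -/
def bdrPlusMap (f : R →+* R) : BDeRhamPlus R p →+* BDeRhamPlus R p :=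
  adicMap (kerTheta R p) (locMap p (wittMap p f)) 
    (by have h := kerTheta_le p f; exact h)

/-- The submonoid inverted in the definition of `BDeRham`. -/
abbrev bdrSub (R : Type u) [CommRing R] (p : ℕ) [Fact p.Prime] [Fact ¬IsUnit (p : R)]
    [IsAdicComplete (span {(p : R)}) R] : Submonoid (BDeRhamPlus R p) :=
  Submonoid.closure (AdicCompletion.of (RingHom.ker (fontaineThetaInvertP R p)) _ ''
      {a | RingHom.ker (fontaineThetaInvertP R p) = Ideal.span {a}})

/-- The ring structure of `BDeRham R p` (a localization of `BDeRhamPlus R p`). -/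
instance instCommRingBDeRham (R : Type u) [CommRing R] (p : ℕ) [Fact p.Prime]
    [Fact ¬IsUnit (p : R)] [IsAdicComplete (span {(p : R)}) R] : CommRing (BDeRham R p) :=
  (inferInstance : CommRing (Localization (bdrSub R p)))

/-- `BDeRham R p` is an algebra over `BDeRhamPlus R p`. -/
instance instAlgebraBDeRham (R : Type u) [CommRing R] (p : ℕ) [Fact p.Prime]
    [Fact ¬IsUnit (p : R)] [IsAdicComplete (span {(p : R)}) R] :
    Algebra (BDeRhamPlus R p) (BDeRham R p) :=
  (inferInstance : Algebra (BDeRhamPlus R p) (Localization (bdrSub R p)))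

instance instIsLocalizationBDeRham (R : Type u) [CommRing R] (p : ℕ) [Fact p.Prime]
    [Fact ¬IsUnit (p : R)] [IsAdicComplete (span {(p : R)}) R] :
    IsLocalization (bdrSub R p) (BDeRham R p) :=
  (inferInstance : IsLocalization (bdrSub R p) (Localization (bdrSub R p)))

/-- The canonical map `ℚ_p → W(R♭)[1/p]`. -/
def qpToWLoc (R : Type u) [CommRing R] (p : ℕ) [Fact p.Prime] [Fact ¬IsUnit (p : R)] :
    ℚ_[p] →+* WLoc R p :=
  IsLocalization.lift (M := nonZeroDivisors ℤ_[p]) (g := zpToWLoc R p)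
    (by have h := isUnit_zpToWLoc R p; exact h)

/-- The canonical map `ℚ_p → BDeRhamPlus`. -/
def qpToBdRPlus (R : Type u) [CommRing R] (p : ℕ) [Fact p.Prime] [Fact ¬IsUnit (p : R)]
    [IsAdicComplete (span {(p : R)}) R] : ℚ_[p] →+* BDeRhamPlus R p :=
  (algebraMap (WLoc R p) (AdicCompletion (kerTheta R p) (WLoc R p))).comp (qpToWLoc R p)

/-- The `ℚ_p`-algebra structure of `BDeRham R p`. -/
instance algebraQpBDeRham (R : Type u) [CommRing R] (p : ℕ) [Fact p.Prime] [Fact ¬IsUnit (p : R)]
    [IsAdicComplete (span {(p : R)}) R] : Algebra ℚ_[p] (BDeRham R p) :=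
  RingHom.toAlgebra ((algebraMap (BDeRhamPlus R p) (BDeRham R p)).comp (qpToBdRPlus R p))

/-- The image of `BDeRhamPlus R p` in `BDeRham R p`. -/
def bdrPlusSet (R : Type u) [CommRing R] (p : ℕ) [Fact p.Prime] [Fact ¬IsUnit (p : R)]
    [IsAdicComplete (span {(p : R)}) R] : Set (BDeRham R p) :=
  Set.range (algebraMap (BDeRhamPlus R p) (BDeRham R p))

end

end Pool.Agent.Work.MP_395897_nt
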