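import Mathlib
import Pool.Agent.Work.MP_395897_nt.BDefs2

/-!
Lemmas on the maps of `BDefs2`.
-/

open Ideal WittVector

namespace Pool.Agent.Work.MP_395897_nt

noncomputable section

universe u

set_option linter.unusedSectionVars false

variable {R : Type u} [CommRing R] (p : ℕ) [Fact p.Prime] [Fact ¬IsUnit (p : R)]
  [IsAdicComplete (span {(p : R)}) R]

theorem bdrPlusMap_of (f : R →+* R) (x : WLoc R p) :
    bdrPlusMap p f (AdicCompletion.of (kerTheta R p) _ x) =
      AdicCompletion.of (kerTheta R p) _ (locMap p (wittMap p f) x) :=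
  adicMap_of _ _ _ x

theorem bdrPlusMap_id : bdrPlusMap p (RingHom.id R) = RingHom.id _ := by
  have h : locMap p (wittMap p (RingHom.id R)) = RingHom.id _ := by
    rw [wittMap_id, locMap_id]
  have h' : kerTheta R p ≤ (kerTheta R p).comap (RingHom.id _) := by
    rw [← h]
    exact kerTheta_le p _
  exact (adicMap_congr _ h _ h').trans (adicMap_id _ h')

theorem bdrPlusMap_comp (f g : R →+* R) :
    bdrPlusMap p (f.comp g) = (bdrPlusMap p f).comp (bdrPlusMap p g) := by
  have h : locMap p (wittMap p (f.comp g)) =
      (locMap p (wittMap p f)).comp (locMap p (wittMap p g)) := by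
    rw [wittMap_comp, locMap_comp]
  have h' : kerTheta R p ≤
      (kerTheta R p).comap ((locMap p (wittMap p f)).comp (locMap p (wittMap p g))) := by
    rw [← h]
    exact kerTheta_le p _
  exact (adicMap_congr _ h _ h').trans (adicMap_comp (kerTheta R p) (locMap p (wittMap p f))
    (locMap p (wittMap p g)) (kerTheta_le p f) (kerTheta_le p g) h')

theorem bdrSub_le (e : R ≃+* R) :
    bdrSub R p ≤ (bdrSub R p).comap (bdrPlusMap p (e : R →+* R)) := by
  rw [Submonoid.closure_le]
  rintro _ ⟨a, ha, rfl⟩
  have ha' : kerTheta R p = Ideal.span {a} := ha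
  have h1 := bdrPlusMap_of p (e : R →+* R) a
  suffices h2 : kerTheta R p = Ideal.span {locMap p (wittMap p (e : R →+* R)) a} by
    have h3 : AdicCompletion.of (kerTheta R p) _ (locMap p (wittMap p (e : R →+* R)) a) ∈
        bdrSub R p := Submonoid.subset_closure ⟨_, h2, rfl⟩
    exact (congrArg (fun z => z ∈ bdrSub R p) h1).mpr h3
  apply le_antisymm
  · intro x hx
    -- pull back by the inverse automorphism
    have hid : (locMap p (wittMap p (e : R →+* R))).comp
        (locMap p (wittMap p (e.symm : R →+* R))) = RingHom.id _ := by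
      rw [← locMap_comp, ← wittMap_comp]
      have : ((e : R →+* R)).comp (e.symm : R →+* R) = RingHom.id R := by
        ext r; simp
      rw [this, wittMap_id, locMap_id]
    have hx' := kerTheta_le p (e.symm : R →+* R) hx
    rw [Ideal.mem_comap, ha', Ideal.mem_span_singleton] at hx'
    obtain ⟨c, hc⟩ := hx'
    rw [Ideal.mem_span_singleton]
    refine ⟨locMap p (wittMap p (e : R →+* R)) c, ?_⟩
    rw [← map_mul, ← hc]
    exact (congrArg (fun g => g x) (congrArg DFunLike.coe hid)).symm
  · rw [Ideal.span_singleton_le_iff_mem]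
    refine kerTheta_le p (e : R →+* R) ?_
    rw [ha']
    exact Ideal.mem_span_singleton_self a

/-! ### The map `ℚ_p → W(R♭)[1/p]` -/

end

end Pool.Agent.Work.MP_395897_nt
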