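import Mathlib
import Pool.Agent.Work.MP_395897_nt.BLem2

/-!
Functoriality of `BDeRham R p` in automorphisms of `R`.
-/

open Ideal WittVector

namespace Pool.Agent.Work.MP_395897_nt

noncomputable section

universe u

/-- The endomorphism of `BDeRham R p` induced by an automorphism of `R`. -/
def bdrMap {R : Type u} [CommRing R] (p : ℕ) [Fact p.Prime] [Fact ¬IsUnit (p : R)]
    [IsAdicComplete (span {(p : R)}) R] (e : R ≃+* R) : BDeRham R p →+* BDeRham R p :=
  IsLocalization.map (M := bdrSub R p) (T := bdrSub R p) (BDeRham R p)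
    (bdrPlusMap p (e : R →+* R)) 
    (by have h := bdrSub_le p e; exact h)

end

end Pool.Agent.Work.MP_395897_nt
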