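import Mathlib
import Pool.Agent.Work.MP_395897_nt.BDefs3

/-!
Functoriality of `BDeRham`, compatibility with the `ℚ_p`-algebra structure: lemmas.
-/

open Ideal WittVector

namespace Pool.Agent.Work.MP_395897_nt

noncomputable section

universe u

set_option linter.unusedSectionVars false

section functoriality

variable {R : Type u} [CommRing R] (p : ℕ) [Fact p.Prime] [Fact ¬IsUnit (p : R)]
  [IsAdicComplete (span {(p : R)}) R]

theorem bdrMap_algebraMap (e : R ≃+* R) (x : BDeRhamPlus R p) :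
    bdrMap p e (algebraMap _ _ x) = algebraMap _ _ (bdrPlusMap p (e : R →+* R) x) :=
  IsLocalization.map_eq _ _

theorem bdrMap_id : bdrMap p (RingEquiv.refl R) = RingHom.id _ := by
  refine IsLocalization.ringHom_ext (bdrSub R p) ?_
  ext x
  rw [RingHom.comp_apply, RingHom.comp_apply, bdrMap_algebraMap, RingHom.id_apply]
  have h := bdrPlusMap_id (R := R) p
  exact congrArg _ (congrArg (fun g => g x) (congrArg DFunLike.coe h))

theorem bdrMap_comp (e f : R ≃+* R) :
    bdrMap p (f.trans e) = (bdrMap p e).comp (bdrMap p f) := by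
  refine IsLocalization.ringHom_ext (bdrSub R p) ?_
  ext x
  rw [RingHom.comp_apply, RingHom.comp_apply, RingHom.comp_apply, bdrMap_algebraMap,
    bdrMap_algebraMap, bdrMap_algebraMap]
  have h := bdrPlusMap_comp p (e : R →+* R) (f : R →+* R)
  exact congrArg _ (congrArg (fun g => g x) (congrArg DFunLike.coe h))

end functoriality

section qp

variable (R : Type u) [CommRing R] (p : ℕ) [Fact p.Prime] [Fact ¬IsUnit (p : R)]

theorem wittMap_zpToWitt (f : R →+* R) (x : ℤ_[p]) :
    wittMap p f (zpToWitt R p x) = zpToWitt R p x := by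
  have h : (tiltMap p f).comp (ZMod.castHom (dvd_refl p) (PreTilt R p)) =
      ZMod.castHom (dvd_refl p) (PreTilt R p) := Subsingleton.elim _ _
  ext n
  simp only [zpToWitt, wittMap, RingHom.comp_apply, WittVector.map_coeff]
  exact RingHom.congr_fun h _

theorem qpToWLoc_coe (x : ℤ_[p]) : qpToWLoc R p (x : ℚ_[p]) = zpToWLoc R p x :=
  IsLocalization.lift_eq (M := nonZeroDivisors ℤ_[p]) (isUnit_zpToWLoc R p) x

theorem locMap_qpToWLoc (f : R →+* R) (x : ℚ_[p]) :
    locMap p (wittMap p f) (qpToWLoc R p x) = qpToWLoc R p x := by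
  have key : (locMap p (wittMap p f)).comp (qpToWLoc R p) = qpToWLoc R p := by
    refine IsLocalization.ringHom_ext (nonZeroDivisors ℤ_[p]) ?_
    ext x
    have h : algebraMap ℤ_[p] ℚ_[p] x = (x : ℚ_[p]) := rfl
    rw [RingHom.comp_apply, RingHom.comp_apply, RingHom.comp_apply, h, qpToWLoc_coe, zpToWLoc,
      RingHom.comp_apply, locMap_algebraMap, wittMap_zpToWitt]
  exact RingHom.congr_fun key x

variable [IsAdicComplete (span {(p : R)}) R]

theorem qpToBdRPlus_apply (x : ℚ_[p]) :
    qpToBdRPlus R p x = AdicCompletion.of (kerTheta R p) _ (qpToWLoc R p x) := rfl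

theorem bdrPlusMap_qpToBdRPlus (f : R →+* R) (x : ℚ_[p]) :
    bdrPlusMap p f (qpToBdRPlus R p x) = qpToBdRPlus R p x := by
  have h1 := bdrPlusMap_of p f (qpToWLoc R p x)
  rw [locMap_qpToWLoc] at h1
  exact h1

theorem algebraMap_qp_apply (x : ℚ_[p]) :
    algebraMap ℚ_[p] (BDeRham R p) x =
      algebraMap (BDeRhamPlus R p) (BDeRham R p) (qpToBdRPlus R p x) := rfl

theorem bdrMap_algebraMap_qp (e : R ≃+* R) (x : ℚ_[p]) :
    bdrMap p e (algebraMap ℚ_[p] (BDeRham R p) x) = algebraMap ℚ_[p] (BDeRham R p) x := by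
  rw [algebraMap_qp_apply, bdrMap_algebraMap, bdrPlusMap_qpToBdRPlus]

end qp

end

end Pool.Agent.Work.MP_395897_nt
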