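import Mathlib
import Pool.Agent.Work.MP_395897_nt.BLem3
import Pool.Agent.Work.MP_395897_nt.BInst

/-!
# Definitions for the refined Fontaine–Mazur question (MP_395897_nt)

`F` is a number field, `F̄ = AlgebraicClosure F`, `l` a prime, `ℚ̄_l = PadicAlgCl l`.

*Places.*  Fix a prime `p` (equal to `l` or not).  Every place `v ∣ p` of `F` is induced by an
embedding `ι : F̄ → ℚ̄_p`; the local field `F_v` is the closure of `ι(F)`, and the decomposition
group `Gal(F̄_v/F_v)` consists of the `σ ∈ Gal(ℚ̄_p/ℚ_p)` fixing `ι(F)`; it maps to `Gal(F̄/F)` by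
`σ ↦ s` where `ι ∘ s = σ ∘ ι`.  (Such an `s` exists, and is unique, exactly when `σ` fixes `ι(F)`.)
All local conditions below are stated for the pair `(ρ, ι)` via the relation `Restricts ι σ s`.
-/

open Ideal WittVector TensorProduct NumberField IsDedekindDomain

namespace Pool.Agent.Work.MP_395897_nt

noncomputable section

universe u

/-- The absolute Galois group `G_F = Gal(F̄/F)` (with its Krull topology). -/
abbrev GalF (F : Type u) [Field F] : Type u := AlgebraicClosure F ≃ₐ[F] AlgebraicClosure F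

/-- `s ∈ G_F` is the restriction of `σ ∈ Gal(ℚ̄_p/ℚ_p)` along the embedding `ι : F̄ → ℚ̄_p`. -/
def Restricts {F : Type u} [Field F] {p : ℕ} [Fact p.Prime] (ι : AlgebraicClosure F →+* PadicAlgCl p)
    (σ : GalQp p) (s : GalF F) : Prop :=
  ∀ x : AlgebraicClosure F, ι (s x) = σ (ι x)

/-- `σ ∈ Gal(ℚ̄_p/ℚ_p)` acts trivially on the residue field of `ℚ̄_p` (i.e. lies in inertia). -/
def ActsTriviallyOnResidue {p : ℕ} [Fact p.Prime] (σ : GalQp p) : Prop :=
  ∀ x : PadicAlgCl p, ‖x‖ ≤ 1 → ‖σ x - x‖ < 1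

/-- `σ` is a geometric Frobenius for a residue field with `q` elements: it acts on the residue
field of `ℚ̄_p` as the inverse of `x ↦ x ^ q`. -/
def IsGeomFrob {p : ℕ} [Fact p.Prime] (q : ℕ) (σ : GalQp p) : Prop :=
  ∀ x : PadicAlgCl p, ‖x‖ ≤ 1 → ‖(σ x) ^ q - x‖ < 1

/-- The embedding `ι : F̄ → ℚ̄_p` induces the finite place `v` of the number field `F`. -/
def Induces {F : Type u} [Field F] [NumberField F] {p : ℕ} [Fact p.Prime]
    (ι : AlgebraicClosure F →+* PadicAlgCl p) (v : HeightOneSpectrum (𝓞 F)) : Prop :=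
  ∀ x : 𝓞 F, x ∈ v.asIdeal ↔ ‖ι (algebraMap (𝓞 F) (AlgebraicClosure F) x)‖ < 1

/-- A continuous representation `ρ : G_F → GL_n(ℚ̄_l)`. -/
structure GalRep (F : Type u) [Field F] (l : ℕ) [Fact l.Prime] (n : ℕ) where
  /-- the underlying homomorphism -/
  toHom : GalF F →* GL (Fin n) (PadicAlgCl l)
  /-- it is continuous for the Krull topology on `G_F` and the `l`-adic topology -/
  continuous_toHom : Continuous toHom

namespace GalRep

variable {F : Type u} [Field F] {l : ℕ} [Fact l.Prime] {n : ℕ} (ρ : GalRep F l n)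

/-- `ρ(s)` as a matrix. -/
def mat (s : GalF F) : Matrix (Fin n) (Fin n) (PadicAlgCl l) := (ρ.toHom s).val

/-- `ρ` is irreducible: `n > 0` and there are no invariant subspaces besides `0` and everything. -/
def IsIrreducible : Prop :=
  0 < n ∧ ∀ W : Submodule (PadicAlgCl l) (Fin n → PadicAlgCl l),
    (∀ (s : GalF F), ∀ x ∈ W, (ρ.mat s).mulVec x ∈ W) → W = ⊥ ∨ W = ⊤

/-- `ρ` is unramified at the finite place `v`. -/
def UnramifiedAt [NumberField F] (v : HeightOneSpectrum (𝓞 F)) : Prop :=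
  ∀ (p : ℕ) [Fact p.Prime] (ι : AlgebraicClosure F →+* PadicAlgCl p), Induces ι v →
    ∀ (σ : GalQp p) (s : GalF F), Restricts ι σ s → ActsTriviallyOnResidue σ → ρ.toHom s = 1

/-! ### Condition 2 : Weil–Deligne representations at places not above `l` -/

/-- `N` is (up to a nonzero scalar) the monodromy operator of the Weil–Deligne representation
attached to `ρ` at the place induced by `ι : F̄ → ℚ̄_p`, `p ≠ l` (Grothendieck's monodromy theorem):
`N` is nilpotent and on an open subgroup of inertia `ρ(σ) = exp(t(σ) N)`, where `t` is not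
identically zero there unless `N = 0`. -/
def IsMonodromyOperator {p : ℕ} [Fact p.Prime] (ι : AlgebraicClosure F →+* PadicAlgCl p)
    (N : Matrix (Fin n) (Fin n) (PadicAlgCl l)) : Prop :=
  IsNilpotent N ∧ ∃ (U : Subgroup (GalQp p)) (t : GalQp p → PadicAlgCl l),
    IsOpen (U : Set (GalQp p)) ∧
    (∀ σ ∈ U, ActsTriviallyOnResidue σ → ∀ s : GalF F, Restricts ι σ s →
      ρ.mat s = IsNilpotent.exp (t σ • N)) ∧
    (N ≠ 0 → ∃ σ ∈ U, ActsTriviallyOnResidue σ ∧ (∃ s : GalF F, Restricts ι σ s) ∧ t σ ≠ 0)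

end GalRep

/-- `M` is the monodromy filtration of the nilpotent endomorphism `N`: the unique finite increasing
filtration with `N M_j ⊆ M_{j-2}` such that `N^j : gr_j → gr_{-j}` is bijective for all `j ≥ 0`. -/
def IsMonodromyFiltration {k : Type*} [Field k] {n : ℕ} (N : Matrix (Fin n) (Fin n) k)
    (M : ℤ → Submodule k (Fin n → k)) : Prop :=
  Monotone M ∧ (∃ a, M a = ⊥) ∧ (∃ b, M b = ⊤) ∧
  (∀ j, ∀ x ∈ M j, N.mulVec x ∈ M (j - 2)) ∧
  (∀ j : ℕ, ∀ x ∈ M j, (N ^ j).mulVec x ∈ M (-j - 1) → x ∈ M (j - 1)) ∧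
  (∀ j : ℕ, ∀ y ∈ M (-j), ∃ x ∈ M j, y - (N ^ j).mulVec x ∈ M (-j - 1))

/-- `α ∈ ℚ̄_l` is an algebraic number all of whose complex conjugates have absolute value
`q ^ (k / 2)`. -/
def IsWeilNumber {l : ℕ} [Fact l.Prime] (q : ℕ) (k : ℤ) (α : PadicAlgCl l) : Prop :=
  IsAlgebraic ℚ α ∧ ∀ z : ℂ, Polynomial.aeval z (minpoly ℚ α) = 0 → ‖z‖ = (q : ℝ) ^ ((k : ℝ) / 2)

namespace GalRep

variable {F : Type u} [Field F] {l : ℕ} [Fact l.Prime] {n : ℕ} (ρ : GalRep F l n)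

/-- The Weil–Deligne representation `(r, N)` attached to `ρ` at the place with `q` elements in the
residue field induced by `ι : F̄ → ℚ̄_p`, `p ≠ l`, is integral and pure of weight `w`: for every
`j` and every geometric Frobenius `Φ`, every eigenvalue of `r(Φ)` on `gr_j` of the monodromy
filtration is an algebraic integer all of whose complex conjugates have absolute value
`q ^ ((w + j) / 2)`.
(On `gr_j` the operators `r(Φ)` and `ρ(Φ)` coincide, since they differ by a factor `exp(c N)`.) -/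
def IntegralPureAt {p : ℕ} [Fact p.Prime] (ι : AlgebraicClosure F →+* PadicAlgCl p) (q : ℕ)
    (w : ℤ) : Prop :=
  ∃ (N : Matrix (Fin n) (Fin n) (PadicAlgCl l))
    (M : ℤ → Submodule (PadicAlgCl l) (Fin n → PadicAlgCl l)),
    ρ.IsMonodromyOperator ι N ∧ IsMonodromyFiltration N M ∧
    ∀ (Φ : GalQp p) (s : GalF F), Restricts ι Φ s → IsGeomFrob q Φ →
      ∀ (j : ℤ) (α : PadicAlgCl l) (x : Fin n → PadicAlgCl l), x ∈ M j → x ∉ M (j - 1) →
        (ρ.mat s).mulVec x - α • x ∈ M (j - 1) → IsIntegral ℤ α ∧ IsWeilNumber q (w + j) α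

/-- **Condition 2**: there is an integer `w` such that at every finite place `v ∤ l` the
Weil–Deligne representation attached to `ρ` at `v` is integral and pure of weight `w`. -/
def Condition2 [NumberField F] : Prop :=
  ∃ w : ℤ, ∀ (v : HeightOneSpectrum (𝓞 F)) (p : ℕ) [Fact p.Prime]
    (ι : AlgebraicClosure F →+* PadicAlgCl p), p ≠ l → Induces ι v →
      ρ.IntegralPureAt ι (Nat.card (𝓞 F ⧸ v.asIdeal)) w

end GalRep

/-! ### Condition 1 : de Rham representations -/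

/-- The `ℚ_p`-algebra endomorphism of `BDeRham R p` induced by an automorphism of `R`. -/
def bdrAlgHom (R : Type u) [CommRing R] (p : ℕ) [Fact p.Prime] [Fact ¬IsUnit (p : R)]
    [IsAdicComplete (span {(p : R)}) R] (e : R ≃+* R) : BDeRham R p →ₐ[ℚ_[p]] BDeRham R p where
  toRingHom := bdrMap p e
  commutes' := by have h := bdrMap_algebraMap_qp R p e; exact h

/-- Fontaine's field `B_dR`: Mathlib's `BDeRham` for the ring of integers `𝓞_{ℂ_p}` of `ℂ_p`. -/
def BdR (p : ℕ) [Fact p.Prime] : Type := BDeRham 𝓞_ℂ_[p] p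

instance instCommRingBdR (p : ℕ) [Fact p.Prime] : CommRing (BdR p) :=
  instCommRingBDeRham 𝓞_ℂ_[p] p

instance instAlgebraBdR (p : ℕ) [Fact p.Prime] : Algebra ℚ_[p] (BdR p) :=
  algebraQpBDeRham 𝓞_ℂ_[p] p

/-- The image of `B_dR^+` in `B_dR`. -/
def bdRPlus (p : ℕ) [Fact p.Prime] : Set (BdR p) := bdrPlusSet 𝓞_ℂ_[p] p

/-- The (functorial) action of `σ ∈ Gal(ℚ̄_p/ℚ_p)` on `B_dR`. -/
def galBdR {p : ℕ} [Fact p.Prime] (σ : GalQp p) : BdR p →ₐ[ℚ_[p]] BdR p :=
  bdrAlgHom 𝓞_ℂ_[p] p (galO σ)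

/-- The coefficient ring `B_dR ⊗_{ℚ_l} ℚ̄_l`. -/
def CoefBdR (l : ℕ) [Fact l.Prime] : Type := BdR l ⊗[ℚ_[l]] PadicAlgCl l

instance instCommRingCoefBdR (l : ℕ) [Fact l.Prime] : CommRing (CoefBdR l) :=
  (inferInstance : CommRing (BdR l ⊗[ℚ_[l]] PadicAlgCl l))

/-- The element `b ⊗ a` of `B_dR ⊗_{ℚ_l} ℚ̄_l`. -/
def coefMk {l : ℕ} [Fact l.Prime] (b : BdR l) (a : PadicAlgCl l) : CoefBdR l := b ⊗ₜ[ℚ_[l]] a

/-- The action of `σ ∈ Gal(ℚ̄_l/ℚ_l)` on `B_dR ⊗_{ℚ_l} ℚ̄_l` through the first factor: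
`b ⊗ a ↦ σ(b) ⊗ a`. -/
def coefAct {l : ℕ} [Fact l.Prime] (σ : GalQp l) : CoefBdR l →+* CoefBdR l :=
  (Algebra.TensorProduct.map (galBdR σ) (AlgHom.id ℚ_[l] (PadicAlgCl l))).toRingHom

/-- The image of `B_dR^+ ⊗_{ℚ_l} ℚ̄_l` in `B_dR ⊗_{ℚ_l} ℚ̄_l`. -/
def coefPlus (l : ℕ) [Fact l.Prime] : AddSubgroup (CoefBdR l) :=
  AddSubgroup.closure {x | ∃ b ∈ bdRPlus l, ∃ a : PadicAlgCl l, x = coefMk b a}

namespace GalRep

variable {F : Type u} [Field F] {l : ℕ} [Fact l.Prime] {n : ℕ} (ρ : GalRep F l n)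

/-- The diagonal action of (compatible) `σ` and `s` on
`B_dR ⊗_{ℚ_l} V = (B_dR ⊗_{ℚ_l} ℚ̄_l)^n`, where `V = ℚ̄_l^n` is the space of `ρ`. -/
def diagAct (σ : GalQp l) (s : GalF F) (x : Fin n → CoefBdR l) : Fin n → CoefBdR l :=
  fun i => ∑ j, coefMk 1 (ρ.mat s i j) * coefAct σ (x j)

/-- `D_dR(ρ|_{G_{F_v}}) = (B_dR ⊗_{ℚ_l} V)^{G_{F_v}}`, for the place `v ∣ l` induced by
`ι : F̄ → ℚ̄_l`. -/
def DdR (ι : AlgebraicClosure F →+* PadicAlgCl l) : Set (Fin n → CoefBdR l) :=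
  {x | ∀ (σ : GalQp l) (s : GalF F), Restricts ι σ s → ρ.diagAct σ s x = x}

/-- `ρ|_{G_{F_v}}` is de Rham (Fontaine) at the place `v ∣ l` induced by `ι : F̄ → ℚ̄_l`: the
canonical map `B_dR ⊗ D_dR(V) → B_dR ⊗_{ℚ_l} V` (which is always injective) is surjective, i.e.
`B_dR ⊗_{ℚ_l} V` is spanned by its invariants. -/
def IsDeRhamAt (ι : AlgebraicClosure F →+* PadicAlgCl l) : Prop :=
  Submodule.span (CoefBdR l) (ρ.DdR ι) = ⊤

/-- All Hodge–Tate weights of the (de Rham) representation `ρ|_{G_{F_v}}` are `≥ 0`, with the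
normalisation in which the cyclotomic character has weight `-1`: `Fil^0 D_dR = D_dR`, i.e. all
invariants lie in `B_dR^+ ⊗ V`. -/
def HodgeTateWeightsNonneg (ι : AlgebraicClosure F →+* PadicAlgCl l) : Prop :=
  ∀ x ∈ ρ.DdR ι, ∀ i, x i ∈ coefPlus l

/-- **Condition 1**: at every place `v ∣ l` the representation `ρ|_{G_{F_v}}` is de Rham and all
its Hodge–Tate weights are `≥ 0`. -/
def Condition1 : Prop :=
  ∀ ι : AlgebraicClosure F →+* PadicAlgCl l, ρ.IsDeRhamAt ι ∧ ρ.HodgeTateWeightsNonneg ι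

end GalRep

end

end Pool.Agent.Work.MP_395897_nt
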