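import Mathlib

/-!
A continuous character `ψ` of `ℤ_lˣ` whose square is the identity up to roots of unity.
-/

namespace Pool.Agent.Work.MP_395897_nt

noncomputable section

variable {l : ℕ} [Fact l.Prime]

/-- Existence and uniqueness of square roots close to `1`. -/
theorem exists_sqrt (u : ℤ_[l]) (hu : ‖u - 1‖ < ‖(2 : ℤ_[l])‖ ^ 2) :
    ∃ z : ℤ_[l], z ^ 2 = u ∧ ‖z - 1‖ < ‖(2 : ℤ_[l])‖ ∧
      ∀ z', z' ^ 2 = u → ‖z' - 1‖ < ‖(2 : ℤ_[l])‖ → z' = z := by
  have h := hensels_lemma (p := l) (R := ℤ_[l]) (F := (Polynomial.X ^ 2 - Polynomial.C u))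
    (a := 1) (by
      simp only [map_sub, map_pow, Polynomial.aeval_X, Polynomial.aeval_C, 
        Polynomial.derivative_pow, Polynomial.derivative_X, Polynomial.derivative_C]
      simp only [Algebra.algebraMap_self, RingHom.id_apply, one_pow]
      rw [norm_sub_rev]
      simpa using hu)
  obtain ⟨z, hz1, hz2, -, hz4⟩ := h
  refine ⟨z, ?_, ?_, ?_⟩
  · simp only [map_sub, map_pow, Polynomial.aeval_X, Polynomial.aeval_C] at hz1
    exact sub_eq_zero.mp hz1
  · simpa [one_add_one_eq_two] using hz2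
  · intro z' h1 h2
    refine hz4 z' ?_ ?_
    · simp only [map_sub, map_pow, Polynomial.aeval_X, Polynomial.aeval_C]
      exact sub_eq_zero.mpr h1
    · simpa [one_add_one_eq_two] using h2

theorem norm_two_pos : 0 < ‖(2 : ℤ_[l])‖ := norm_pos_iff.mpr two_ne_zero

theorem norm_two_le : ‖(2 : ℤ_[l])‖ ≤ 1 := PadicInt.norm_le_one _

theorem norm_unit (u : ℤ_[l]ˣ) : ‖(u : ℤ_[l])‖ = 1 := PadicInt.norm_units u

variable (l) in
/-- The subgroup of units congruent to `1` modulo `4l`. -/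
def subU : Subgroup ℤ_[l]ˣ where
  carrier := {u | ‖(u : ℤ_[l]) - 1‖ < ‖(2 : ℤ_[l])‖ ^ 2}
  one_mem' := by
    simp only [Set.mem_ofPred_eq, Units.val_one, sub_self, norm_zero]
    exact pow_pos norm_two_pos 2
  mul_mem' := by
    intro u v hu hv
    simp only [Set.mem_ofPred_eq, Units.val_mul] at *
    have e : (u : ℤ_[l]) * v - 1 = u * (v - 1) + (u - 1) := by ring
    rw [e]
    refine lt_of_le_of_lt (PadicInt.nonarchimedean _ _) ?_
    rw [norm_mul, norm_unit, one_mul]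
    exact max_lt hv hu
  inv_mem' := by
    intro u hu
    simp only [Set.mem_ofPred_eq] at *
    have e : ((u⁻¹ : ℤ_[l]ˣ) : ℤ_[l]) - 1 = (u⁻¹ : ℤ_[l]ˣ) * (1 - u) := by
      rw [mul_sub, mul_one, Units.inv_mul]
    rw [e, norm_mul, norm_unit, one_mul, norm_sub_rev]
    exact hu

theorem mem_subU {u : ℤ_[l]ˣ} : u ∈ subU l ↔ ‖(u : ℤ_[l]) - 1‖ < ‖(2 : ℤ_[l])‖ ^ 2 := Iff.rfl

/-- The square root close to `1`. -/
def sq (u : subU l) : ℤ_[l] := (exists_sqrt _ (mem_subU.mp u.2)).choose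

theorem sq_sq (u : subU l) : sq u ^ 2 = ((u : ℤ_[l]ˣ) : ℤ_[l]) :=
  (exists_sqrt _ (mem_subU.mp u.2)).choose_spec.1

theorem sq_close (u : subU l) : ‖sq u - 1‖ < ‖(2 : ℤ_[l])‖ :=
  (exists_sqrt _ (mem_subU.mp u.2)).choose_spec.2.1

theorem sq_unique (u : subU l) (z : ℤ_[l]) (h1 : z ^ 2 = ((u : ℤ_[l]ˣ) : ℤ_[l]))
    (h2 : ‖z - 1‖ < ‖(2 : ℤ_[l])‖) : z = sq u :=
  (exists_sqrt _ (mem_subU.mp u.2)).choose_spec.2.2 z h1 h2

theorem norm_sq (u : subU l) : ‖sq u‖ = 1 := by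
  have h := congrArg norm (sq_sq u)
  rw [norm_pow, norm_unit] at h
  exact (pow_eq_one_iff_of_nonneg (norm_nonneg _) two_ne_zero).mp h

variable (l) in
/-- The square root homomorphism. -/
def sqHom : subU l →* ℤ_[l] where
  toFun := sq
  map_one' := (sq_unique 1 1 (by simp) (by simp)).symm
  map_mul' u v := by
    refine (sq_unique (u * v) (sq u * sq v) ?_ ?_).symm
    · rw [mul_pow, sq_sq, sq_sq]
      simp
    · have e : sq u * sq v - 1 = sq u * (sq v - 1) + (sq u - 1) := by ring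
      rw [e]
      refine lt_of_le_of_lt (PadicInt.nonarchimedean _ _) ?_
      rw [norm_mul, norm_sq, one_mul]
      exact max_lt (sq_close v) (sq_close u)

variable (l) in
/-- The square root homomorphism with values in units. -/
def sqUnits : subU l →* ℤ_[l]ˣ := (sqHom l).toHomUnits

theorem coe_sqUnits (u : subU l) : ((sqUnits l u : ℤ_[l]ˣ) : ℤ_[l]) = sq u := rfl

theorem norm_sq_sub_one (u : subU l) :
    ‖sq u - 1‖ * ‖(2 : ℤ_[l])‖ = ‖((u : ℤ_[l]ˣ) : ℤ_[l]) - 1‖ := by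
  have h1 : ‖sq u + 1‖ = ‖(2 : ℤ_[l])‖ := by
    have e : sq u + 1 = (sq u - 1) + 2 := by ring
    rw [e, PadicInt.norm_add_eq_max_of_ne (ne_of_lt (sq_close u))]
    exact max_eq_right (sq_close u).le
  rw [← h1, ← norm_mul, ← sq_sq]
  congr 1
  ring

/-! ### Extension to all units -/

/-- Extension of characters into the multiplicative group of an algebraically closed field. -/
theorem exists_extension {G : Type} [CommGroup G] (U : Subgroup G) {K : Type} [Field K]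
    [IsAlgClosed K] (f : U →* Kˣ) : ∃ g : G →* Kˣ, ∀ u : U, g u = f u := by
  classical
  have hroot : ∀ {n : ℕ}, n ≠ 0 → Function.Surjective (fun a : Kˣ => a ^ n) := by
    intro n hn y
    obtain ⟨z, hz⟩ := IsAlgClosed.exists_pow_nat_eq (y : K) (Nat.pos_of_ne_zero hn)
    have hz0 : z ≠ 0 := by
      rintro rfl
      rw [zero_pow hn] at hz
      exact y.ne_zero hz.symm
    exact ⟨Units.mk0 z hz0, Units.ext (by simpa using hz)⟩
  let _ : DivisibleBy (Additive Kˣ) ℕ := by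
    refine divisibleByOfSMulRightSurj (Additive Kˣ) ℕ ?_
    intro n hn y
    obtain ⟨z, hz⟩ := hroot hn (Additive.toMul y)
    exact ⟨Additive.ofMul z, by
      apply Additive.toMul.injective
      simpa using hz⟩
  let _ : DivisibleBy (Additive Kˣ) ℤ := AddGroup.divisibleByIntOfDivisibleByNat _
  obtain ⟨h, hh⟩ := (Module.Baer.of_divisible (Additive Kˣ)).extension_property_addMonoidHom
    (MonoidHom.toAdditive U.subtype) (by
      intro a b hab
      exact Subtype.ext hab) (MonoidHom.toAdditive f)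
  refine ⟨MonoidHom.toAdditive.symm h, fun u => ?_⟩
  have := DFunLike.congr_fun hh (Additive.ofMul u)
  exact congrArg Additive.toMul this

theorem finiteIndex_subU : (subU l).FiniteIndex := by
  have hcont : IsOpen (subU l : Set ℤ_[l]ˣ) := by
    have h1 : Continuous fun u : ℤ_[l]ˣ => ‖(u : ℤ_[l]) - 1‖ :=
      (Units.continuous_val.sub continuous_const).norm
    exact isOpen_lt h1 continuous_const
  have hcompact : CompactSpace ℤ_[l]ˣ := inferInstance
  have := Subgroup.quotient_finite_of_isOpen _ hcont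
  exact Subgroup.finiteIndex_of_finite_quotient

/-- `ℤ_l → ℚ̄_l` on units. -/
def unitsMap (l : ℕ) [Fact l.Prime] : ℤ_[l]ˣ →* (PadicAlgCl l)ˣ :=
  Units.map ((algebraMap ℚ_[l] (PadicAlgCl l)).comp (algebraMap ℤ_[l] ℚ_[l])).toMonoidHom

theorem exists_psi (l : ℕ) [Fact l.Prime] : ∃ ψ : ℤ_[l]ˣ →* (PadicAlgCl l)ˣ,
    Continuous ψ ∧
    (∃ d : ℕ, 0 < d ∧ ∀ u, ψ u ^ (2 * d) = unitsMap l u ^ d) ∧
    ∃ U : Subgroup ℤ_[l]ˣ, U.FiniteIndex ∧ ∀ u ∈ U, ∃ v : ℤ_[l]ˣ, v ^ 2 = u ∧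
      ψ u = unitsMap l v := by
  obtain ⟨ψ, hψ⟩ := exists_extension (subU l) ((unitsMap l).comp (sqUnits l))
  have hsq : ∀ u : subU l, (sqUnits l u) ^ 2 = (u : ℤ_[l]ˣ) := by
    intro u
    apply Units.ext
    rw [Units.val_pow_eq_pow_val, coe_sqUnits, sq_sq]
  refine ⟨ψ, ?_, ?_, subU l, finiteIndex_subU, ?_⟩
  · -- continuity
    refine continuous_of_continuousAt_one ψ ?_
    rw [ContinuousAt, map_one]
    rw [Units.isEmbedding_val₀.tendsto_nhds_iff]
    rw [Metric.tendsto_nhds]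
    intro ε hε
    have h1 : Continuous fun u : ℤ_[l]ˣ => ‖(u : ℤ_[l]) - 1‖ :=
      (Units.continuous_val.sub continuous_const).norm
    have h2 : ∀ᶠ u : ℤ_[l]ˣ in nhds 1, ‖(u : ℤ_[l]) - 1‖ < min (‖(2 : ℤ_[l])‖ ^ 2)
        (ε * ‖(2 : ℤ_[l])‖) := by
      have h3 := h1.tendsto 1
      simp only [Units.val_one, sub_self, norm_zero] at h3
      exact h3.eventually_lt_const (lt_min (pow_pos norm_two_pos 2)
        (mul_pos hε norm_two_pos))
    filter_upwards [h2] with u hu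
    have hu1 : u ∈ subU l := lt_of_lt_of_le hu (min_le_left _ _)
    have hu2 : ‖(u : ℤ_[l]) - 1‖ < ε * ‖(2 : ℤ_[l])‖ := lt_of_lt_of_le hu (min_le_right _ _)
    have h4 := hψ ⟨u, hu1⟩
    simp only at h4
    simp only [Function.comp_apply]
    rw [h4, dist_eq_norm]
    have h5 : ((((unitsMap l).comp (sqUnits l)) ⟨u, hu1⟩ : (PadicAlgCl l)ˣ) : PadicAlgCl l) -
        ((1 : (PadicAlgCl l)ˣ) : PadicAlgCl l) = algebraMap ℚ_[l] (PadicAlgCl l)
          ((sq (⟨u, hu1⟩ : subU l) - 1 : ℤ_[l]) : ℚ_[l]) := by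
      rw [PadicInt.coe_sub, PadicInt.coe_one, map_sub, map_one]
      rfl
    rw [h5, norm_algebraMap']
    have h6 := norm_sq_sub_one (⟨u, hu1⟩ : subU l)
    simp only at h6
    rw [← h6] at hu2
    have h7 := lt_of_mul_lt_mul_right hu2 norm_two_pos.le
    exact h7
  · refine ⟨(subU l).index, Nat.pos_of_ne_zero finiteIndex_subU.index_ne_zero, fun u => ?_⟩
    have h1 : u ^ (subU l).index ∈ subU l := Subgroup.pow_index_mem (subU l) u
    have h2 := hψ ⟨_, h1⟩
    simp only at h2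
    have h3 : ψ u ^ (2 * (subU l).index) = (ψ (u ^ (subU l).index)) ^ 2 := by
      rw [map_pow, ← pow_mul, mul_comm]
    rw [h3, h2, MonoidHom.comp_apply, ← map_pow, hsq, map_pow]
  · intro u hu
    exact ⟨sqUnits l ⟨u, hu⟩, hsq ⟨u, hu⟩, hψ ⟨u, hu⟩⟩

end

end Pool.Agent.Work.MP_395897_nt
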