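import Mathlib

/-!
# Ax's lemma

For an algebraic extension `L` of `ℚ_p` inside `PadicAlgCl p` and `α` algebraic, if all conjugates
`σ α` satisfy `‖σ α - α‖ ≤ r` then there is `a ∈ L` with `‖α - a‖ ≤ p ^ 2 * r`.
-/

open Polynomial

namespace Pool.Agent.Work.MP_395897_nt

section choose

/-- `choose (p^j * m) (p^j) ≡ m` modulo `p`. -/
theorem choose_pow_mul_modEq (p : ℕ) [Fact p.Prime] (j m : ℕ) :
    Nat.choose (p ^ j * m) (p ^ j) ≡ m [MOD p] := by
  have hp : p.Prime := Fact.out
  induction j with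
  | zero => simp [Nat.ModEq]
  | succ j ih =>
    have h := Choose.choose_modEq_choose_mod_mul_choose_div_nat
      (n := p ^ (j + 1) * m) (k := p ^ (j + 1)) (p := p)
    have e1 : p ^ (j + 1) * m % p = 0 := by
      rw [pow_succ', mul_assoc]; exact Nat.mul_mod_right _ _
    have e2 : p ^ (j + 1) % p = 0 := by
      rw [pow_succ']; exact Nat.mul_mod_right _ _
    have e3 : p ^ (j + 1) * m / p = p ^ j * m := by
      rw [pow_succ', mul_assoc]; exact Nat.mul_div_cancel_left _ hp.pos
    have e4 : p ^ (j + 1) / p = p ^ j := by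
      rw [pow_succ']; exact Nat.mul_div_cancel_left _ hp.pos
    rw [e1, e2, e3, e4] at h
    simp only [Nat.choose_self, one_mul] at h
    exact h.trans ih

end choose

section ultra

theorem pow_card_le_multiset_prod (s : Multiset ℝ) (a : ℝ) (ha : 0 ≤ a) (hs : ∀ x ∈ s, a ≤ x) :
    a ^ (Multiset.card s) ≤ s.prod := by
  induction s using Multiset.induction_on with
  | empty => simp
  | cons b s ih =>
    rw [Multiset.card_cons, pow_succ', Multiset.prod_cons]
    have hb : a ≤ b := hs b (Multiset.mem_cons_self b s)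
    exact mul_le_mul hb (ih fun x hx => hs x (Multiset.mem_cons_of_mem hx)) (by positivity)
      (ha.trans hb)

variable {E : Type*} [NormedField E] [IsUltrametricDist E]

/-- Coefficient bound for a product of linear factors with small roots. -/
theorem norm_coeff_prod_le (s : Multiset E) (r : ℝ) (hr : 0 ≤ r) (hs : ∀ b ∈ s, ‖b‖ ≤ r) (i : ℕ)
    (hi : i ≤ Multiset.card s) :
    ‖((s.map (fun b => X - C b)).prod).coeff i‖ ≤ r ^ (Multiset.card s - i) := by
  induction s using Multiset.induction_on generalizing i with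
  | empty =>
    simp only [Multiset.card_zero, nonpos_iff_eq_zero] at hi
    subst hi
    simp
  | cons b s ih =>
    have hs' : ∀ c ∈ s, ‖c‖ ≤ r := fun c hc => hs c (Multiset.mem_cons_of_mem hc)
    have hb : ‖b‖ ≤ r := hs b (Multiset.mem_cons_self b s)
    rw [Multiset.map_cons, Multiset.prod_cons, sub_mul, coeff_sub, coeff_C_mul,
      Multiset.card_cons]
    set f := (s.map (fun b => X - C b)).prod with hf
    have hdeg : f.natDegree = Multiset.card s := by
      rw [hf, natDegree_multiset_prod_X_sub_C_eq_card]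
    have key : ‖b * f.coeff i‖ ≤ r ^ (Multiset.card s + 1 - i) := by
      rcases Nat.lt_or_ge (Multiset.card s) i with h | h
      · have : f.coeff i = 0 := coeff_eq_zero_of_natDegree_lt (by rw [hdeg]; exact h)
        rw [this]
        simp only [mul_zero, norm_zero]
        positivity
      · have h1 := ih hs' i h
        rw [norm_mul, Nat.succ_sub h, pow_succ']
        exact mul_le_mul hb h1 (norm_nonneg _) hr
    have key2 : ‖(X * f).coeff i‖ ≤ r ^ (Multiset.card s + 1 - i) := by
      cases i with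
      | zero =>
        simp only [mul_coeff_zero, coeff_X_zero, zero_mul, norm_zero]
        positivity
      | succ i =>
        rw [coeff_X_mul]
        have h1 := ih hs' i (by rw [Multiset.card_cons] at hi; omega)
        rwa [Nat.add_sub_add_right]
    have hsub : ‖(X * f).coeff i - b * f.coeff i‖ ≤
        max ‖(X * f).coeff i‖ ‖b * f.coeff i‖ := by
      have := IsUltrametricDist.norm_add_le_max ((X * f).coeff i) (-(b * f.coeff i))
      rwa [norm_neg, ← sub_eq_add_neg] at this
    exact hsub.trans (max_le key2 key)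

theorem taylor_prod_X_sub_C {R : Type*} [CommRing R] (a : R) (s : Multiset R) :
    taylor a ((s.map (fun b => X - C b)).prod) = ((s.map (fun b => b - a)).map
      (fun b => X - C b)).prod := by
  induction s using Multiset.induction_on with
  | empty => simp
  | cons b s ih =>
    rw [Multiset.map_cons, Multiset.prod_cons, taylor_mul, ih, Multiset.map_cons, Multiset.map_cons,
      Multiset.prod_cons]
    congr 1
    simp only [map_sub, taylor_X, taylor_C]
    ring

/-- Key step : a root of a Hasse derivative near `α`. -/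
theorem exists_root_hasseDeriv [IsAlgClosed E] [CharZero E] (P : E[X]) (hP : P.Monic)
    (α : E) (r : ℝ) (hr : 0 ≤ r) (hroots : ∀ b ∈ P.roots, ‖b - α‖ ≤ r) (q : ℕ)
    (hq : q < P.natDegree) :
    ∃ β, (hasseDeriv q P).IsRoot β ∧
      ‖α - β‖ ^ (P.natDegree - q) * ‖((P.natDegree.choose q : ℕ) : E)‖ ≤
        r ^ (P.natDegree - q) := by
  classical
  have hsplit : P.Splits := IsAlgClosed.splits P
  have hPprod : P = (P.roots.map (fun b => X - C b)).prod := by
    conv_lhs => rw [hsplit.eq_prod_roots, hP.leadingCoeff, C_1, one_mul]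
  have hcard : Multiset.card P.roots = P.natDegree := by
    exact (splits_iff_card_roots.mp hsplit)
  -- the value of the Hasse derivative at `α`
  have hval : ‖(hasseDeriv q P).eval α‖ ≤ r ^ (P.natDegree - q) := by
    rw [← taylor_coeff]
    have h1 : (taylor α P) = ((P.roots.map (fun b => b - α)).map (fun b => X - C b)).prod := by
      conv_lhs => rw [hPprod]
      rw [taylor_prod_X_sub_C]
    rw [h1]
    have h2 := norm_coeff_prod_le (P.roots.map (fun b => b - α)) r hr (by
      intro b hb
      obtain ⟨c, hc, rfl⟩ := Multiset.mem_map.mp hb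
      exact hroots c hc) q (by rw [Multiset.card_map, hcard]; exact hq.le)
    rwa [Multiset.card_map, hcard] at h2
  have hdeg : (hasseDeriv q P).natDegree = P.natDegree - q := natDegree_hasseDeriv P q
  have hlead : (hasseDeriv q P).leadingCoeff = ((P.natDegree.choose q : ℕ) : E) := by
    rw [leadingCoeff, hdeg, hasseDeriv_coeff, Nat.sub_add_cancel hq.le]
    have : P.coeff P.natDegree = 1 := hP
    rw [this, mul_one]
  have hsplit' : (hasseDeriv q P).Splits := IsAlgClosed.splits _
  have hcard' : Multiset.card (hasseDeriv q P).roots = P.natDegree - q := by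
    rw [splits_iff_card_roots.mp hsplit', hdeg]
  have heval := hsplit'.eval_eq_prod_roots α
  rw [hlead] at heval
  have hchoose : ((P.natDegree.choose q : ℕ) : E) ≠ 0 := by
    exact_mod_cast (Nat.choose_pos hq.le).ne'
  have hne : hasseDeriv q P ≠ 0 := by
    intro h0
    rw [h0, leadingCoeff_zero] at hlead
    exact hchoose hlead.symm
  have hnonempty : ((hasseDeriv q P).roots.toFinset).Nonempty := by
    rw [Multiset.toFinset_nonempty]
    intro h0
    rw [h0, Multiset.card_zero] at hcard'
    omega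
  obtain ⟨β, hβ, hmin⟩ := Finset.exists_min_image _ (fun x => ‖α - x‖) hnonempty
  rw [Multiset.mem_toFinset] at hβ
  refine ⟨β, (mem_roots hne).mp hβ, ?_⟩
  have h3 := pow_card_le_multiset_prod ((hasseDeriv q P).roots.map (fun x => ‖α - x‖)) ‖α - β‖
    (norm_nonneg _) (by
      intro x hx
      obtain ⟨c, hc, rfl⟩ := Multiset.mem_map.mp hx
      exact hmin c (Multiset.mem_toFinset.mpr hc))
  rw [Multiset.card_map, hcard'] at h3
  have h4 : ((hasseDeriv q P).roots.map (fun x => ‖α - x‖)).prod =
      ‖((hasseDeriv q P).roots.map (fun x => α - x)).prod‖ :=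
    Multiset.prod_hom' (hasseDeriv q P).roots (normHom : E →*₀ ℝ) (fun x => α - x)
  calc ‖α - β‖ ^ (P.natDegree - q) * ‖((P.natDegree.choose q : ℕ) : E)‖
      ≤ ((hasseDeriv q P).roots.map (fun x => ‖α - x‖)).prod *
        ‖((P.natDegree.choose q : ℕ) : E)‖ :=
        mul_le_mul_of_nonneg_right h3 (norm_nonneg _)
    _ = ‖(hasseDeriv q P).eval α‖ := by rw [heval, norm_mul, h4, mul_comm]
    _ ≤ _ := hval

end ultra

section padic

variable (p : ℕ) [Fact p.Prime]

theorem norm_algEquiv (L : IntermediateField ℚ_[p] (PadicAlgCl p))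
    (σ : PadicAlgCl p ≃ₐ[L] PadicAlgCl p) (x : PadicAlgCl p) : ‖σ x‖ = ‖x‖ := by
  have := spectralNorm_eq_of_equiv (σ.restrictScalars ℚ_[p]) x
  simpa using this.symm

/-- The constant in Ax's lemma. -/
noncomputable def axC (k : ℕ) : ℝ := (p : ℝ) ^ ((2 : ℝ) - 2 * (1 / 2) ^ k)

theorem axC_succ (k : ℕ) : axC p (k + 1) = axC p k * (p : ℝ) ^ (((1 : ℝ) / 2) ^ k) := by
  have hp : (0 : ℝ) < p := by exact_mod_cast (Fact.out : p.Prime).pos
  unfold axC
  rw [← Real.rpow_add hp]
  congr 1
  rw [pow_succ]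
  ring

theorem axC_mono {k k' : ℕ} (h : k ≤ k') : axC p k ≤ axC p k' := by
  have hp : (1 : ℝ) ≤ p := by exact_mod_cast (Fact.out : p.Prime).one_lt.le
  unfold axC
  apply Real.rpow_le_rpow_of_exponent_le hp
  have : ((1 : ℝ) / 2) ^ k' ≤ (1 / 2) ^ k :=
    pow_le_pow_of_le_one (by norm_num) (by norm_num) h
  linarith

theorem one_le_axC (k : ℕ) : 1 ≤ axC p k := by
  have h := axC_mono p (Nat.zero_le k)
  simpa [axC] using h

theorem axC_le (k : ℕ) : axC p k ≤ (p : ℝ) ^ 2 := by
  have hp : (1 : ℝ) ≤ p := by exact_mod_cast (Fact.out : p.Prime).one_lt.le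
  unfold axC
  have h2 : (p : ℝ) ^ 2 = (p : ℝ) ^ (2 : ℝ) := by
    rw [← Real.rpow_natCast]; norm_num
  rw [h2]
  apply Real.rpow_le_rpow_of_exponent_le hp
  have : 0 ≤ ((1 : ℝ) / 2) ^ k := by positivity
  linarith

theorem norm_natCast_padicAlgCl (m : ℕ) : ‖(m : PadicAlgCl p)‖ = ‖(m : ℚ_[p])‖ := by
  rw [← PadicAlgCl.norm_extends, map_natCast]

/-- The choice of the order of derivation in Ax's lemma. -/
theorem ax_choice (n : ℕ) (hn : 1 < n) : ∃ q : ℕ, 0 < q ∧ q < n ∧ ∃ D : ℝ, 1 ≤ D ∧
    (D ^ (n - q) * ‖((n.choose q : ℕ) : PadicAlgCl p)‖ ≥ 1) ∧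
    axC p (Nat.log p (n - q)) * D ≤ axC p (Nat.log p n) := by
  have hp : p.Prime := Fact.out
  have hp1 : (1 : ℝ) < p := by exact_mod_cast hp.one_lt
  by_cases hpow : ∃ k, n = p ^ k
  · obtain ⟨k, rfl⟩ := hpow
    obtain ⟨k, rfl⟩ : ∃ k', k = k' + 1 := by
      cases k with
      | zero => simp at hn
      | succ k => exact ⟨k, rfl⟩
    have hlt : p ^ k < p ^ (k + 1) := Nat.pow_lt_pow_right hp.one_lt (Nat.lt_succ_self k)
    have hkpos : 0 < p ^ k := pow_pos hp.pos _
    refine ⟨p ^ k, hkpos, hlt, (p : ℝ) ^ (((1 : ℝ) / 2) ^ k), ?_, ?_, ?_⟩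
    · exact Real.one_le_rpow hp1.le (by positivity)
    · have hmult : emultiplicity p ((p ^ (k + 1)).choose (p ^ k)) = 1 := by
        rw [Nat.Prime.emultiplicity_choose_prime_pow hp hlt.le hkpos.ne']
        have : multiplicity p (p ^ k) = k := by
          exact multiplicity_pow_self hp.ne_zero (Nat.prime_iff.mp hp).not_isUnit k
        rw [this]
        simp
      have hdvd : ¬ p ^ 2 ∣ (p ^ (k + 1)).choose (p ^ k) := by
        intro h
        have := le_emultiplicity_of_pow_dvd h
        rw [hmult] at this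
        norm_num at this
      have hnorm : (p : ℝ)⁻¹ ≤ ‖((((p ^ (k + 1)).choose (p ^ k) : ℕ)) : PadicAlgCl p)‖ := by
        rw [norm_natCast_padicAlgCl]
        by_contra hcon
        push Not at hcon
        have h2 : ‖(((((p ^ (k + 1)).choose (p ^ k) : ℕ) : ℤ)) : ℚ_[p])‖ ≤
            (p : ℝ) ^ (-(2 : ℕ) : ℤ) := by
          have h3 := (Padic.norm_lt_pow_iff_norm_le_pow_sub_one
            (((p ^ (k + 1)).choose (p ^ k) : ℕ) : ℚ_[p]) (-1)).mp (by
              simpa using hcon)
          simpa using h3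
        rw [Padic.norm_int_le_pow_iff_dvd] at h2
        exact hdvd (by exact_mod_cast h2)
      have hD : (p : ℝ) ≤ ((p : ℝ) ^ (((1 : ℝ) / 2) ^ k)) ^ (p ^ (k + 1) - p ^ k) := by
        rw [← Real.rpow_natCast, ← Real.rpow_mul (by positivity)]
        conv_lhs => rw [← Real.rpow_one (p : ℝ)]
        apply Real.rpow_le_rpow_of_exponent_le hp1.le
        have h5 : 2 ^ k ≤ p ^ (k + 1) - p ^ k := by
          have : p ^ (k + 1) - p ^ k = p ^ k * (p - 1) := by
            rw [pow_succ, Nat.mul_sub, mul_one]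
          rw [this]
          calc 2 ^ k ≤ p ^ k := Nat.pow_le_pow_left hp.two_le k
            _ ≤ p ^ k * (p - 1) := Nat.le_mul_of_pos_right _ (by have := hp.two_le; omega)
        have h6 : ((2 : ℝ)) ^ k ≤ ((p ^ (k + 1) - p ^ k : ℕ) : ℝ) := by exact_mod_cast h5
        calc (1 : ℝ) = (1 / 2) ^ k * 2 ^ k := by rw [← mul_pow]; norm_num
          _ ≤ _ := mul_le_mul_of_nonneg_left h6 (by positivity)
      have hp0 : (p : ℝ) ≠ 0 := by positivity
      calc _ ≥ (p : ℝ) * (p : ℝ)⁻¹ :=
            mul_le_mul hD hnorm (by positivity) (by positivity)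
        _ = 1 := mul_inv_cancel₀ hp0
    · have h7 : Nat.log p (p ^ (k + 1) - p ^ k) ≤ k := by
        have : Nat.log p (p ^ (k + 1) - p ^ k) < k + 1 :=
          Nat.log_lt_of_lt_pow (by omega) (by omega)
        omega
      rw [Nat.log_pow hp.one_lt, axC_succ]
      exact mul_le_mul_of_nonneg_right (axC_mono p h7) (by positivity)
  · obtain ⟨j, m, hm, hnm⟩ := Nat.exists_eq_pow_mul_and_not_dvd (n := n) (by omega) p hp.ne_one
    have hm1 : 1 < m := by
      rcases Nat.lt_or_ge 1 m with h | h
      · exact h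
      · exfalso
        interval_cases m
        · simp at hm
        · exact hpow ⟨j, by simpa using hnm⟩
    have hjpos : 0 < p ^ j := pow_pos hp.pos _
    refine ⟨p ^ j, hjpos, ?_, 1, le_rfl, ?_, ?_⟩
    · rw [hnm]; exact lt_mul_of_one_lt_right hjpos hm1
    · rw [one_pow, one_mul, norm_natCast_padicAlgCl]
      have hmod := choose_pow_mul_modEq p j m
      have h8 : ¬ p ∣ n.choose (p ^ j) := by
        rw [hnm]
        intro h
        exact hm ((Nat.modEq_zero_iff_dvd.mp (hmod.symm.trans (Nat.modEq_zero_iff_dvd.mpr h))))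
      have h9 : ‖((n.choose (p ^ j) : ℕ) : ℚ_[p])‖ = 1 := by
        rw [Padic.norm_natCast_eq_one_iff]
        exact (Nat.Prime.coprime_iff_not_dvd hp).mpr h8
      exact h9.ge
    · rw [mul_one]
      exact axC_mono p (Nat.log_mono_right (Nat.sub_le _ _))

/-- Ax's lemma, inductive form. -/
theorem ax_aux (L : IntermediateField ℚ_[p] (PadicAlgCl p)) (n : ℕ) :
    ∀ α : PadicAlgCl p, (minpoly L α).natDegree = n → ∀ r : ℝ, 0 ≤ r →
      (∀ σ : PadicAlgCl p ≃ₐ[L] PadicAlgCl p, ‖σ α - α‖ ≤ r) →
      ∃ a : PadicAlgCl p, a ∈ L ∧ ‖α - a‖ ≤ axC p (Nat.log p n) * r := by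
  have hp : p.Prime := Fact.out
  induction n using Nat.strong_induction_on with
  | _ n ih =>
  intro α hn r hr hσ
  have halg : Algebra.IsAlgebraic L (PadicAlgCl p) := inferInstance
  have hint : IsIntegral L α := (halg.isAlgebraic α).isIntegral
  have hnpos : 0 < n := hn ▸ minpoly.natDegree_pos hint
  rcases Nat.lt_or_ge 1 n with h1 | h1
  swap
  · -- degree one
    have hn1 : n = 1 := by omega
    have : α ∈ (algebraMap L (PadicAlgCl p)).range := by
      rw [← minpoly.natDegree_eq_one_iff]
      omega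
    obtain ⟨a, rfl⟩ := this
    refine ⟨_, a.2, ?_⟩
    have : algebraMap L (PadicAlgCl p) a - (a : PadicAlgCl p) = 0 := by
      simp [IntermediateField.algebraMap_apply]
    rw [this, norm_zero]
    have := one_le_axC p (Nat.log p n)
    positivity
  · -- choose `q`
    obtain ⟨q, hq0, hqn, D, hD1, hDchoose, hDC⟩ : ∃ q : ℕ, 0 < q ∧ q < n ∧ ∃ D : ℝ, 1 ≤ D ∧
        (D ^ (n - q) * ‖((n.choose q : ℕ) : PadicAlgCl p)‖ ≥ 1) ∧
        axC p (Nat.log p (n - q)) * D ≤ axC p (Nat.log p n) := ax_choice p n h1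
    set P := (minpoly L α).map (algebraMap L (PadicAlgCl p)) with hP
    have hPm : P.Monic := (minpoly.monic hint).map _
    have hPdeg : P.natDegree = n := by rw [hP, natDegree_map, hn]
    obtain ⟨β, hβ, hβ2⟩ := exists_root_hasseDeriv P hPm α r hr (by
      intro b hb
      have hb' : aeval b (minpoly L α) = 0 := by
        have := (mem_roots hPm.ne_zero).mp hb
        rw [IsRoot.def, hP, eval_map] at this
        simpa [aeval_def] using this
      obtain ⟨σ, rfl⟩ := minpoly.exists_algEquiv_of_root' (halg.isAlgebraic α) hb'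
      exact hσ σ) q (by rw [hPdeg]; exact hqn)
    rw [hPdeg] at hβ2
    have hαβ : ‖α - β‖ ≤ D * r := by
      have h1 : ‖α - β‖ ^ (n - q) ≤ (D * r) ^ (n - q) := by
        rw [mul_pow]
        have hc : 0 ≤ ‖((n.choose q : ℕ) : PadicAlgCl p)‖ := norm_nonneg _
        calc ‖α - β‖ ^ (n - q) ≤ ‖α - β‖ ^ (n - q) *
              (D ^ (n - q) * ‖((n.choose q : ℕ) : PadicAlgCl p)‖) :=
              le_mul_of_one_le_right (by positivity) hDchoose
          _ = D ^ (n - q) * (‖α - β‖ ^ (n - q) * ‖((n.choose q : ℕ) : PadicAlgCl p)‖) := by ring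
          _ ≤ _ := mul_le_mul_of_nonneg_left hβ2 (by positivity)
      exact le_of_pow_le_pow_left₀ (by omega) (by positivity) h1
    -- degree of β
    have hdegβ : (minpoly L β).natDegree ≤ n - q := by
      have hdvd : minpoly L β ∣ hasseDeriv q (minpoly L α) := by
        apply minpoly.dvd
        rw [IsRoot.def, hP] at hβ
        have : (hasseDeriv q) (Polynomial.map (algebraMap L (PadicAlgCl p)) (minpoly L α)) =
            ((hasseDeriv q) (minpoly L α)).map (algebraMap L (PadicAlgCl p)) := by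
          ext i
          simp [hasseDeriv_coeff]
        rw [this, eval_map] at hβ
        simpa [aeval_def] using hβ
      have hne : hasseDeriv q (minpoly L α) ≠ 0 := by
        intro h0
        have h1 : (hasseDeriv q (minpoly L α)).coeff (n - q) = ((n.choose q : ℕ) : L) := by
          rw [hasseDeriv_coeff, Nat.sub_add_cancel hqn.le]
          have : (minpoly L α).coeff n = 1 := by
            rw [← hn]; exact (minpoly.monic hint)
          rw [this, mul_one]
        rw [h0, coeff_zero] at h1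
        have : ((n.choose q : ℕ) : L) ≠ 0 := by exact_mod_cast (Nat.choose_pos hqn.le).ne'
        exact this h1.symm
      calc (minpoly L β).natDegree ≤ (hasseDeriv q (minpoly L α)).natDegree :=
            natDegree_le_of_dvd hdvd hne
        _ ≤ (minpoly L α).natDegree - q := natDegree_hasseDeriv_le _ _
        _ = n - q := by rw [hn]
    have hσβ : ∀ σ : PadicAlgCl p ≃ₐ[L] PadicAlgCl p, ‖σ β - β‖ ≤ D * r := by
      intro σ
      have e : σ β - β = σ (β - α) + ((σ α - α) + (α - β)) := by
        rw [map_sub]; ring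
      rw [e]
      refine (IsUltrametricDist.norm_add_le_max _ _).trans (max_le ?_
        ((IsUltrametricDist.norm_add_le_max _ _).trans (max_le ?_ hαβ)))
      · rw [norm_algEquiv, norm_sub_rev]; exact hαβ
      · exact (hσ σ).trans (le_mul_of_one_le_left hr hD1)
    obtain ⟨a, haL, ha⟩ := ih _ (lt_of_le_of_lt hdegβ (by omega)) β rfl (D * r) (by positivity) hσβ
    refine ⟨a, haL, ?_⟩
    have hlog : axC p (Nat.log p (minpoly L β).natDegree) ≤ axC p (Nat.log p (n - q)) :=
      axC_mono p (Nat.log_mono_right hdegβ)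
    have hfin : axC p (Nat.log p (minpoly L β).natDegree) * (D * r) ≤ axC p (Nat.log p n) * r := by
      calc axC p (Nat.log p (minpoly L β).natDegree) * (D * r)
          ≤ axC p (Nat.log p (n - q)) * (D * r) :=
            mul_le_mul_of_nonneg_right hlog (by positivity)
        _ = axC p (Nat.log p (n - q)) * D * r := by ring
        _ ≤ _ := mul_le_mul_of_nonneg_right hDC hr
    have e : α - a = (α - β) + (β - a) := by ring
    rw [e]
    refine (IsUltrametricDist.norm_add_le_max _ _).trans (max_le ?_ (ha.trans hfin))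
    refine hαβ.trans (le_trans ?_ hfin)
    exact le_mul_of_one_le_left (by positivity) (one_le_axC p _)

/-- **Ax's lemma**. -/
theorem ax_lemma (L : IntermediateField ℚ_[p] (PadicAlgCl p)) (α : PadicAlgCl p) (r : ℝ)
    (hr : 0 ≤ r) (hσ : ∀ σ : PadicAlgCl p ≃ₐ[L] PadicAlgCl p, ‖σ α - α‖ ≤ r) :
    ∃ a : PadicAlgCl p, a ∈ L ∧ ‖α - a‖ ≤ (p : ℝ) ^ 2 * r := by
  obtain ⟨a, haL, ha⟩ := ax_aux p L _ α rfl r hr hσ
  exact ⟨a, haL, ha.trans (mul_le_mul_of_nonneg_right (axC_le p _) hr)⟩

end padic

end Pool.Agent.Work.MP_395897_nt
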