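import Mathlib
import Pool.Agent.Work.MP_395897_nt.Ax
import Pool.Agent.Work.MP_395897_nt.GalAct

/-!
# The cyclotomic tower over `ℚ_p`: norms and normalised traces
-/

open Polynomial

namespace Pool.Agent.Work.MP_395897_nt

variable {p : ℕ} [Fact p.Prime]

theorem primitiveRoot_pow_inj {F : Type*} [Field F] {ζ : F} {k : ℕ} (hk : 0 < k)
    (h : IsPrimitiveRoot ζ k) {a b : ℕ} : ζ ^ a = ζ ^ b ↔ a ≡ b [MOD k] := by
  have hζ : ζ ≠ 0 := h.ne_zero hk.ne'
  have key : ∀ {a b : ℕ}, a ≤ b → (ζ ^ a = ζ ^ b ↔ a ≡ b [MOD k]) := by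
    intro a b hab
    obtain ⟨c, rfl⟩ := Nat.exists_eq_add_of_le hab
    rw [pow_add, left_eq_mul₀ (pow_ne_zero _ hζ), h.pow_eq_one_iff_dvd, Nat.modEq_iff_dvd' hab,
      Nat.add_sub_cancel_left]
  rcases le_total a b with hab | hab
  · exact key hab
  · rw [eq_comm, key hab, Nat.ModEq, Nat.ModEq, eq_comm]

section generic

variable {E : Type*} [NormedField E] [IsUltrametricDist E]

theorem us_norm_sub_le (x y : E) : ‖x - y‖ ≤ max ‖x‖ ‖y‖ := by
  rw [sub_eq_add_neg]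
  simpa using IsUltrametricDist.norm_add_le_max x (-y)

theorem norm_geom_sum_le_one {x : E} (hx : ‖x‖ ≤ 1) (n : ℕ) :
    ‖∑ i ∈ Finset.range n, x ^ i‖ ≤ 1 := by
  refine IsUltrametricDist.norm_sum_le_of_forall_le_of_nonneg zero_le_one fun i _ => ?_
  rw [norm_pow]
  exact pow_le_one₀ (norm_nonneg _) hx

theorem norm_pow_sub_one_le {x : E} (hx : ‖x‖ ≤ 1) (n : ℕ) : ‖x ^ n - 1‖ ≤ ‖x - 1‖ := by
  rw [← geom_sum_mul, norm_mul]
  exact mul_le_of_le_one_left (norm_nonneg _) (norm_geom_sum_le_one hx n)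

omit [IsUltrametricDist E] in
theorem norm_root_of_unity {x : E} {n : ℕ} (hn : n ≠ 0) (hx : x ^ n = 1) : ‖x‖ = 1 :=
  (isOfFinOrder_iff_pow_eq_one.2 ⟨n, Nat.pos_of_ne_zero hn, hx⟩).norm_eq_one

theorem norm_primitiveRoot_sub_one_eq {k : ℕ} (hk : 0 < k) {x y : E} (hx : IsPrimitiveRoot x k)
    (hy : IsPrimitiveRoot y k) : ‖x - 1‖ = ‖y - 1‖ := by
  have key : ∀ {x y : E}, IsPrimitiveRoot x k → IsPrimitiveRoot y k → ‖x - 1‖ ≤ ‖y - 1‖ := by
    intro x y hx hy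
    have : NeZero k := ⟨hk.ne'⟩
    obtain ⟨i, _, hi⟩ := hy.eq_pow_of_pow_eq_one hx.pow_eq_one
    rw [← hi]
    exact norm_pow_sub_one_le (norm_root_of_unity hk.ne' hy.pow_eq_one).le i
  exact le_antisymm (key hx hy) (key hy hx)

end generic

theorem norm_p_padicAlgCl : ‖(p : PadicAlgCl p)‖ = (p : ℝ)⁻¹ := by
  rw [norm_natCast_padicAlgCl, Padic.norm_p]

theorem norm_sub_one_pow {n : ℕ} {ζ : PadicAlgCl p} (h : IsPrimitiveRoot ζ (p ^ (n + 1))) :
    ‖ζ - 1‖ ^ (p ^ n * (p - 1)) = (p : ℝ)⁻¹ := by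
  have hp : p.Prime := Fact.out
  have h1 : eval 1 (cyclotomic (p ^ (n + 1)) (PadicAlgCl p)) = p := eval_one_cyclotomic_prime_pow n
  rw [cyclotomic_eq_prod_X_sub_primitiveRoots h, eval_prod] at h1
  have h2 := congrArg norm h1
  rw [norm_prod, norm_p_padicAlgCl] at h2
  rw [← h2]
  have h3 : ∀ μ ∈ primitiveRoots (p ^ (n + 1)) (PadicAlgCl p),
      ‖eval 1 (X - C μ)‖ = ‖ζ - 1‖ := by
    intro μ hμ
    have hμ' := isPrimitiveRoot_of_mem_primitiveRoots hμ
    rw [eval_sub, eval_X, eval_C, norm_sub_rev]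
    exact norm_primitiveRoot_sub_one_eq (pow_pos hp.pos _) hμ' h
  rw [Finset.prod_congr rfl h3, Finset.prod_const, h.card_primitiveRoots,
    Nat.totient_prime_pow_succ hp]

/-- the ramification degree of the `n+1`-st layer -/
abbrev ram (p n : ℕ) : ℕ := p ^ n * (p - 1)

theorem ram_pos (n : ℕ) : 0 < ram p n := by
  have hp : p.Prime := Fact.out
  have := hp.two_le
  exact Nat.mul_pos (pow_pos hp.pos _) (by omega)

theorem norm_sub_one_pos {n : ℕ} {ζ : PadicAlgCl p} (h : IsPrimitiveRoot ζ (p ^ (n + 1))) :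
    0 < ‖ζ - 1‖ := by
  by_contra hcon
  have h0 : ‖ζ - 1‖ = 0 := le_antisymm (not_lt.mp hcon) (norm_nonneg _)
  have h1 := norm_sub_one_pow h
  rw [h0, zero_pow (ram_pos n).ne'] at h1
  have hp : (0 : ℝ) < (p : ℝ)⁻¹ := by
    have : (0 : ℝ) < p := by exact_mod_cast (Fact.out : p.Prime).pos
    positivity
  linarith

theorem norm_sub_one_lt_one {n : ℕ} {ζ : PadicAlgCl p} (h : IsPrimitiveRoot ζ (p ^ (n + 1))) :
    ‖ζ - 1‖ < 1 := by
  by_contra hcon
  have h1 := norm_sub_one_pow h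
  have h2 : 1 ≤ ‖ζ - 1‖ ^ (p ^ n * (p - 1)) := one_le_pow₀ (not_lt.mp hcon)
  rw [h1] at h2
  have hp : (1 : ℝ) < p := by exact_mod_cast (Fact.out : p.Prime).one_lt
  have := inv_lt_one_of_one_lt₀ hp
  linarith

/-- For `c : ℕ → ℚ_p`, each term of `∑_{j<f} c_j π^j` is bounded by the norm of the sum. -/
theorem norm_term_le {n : ℕ} {ζ : PadicAlgCl p} (h : IsPrimitiveRoot ζ (p ^ (n + 1)))
    (c : ℕ → ℚ_[p]) :
    ∀ j < ram p n, ‖c j‖ * ‖ζ - 1‖ ^ j ≤
      ‖∑ i ∈ Finset.range (ram p n), algebraMap ℚ_[p] (PadicAlgCl p) (c i) * (ζ - 1) ^ i‖ := by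
  classical
  intro j hj
  have hp0 : (0 : ℝ) < p := by exact_mod_cast (Fact.out : p.Prime).pos
  have hp1 : (1 : ℝ) < p := by exact_mod_cast (Fact.out : p.Prime).one_lt
  have hπ := norm_sub_one_pow h
  have hπ0 := norm_sub_one_pos h
  have hnorm : ∀ i, ‖algebraMap ℚ_[p] (PadicAlgCl p) (c i) * (ζ - 1) ^ i‖ =
      ‖c i‖ * ‖ζ - 1‖ ^ i := by
    intro i
    rw [norm_mul, norm_pow]
    congr 1
    exact PadicAlgCl.norm_extends p (c i)
  set s := (Finset.range (ram p n)).filter (fun i => c i ≠ 0) with hs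
  have hsum : ∑ i ∈ Finset.range (ram p n), algebraMap ℚ_[p] (PadicAlgCl p) (c i) * (ζ - 1) ^ i =
      ∑ i ∈ s, algebraMap ℚ_[p] (PadicAlgCl p) (c i) * (ζ - 1) ^ i := by
    rw [hs, Finset.sum_filter_of_ne]
    intro i _ hi hc
    apply hi
    rw [hc, map_zero, zero_mul]
  rw [hsum]
  by_cases hcj : c j = 0
  · rw [hcj, norm_zero, zero_mul]
    exact norm_nonneg _
  have hjs : j ∈ s := by
    rw [hs, Finset.mem_filter, Finset.mem_range]
    exact ⟨hj, hcj⟩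
  have hpair : Set.Pairwise (s : Set ℕ) (fun i j ↦
      ‖algebraMap ℚ_[p] (PadicAlgCl p) (c i) * (ζ - 1) ^ i‖₊ ≠
      ‖algebraMap ℚ_[p] (PadicAlgCl p) (c j) * (ζ - 1) ^ j‖₊) := by
    intro i hi k hk hik heq
    have hi' := Finset.mem_filter.mp (Finset.mem_coe.mp hi)
    have hk' := Finset.mem_filter.mp (Finset.mem_coe.mp hk)
    have heq' := congrArg (fun x : NNReal => (x : ℝ)) heq
    simp only [coe_nnnorm] at heq'
    rw [hnorm, hnorm] at heq'
    have h1 := congrArg (fun x : ℝ => x ^ (ram p n)) heq'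
    have e1 : ∀ i : ℕ, (‖ζ - 1‖ ^ i) ^ (ram p n) = ((p : ℝ)⁻¹) ^ i := by
      intro i
      rw [← pow_mul, mul_comm, pow_mul, hπ]
    simp only [mul_pow, e1] at h1
    rw [Padic.norm_eq_zpow_neg_valuation hi'.2, Padic.norm_eq_zpow_neg_valuation hk'.2] at h1
    generalize ram p n = f at *
    have h2 : ((p : ℝ) ^ (-(c i).valuation * (f : ℤ) - i)) =
        ((p : ℝ) ^ (-(c k).valuation * (f : ℤ) - k)) := by
      rw [zpow_sub₀ hp0.ne', zpow_sub₀ hp0.ne', zpow_mul, zpow_mul, zpow_natCast, zpow_natCast,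
        zpow_natCast, zpow_natCast]
      simpa [div_eq_mul_inv, inv_pow] using h1
    have h3 := zpow_right_injective₀ hp0 hp1.ne' h2
    have hi2 := Finset.mem_range.mp hi'.1
    have hk2 := Finset.mem_range.mp hk'.1
    have hmod : ((i : ℤ)) % (f : ℤ) = (k : ℤ) % (f : ℤ) := by
      have : (i : ℤ) = k + (f : ℤ) * ((c k).valuation - (c i).valuation) := by
        linear_combination -h3
      rw [this, Int.add_mul_emod_self_left]
    rw [Int.emod_eq_of_lt (by positivity) (by exact_mod_cast hi2),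
      Int.emod_eq_of_lt (by positivity) (by exact_mod_cast hk2)] at hmod
    exact hik (by exact_mod_cast hmod)
  have h5 := IsUltrametricDist.nnnorm_sum_eq_sup_of_pairwise_ne hpair
  have h6 : ‖algebraMap ℚ_[p] (PadicAlgCl p) (c j) * (ζ - 1) ^ j‖₊ ≤
      ‖∑ i ∈ s, algebraMap ℚ_[p] (PadicAlgCl p) (c i) * (ζ - 1) ^ i‖₊ := by
    rw [h5]
    exact Finset.le_sup (f := fun i => ‖algebraMap ℚ_[p] (PadicAlgCl p) (c i) * (ζ - 1) ^ i‖₊) hjs
  have h7 : ‖algebraMap ℚ_[p] (PadicAlgCl p) (c j) * (ζ - 1) ^ j‖ ≤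
      ‖∑ i ∈ s, algebraMap ℚ_[p] (PadicAlgCl p) (c i) * (ζ - 1) ^ i‖ := by exact_mod_cast h6
  rwa [hnorm] at h7

/-- The cyclotomic polynomial is the minimal polynomial over `ℚ_p`. -/
theorem minpoly_primitiveRoot {n : ℕ} {ζ : PadicAlgCl p} (h : IsPrimitiveRoot ζ (p ^ (n + 1))) :
    minpoly ℚ_[p] ζ = cyclotomic (p ^ (n + 1)) ℚ_[p] := by
  have hp : p.Prime := Fact.out
  have hint : IsIntegral ℚ_[p] ζ := (Algebra.IsAlgebraic.isAlgebraic ζ).isIntegral
  have hroot : aeval ζ (cyclotomic (p ^ (n + 1)) ℚ_[p]) = 0 := by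
    have : NeZero ((p ^ (n + 1) : ℕ) : PadicAlgCl p) :=
      ⟨by exact_mod_cast (pow_pos hp.pos _).ne'⟩
    have h1 := (isRoot_cyclotomic_iff (n := p ^ (n + 1)) (R := PadicAlgCl p) (μ := ζ)).mpr h
    rw [IsRoot.def, ← map_cyclotomic (p ^ (n + 1)) (algebraMap ℚ_[p] (PadicAlgCl p)),
      eval_map] at h1
    simpa [aeval_def] using h1
  have hdvd := minpoly.dvd ℚ_[p] ζ hroot
  have hmonic : (cyclotomic (p ^ (n + 1)) ℚ_[p]).Monic := cyclotomic.monic _ _
  -- degree of the minimal polynomial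
  have hdegle : (minpoly ℚ_[p] ζ).natDegree ≤ (cyclotomic (p ^ (n + 1)) ℚ_[p]).natDegree :=
    natDegree_le_of_dvd hdvd hmonic.ne_zero
  have hdegc : (cyclotomic (p ^ (n + 1)) ℚ_[p]).natDegree = ram p n := by
    rw [natDegree_cyclotomic, Nat.totient_prime_pow_succ hp]
  have hdegge : ram p n ≤ (minpoly ℚ_[p] ζ).natDegree := by
    by_contra hcon
    push Not at hcon
    set d := (minpoly ℚ_[p] ζ).natDegree with hd
    -- the polynomial `g(X) = minpoly(X+1)`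
    set g := (minpoly ℚ_[p] ζ).comp (X + C 1) with hg
    have hgdeg : g.natDegree = d := by
      rw [hg, natDegree_comp, natDegree_X_add_C, mul_one]
    have hgm : g.Monic := (minpoly.monic hint).comp_X_add_C 1
    have hg0 : aeval (ζ - 1) g = 0 := by
      rw [hg, aeval_comp]
      simp
    have h2 := norm_term_le h (fun i => g.coeff i) d hcon
    have h3 : ∑ i ∈ Finset.range (ram p n), algebraMap ℚ_[p] (PadicAlgCl p) (g.coeff i) *
        (ζ - 1) ^ i = 0 := by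
      rw [← hg0, aeval_eq_sum_range' (n := ram p n) (by rw [hgdeg]; exact hcon)]
      refine Finset.sum_congr rfl fun i _ => ?_
      rw [Algebra.smul_def]
    rw [h3, norm_zero] at h2
    have h4 : g.coeff d = 1 := by rw [← hgdeg]; exact hgm
    rw [h4, norm_one, one_mul] at h2
    have h5 : 0 < ‖ζ - 1‖ ^ d := pow_pos (norm_sub_one_pos h) d
    linarith
  symm
  exact eq_of_monic_of_dvd_of_natDegree_le (minpoly.monic hint) hmonic hdvd (by rw [hdegc]; exact hdegge)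

/-- The normalised trace `ℚ̄_p → ℚ_p`. -/
noncomputable abbrev R0 (p : ℕ) [Fact p.Prime] : PadicAlgCl p →ₗ[ℚ_[p]] ℚ_[p] :=
  Algebra.normalizedTrace ℚ_[p] (PadicAlgCl p)

theorem R0_gal (σ : GalQp p) (x : PadicAlgCl p) : R0 p (σ x) = R0 p x :=
  Algebra.normalizedTrace_map ℚ_[p] (PadicAlgCl p) (σ : PadicAlgCl p →ₐ[ℚ_[p]] PadicAlgCl p) x

theorem R0_one : R0 p 1 = 1 := by
  have := Algebra.normalizedTrace_algebraMap_apply_eq_self ℚ_[p] (PadicAlgCl p) 1
  rwa [map_one] at this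

theorem norm_R0_primitiveRoot {n : ℕ} {ζ : PadicAlgCl p} (h : IsPrimitiveRoot ζ (p ^ (n + 1))) :
    ‖R0 p ζ‖ ≤ 1 := by
  have hp : p.Prime := Fact.out
  rw [R0, Algebra.normalizedTrace_minpoly, minpoly_primitiveRoot h]
  have hdeg : (cyclotomic (p ^ (n + 1)) ℚ_[p]).natDegree = ram p n := by
    rw [natDegree_cyclotomic, Nat.totient_prime_pow_succ hp]
  have hnext : (cyclotomic (p ^ (n + 1)) ℚ_[p]).nextCoeff =
      (cyclotomic (p ^ (n + 1)) ℚ_[p]).coeff (ram p n - 1) := by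
    rw [nextCoeff_of_natDegree_pos (by rw [hdeg]; exact ram_pos n), hdeg]
  have hcoeff : ∀ k, (cyclotomic (p ^ (n + 1)) ℚ_[p]).coeff k =
      ∑ i ∈ Finset.range p, if k = p ^ n * i then (1 : ℚ_[p]) else 0 := by
    intro k
    rw [cyclotomic_prime_pow_eq_geom_sum hp, finsetSum_coeff]
    refine Finset.sum_congr rfl fun i _ => ?_
    rw [← pow_mul, coeff_X_pow]
  rw [hnext, hdeg, hcoeff]
  cases n with
  | zero =>
    have h1 : ‖((ram p 0 : ℕ) : ℚ_[p])‖ = 1 := by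
      rw [Padic.norm_natCast_eq_one_iff]
      have : ram p 0 = p - 1 := by simp [ram]
      rw [this]
      exact (Nat.coprime_self_sub_right hp.one_lt.le).mpr (Nat.coprime_one_right p)
    have h2 : ‖∑ i ∈ Finset.range p, if ram p 0 - 1 = p ^ 0 * i then (1 : ℚ_[p]) else 0‖ ≤ 1 := by
      refine IsUltrametricDist.norm_sum_le_of_forall_le_of_nonneg zero_le_one fun i _ => ?_
      split_ifs <;> simp
    rw [smul_eq_mul, norm_mul, norm_inv, h1, inv_one, one_mul, norm_neg]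
    exact h2
  | succ n =>
    have h2 : ∑ i ∈ Finset.range p, (if ram p (n + 1) - 1 = p ^ (n + 1) * i then (1 : ℚ_[p])
        else 0) = 0 := by
      refine Finset.sum_eq_zero fun i _ => ?_
      rw [if_neg]
      intro hi
      have h3 : ram p (n + 1) = p ^ (n + 1) * i + 1 := by
        have := ram_pos (p := p) (n + 1)
        omega
      have h4 : p ∣ ram p (n + 1) := by
        rw [ram, pow_succ', mul_assoc]; exact Dvd.intro _ rfl
      have h5 : p ∣ p ^ (n + 1) * i := by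
        rw [pow_succ', mul_assoc]; exact Dvd.intro _ rfl
      rw [h3] at h4
      have h6 : p ∣ 1 := (Nat.dvd_add_right h5).mp h4
      exact hp.one_lt.ne' (Nat.dvd_one.mp h6)
    rw [h2]
    simp

theorem norm_R0_pow {n : ℕ} {ζ : PadicAlgCl p} (h : IsPrimitiveRoot ζ (p ^ (n + 1))) (i : ℕ) :
    ‖R0 p (ζ ^ i)‖ ≤ 1 := by
  have hp : p.Prime := Fact.out
  have h1 : (ζ ^ i) ^ (p ^ (n + 1)) = 1 := by
    rw [← pow_mul, mul_comm, pow_mul, h.pow_eq_one, one_pow]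
  obtain ⟨k, hk, hk2⟩ := (Nat.dvd_prime_pow hp).mp (orderOf_dvd_of_pow_eq_one h1)
  cases k with
  | zero =>
    rw [pow_zero, orderOf_eq_one_iff] at hk2
    rw [hk2, R0_one, norm_one]
  | succ k =>
    have := IsPrimitiveRoot.orderOf (ζ ^ i)
    rw [hk2] at this
    exact norm_R0_primitiveRoot this

theorem norm_R0_aeval_int {n : ℕ} {ζ : PadicAlgCl p} (h : IsPrimitiveRoot ζ (p ^ (n + 1)))
    (g : ℤ[X]) : ‖R0 p (aeval ζ g)‖ ≤ 1 := by
  rw [aeval_eq_sum_range, map_sum]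
  refine IsUltrametricDist.norm_sum_le_of_forall_le_of_nonneg zero_le_one fun i _ => ?_
  rw [map_zsmul, zsmul_eq_mul, norm_mul]
  exact mul_le_one₀ (Padic.norm_int_le_one _) (norm_nonneg _) (norm_R0_pow h i)

theorem norm_R0_pi_pow {n : ℕ} {ζ : PadicAlgCl p} (h : IsPrimitiveRoot ζ (p ^ (n + 1))) (j : ℕ) :
    ‖R0 p ((ζ - 1) ^ j)‖ ≤ 1 := by
  have := norm_R0_aeval_int h ((X - 1) ^ j)
  simpa using this

open IntermediateField in
/-- The normalised trace is bounded on the cyclotomic tower. -/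
theorem norm_R0_le {n : ℕ} {ζ : PadicAlgCl p} (h : IsPrimitiveRoot ζ (p ^ (n + 1)))
    {x : PadicAlgCl p} (hx : x ∈ ℚ_[p]⟮ζ⟯) : ‖R0 p x‖ ≤ p * ‖x‖ := by
  have hp : p.Prime := Fact.out
  have hp0 : (0 : ℝ) < p := by exact_mod_cast (Fact.out : p.Prime).pos
  have hint : IsIntegral ℚ_[p] ζ := (Algebra.IsAlgebraic.isAlgebraic ζ).isIntegral
  have hx' : x ∈ (ℚ_[p]⟮ζ⟯).toSubalgebra := hx
  rw [adjoin_simple_toSubalgebra_of_isAlgebraic hint.isAlgebraic, Algebra.adjoin_singleton_eq_range_aeval] at hx'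
  obtain ⟨g0, hg0⟩ := hx'
  set Φ := minpoly ℚ_[p] ζ with hΦ
  have hΦm : Φ.Monic := minpoly.monic hint
  have hΦdeg : Φ.natDegree = ram p n := by
    rw [hΦ, minpoly_primitiveRoot h, natDegree_cyclotomic, Nat.totient_prime_pow_succ hp]
  set g1 := g0 %ₘ Φ with hg1
  have hg1x : aeval ζ g1 = x := by
    rw [hg1, aeval_modByMonic_eq_self_of_root (minpoly.aeval _ _)]
    exact hg0
  have hg1deg : g1.natDegree < ram p n := by
    rw [← hΦdeg]
    exact natDegree_modByMonic_lt g0 hΦm (minpoly.ne_one _ _)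
  set g := g1.comp (X + C 1) with hg
  have hgdeg : g.natDegree < ram p n := by
    rw [hg, natDegree_comp, natDegree_X_add_C, mul_one]
    exact hg1deg
  have hgx : aeval (ζ - 1) g = x := by
    rw [hg, aeval_comp]
    simpa using hg1x
  have hsum : x = ∑ i ∈ Finset.range (ram p n), algebraMap ℚ_[p] (PadicAlgCl p) (g.coeff i) *
      (ζ - 1) ^ i := by
    rw [← hgx, aeval_eq_sum_range' hgdeg]
    refine Finset.sum_congr rfl fun i _ => ?_
    rw [Algebra.smul_def]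
  have hterm := norm_term_le h (fun i => g.coeff i)
  rw [← hsum] at hterm
  have hπ := norm_sub_one_pow h
  have hπ0 := norm_sub_one_pos h
  have hπ1 := norm_sub_one_lt_one h
  have hR : R0 p x = ∑ i ∈ Finset.range (ram p n), g.coeff i * R0 p ((ζ - 1) ^ i) := by
    conv_lhs => rw [hsum]
    rw [map_sum]
    refine Finset.sum_congr rfl fun i _ => ?_
    rw [← Algebra.smul_def, map_smul, smul_eq_mul]
  rw [hR]
  refine IsUltrametricDist.norm_sum_le_of_forall_le_of_nonneg (by positivity) fun i hi => ?_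
  have hi' := Finset.mem_range.mp hi
  have h1 := hterm i hi'
  have h2 : (p : ℝ)⁻¹ ≤ ‖ζ - 1‖ ^ i := by
    rw [← hπ]
    exact pow_le_pow_of_le_one hπ0.le hπ1.le hi'.le
  rw [norm_mul]
  calc ‖g.coeff i‖ * ‖R0 p ((ζ - 1) ^ i)‖ ≤ ‖g.coeff i‖ * 1 :=
        mul_le_mul_of_nonneg_left (norm_R0_pi_pow h i) (norm_nonneg _)
    _ = p * (‖g.coeff i‖ * (p : ℝ)⁻¹) := by field_simp
    _ ≤ p * (‖g.coeff i‖ * ‖ζ - 1‖ ^ i) := by gcongr
    _ ≤ p * ‖x‖ := by gcongr

end Pool.Agent.Work.MP_395897_nt
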