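import Mathlib
import Pool.Agent.Work.MP_395897_nt.Cyclo

/-!
# Tate's theorem : `ℂ_p(j)` has no nonzero invariants for `j ≠ 0`
-/

open Polynomial IntermediateField

namespace Pool.Agent.Work.MP_395897_nt

variable {p : ℕ} [Fact p.Prime]

section tower

theorem exists_next (n : ℕ) (x : PadicAlgCl p) (hx : IsPrimitiveRoot x (p ^ n)) :
    ∃ y : PadicAlgCl p, y ^ p = x ∧ IsPrimitiveRoot y (p ^ (n + 1)) := by
  have hp : p.Prime := Fact.out
  cases n with
  | zero =>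
    obtain ⟨y, hy⟩ := HasEnoughRootsOfUnity.exists_primitiveRoot (PadicAlgCl p) (p ^ (0 + 1))
    refine ⟨y, ?_, hy⟩
    rw [pow_zero, IsPrimitiveRoot.one_right_iff] at hx
    rw [hx]
    simpa using hy.pow_eq_one
  | succ n =>
    obtain ⟨y, hy⟩ := IsAlgClosed.exists_pow_nat_eq x hp.pos
    refine ⟨y, hy, ?_⟩
    have h1 : y ^ (p ^ (n + 1 + 1)) = 1 := by
      rw [pow_succ' p, pow_mul, hy, hx.pow_eq_one]
    obtain ⟨k, hk, hk2⟩ := (Nat.dvd_prime_pow hp).mp (orderOf_dvd_of_pow_eq_one h1)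
    have hk3 : k = n + 1 + 1 := by
      by_contra hne
      have hle : k ≤ n + 1 := by omega
      have h2 : y ^ (p ^ (n + 1)) = 1 := by
        rw [← orderOf_dvd_iff_pow_eq_one, hk2]
        exact pow_dvd_pow p hle
      rw [pow_succ' p, pow_mul, hy] at h2
      have h3 := (hx.pow_eq_one_iff_dvd _).mp h2
      have := Nat.le_of_dvd (pow_pos hp.pos _) h3
      have h4 : p ^ n < p ^ (n + 1) := Nat.pow_lt_pow_right hp.one_lt (Nat.lt_succ_self n)
      omega
    have := IsPrimitiveRoot.orderOf y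
    rwa [hk2, hk3] at this

variable (p) in
/-- A compatible system of primitive `p^n`-th roots of unity, with proofs. -/
noncomputable def zetAux : (n : ℕ) → {x : PadicAlgCl p // IsPrimitiveRoot x (p ^ n)}
  | 0 => ⟨1, by simp⟩
  | n + 1 => ⟨(exists_next n (zetAux n).1 (zetAux n).2).choose,
      (exists_next n (zetAux n).1 (zetAux n).2).choose_spec.2⟩

variable (p) in
/-- A compatible system of primitive `p^n`-th roots of unity. -/
noncomputable def zet (n : ℕ) : PadicAlgCl p := (zetAux p n).1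

theorem zet_prim (n : ℕ) : IsPrimitiveRoot (zet p n) (p ^ n) := (zetAux p n).2

theorem zet_succ_pow (n : ℕ) : zet p (n + 1) ^ p = zet p n :=
  (exists_next n (zetAux p n).1 (zetAux p n).2).choose_spec.1

theorem zet_zero : zet p 0 = 1 := rfl

theorem zet_add_pow (n k : ℕ) : zet p (n + k) ^ (p ^ k) = zet p n := by
  induction k with
  | zero => simp
  | succ k ih => rw [← add_assoc, pow_succ' p, pow_mul, zet_succ_pow, ih]

variable (p) in
/-- The cyclotomic tower. -/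
noncomputable def Linf : IntermediateField ℚ_[p] (PadicAlgCl p) := ⨆ n, ℚ_[p]⟮zet p n⟯

theorem tower_mono : Monotone fun n => ℚ_[p]⟮zet p n⟯ := by
  refine monotone_nat_of_le_succ fun n => ?_
  rw [adjoin_simple_le_iff, ← zet_succ_pow n]
  exact pow_mem (mem_adjoin_simple_self _ _) _

theorem mem_Linf_iff (x : PadicAlgCl p) : x ∈ Linf p ↔ ∃ n, x ∈ ℚ_[p]⟮zet p n⟯ := by
  rw [Linf, ← SetLike.mem_coe, IntermediateField.coe_iSup_of_directed tower_mono.directed_le]
  simp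

theorem norm_R0_le_Linf {x : PadicAlgCl p} (hx : x ∈ Linf p) : ‖R0 p x‖ ≤ p * ‖x‖ := by
  obtain ⟨n, hn⟩ := (mem_Linf_iff x).mp hx
  exact norm_R0_le (zet_prim (n + 1)) (tower_mono (Nat.le_succ n) hn)

end tower

/-- **Ax–Sen–Tate** for a subfield `L` of `ℚ̄_p`. -/
theorem ax_sen_tate (L : IntermediateField ℚ_[p] (PadicAlgCl p)) (z : ℂ_[p])
    (hz : ∀ σ : GalQp p, (∀ x ∈ L, σ x = x) → galC σ z = z) (ε : ℝ) (hε : 0 < ε) :
    ∃ a : PadicAlgCl p, a ∈ L ∧ ‖z - a‖ < ε := by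
  have hp0 : (0 : ℝ) < p := by exact_mod_cast (Fact.out : p.Prime).pos
  obtain ⟨α, hα⟩ : ∃ α : PadicAlgCl p, ‖z - α‖ < ε / ((p : ℝ) ^ 2 + 1) := by
    have hd : DenseRange ((↑) : PadicAlgCl p → ℂ_[p]) := UniformSpace.Completion.denseRange_coe
    obtain ⟨α, hα⟩ := hd.exists_dist_lt z (show 0 < ε / ((p : ℝ) ^ 2 + 1) by positivity)
    exact ⟨α, by rwa [← dist_eq_norm]⟩
  set δ := ‖z - α‖ with hδ
  have hσ : ∀ σ : PadicAlgCl p ≃ₐ[L] PadicAlgCl p, ‖σ α - α‖ ≤ δ := by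
    intro σ
    set σ' : GalQp p := σ.restrictScalars ℚ_[p] with hσ'
    have h1 : galC σ' z = z := hz σ' (fun x hx => by
      have := σ.commutes ⟨x, hx⟩
      exact this)
    have h2 : ((σ α - α : PadicAlgCl p) : ℂ_[p]) = galC σ' ((α : ℂ_[p]) - z) - ((α : ℂ_[p]) - z) := by
      rw [map_sub, h1, galC_coe, UniformSpace.Completion.coe_sub]
      have : σ' α = σ α := rfl
      rw [this]
      ring
    rw [← PadicComplex.norm_extends, h2]
    refine (us_norm_sub_le _ _).trans (max_le ?_ ?_)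
    · rw [norm_galC, norm_sub_rev]
    · rw [norm_sub_rev]
  obtain ⟨a, haL, ha⟩ := ax_lemma p L α δ (norm_nonneg _) hσ
  refine ⟨a, haL, ?_⟩
  have e : z - a = (z - α) + ((α - a : PadicAlgCl p) : ℂ_[p]) := by
    rw [UniformSpace.Completion.coe_sub]; ring
  rw [e]
  refine lt_of_le_of_lt (norm_add_le _ _) ?_
  rw [PadicComplex.norm_extends]
  have h3 : δ * ((p : ℝ) ^ 2 + 1) < ε := by rwa [lt_div_iff₀ (by positivity)] at hα
  nlinarith

variable (p) in
/-- The `p`-adic cyclotomic character of `Gal(ℚ̄_p/ℚ_p)`. -/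
noncomputable def kap : GalQp p →* ℤ_[p]ˣ :=
  (cyclotomicCharacter (PadicAlgCl p) p).comp
    (MulSemiringAction.toRingAut (GalQp p) (PadicAlgCl p))

theorem kap_spec (σ : GalQp p) {n : ℕ} (t : PadicAlgCl p) (ht : t ^ p ^ n = 1) :
    σ t = t ^ ((kap p σ : ℤ_[p]).toZModPow n).val :=
  cyclotomicCharacter.spec p (MulSemiringAction.toRingAut (GalQp p) (PadicAlgCl p) σ) t ht

/-- there is `g` fixing `ζ_m` with `κ(g)^N ≠ 1` -/
theorem exists_gal (m N : ℕ) (hN : 0 < N) : ∃ g : GalQp p, g (zet p (m + 1)) = zet p (m + 1) ∧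
    ((kap p g : ℤ_[p]) ^ N ≠ 1) := by
  have hp : p.Prime := Fact.out
  -- choose `M`
  set b := 1 + p ^ (m + 1) with hb
  have hb1 : 1 < b := by
    have : 0 < p ^ (m + 1) := pow_pos hp.pos _
    omega
  obtain ⟨M, hM⟩ : ∃ M, b ^ N < p ^ M := ⟨b ^ N, Nat.lt_pow_self hp.one_lt⟩
  have hbN : 1 < b ^ N := Nat.one_lt_pow hN.ne' hb1
  have hMm : m + 1 ≤ M := by
    by_contra hcon
    push Not at hcon
    have h1 : p ^ M ≤ p ^ (m + 1) := Nat.pow_le_pow_right hp.pos hcon.le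
    have h2 : b ≤ b ^ N := Nat.le_self_pow hN.ne' b
    omega
  obtain ⟨k, rfl⟩ : ∃ k, M = m + 1 + k := ⟨M - (m + 1), by omega⟩
  have hcop : Nat.Coprime b (p ^ (m + 1 + k)) := by
    apply Nat.Coprime.pow_right
    rw [hb, pow_succ]
    simp
  have hz := zet_prim (p := p) (m + 1 + k)
  have hz' : IsPrimitiveRoot (zet p (m + 1 + k) ^ b) (p ^ (m + 1 + k)) := hz.pow_of_coprime _ hcop
  have hmin : minpoly ℚ_[p] (zet p (m + 1 + k)) = minpoly ℚ_[p] (zet p (m + 1 + k) ^ b) := by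
    have e : m + 1 + k = (m + k) + 1 := by ring
    have h1 := minpoly_primitiveRoot (p := p) (n := m + k) (ζ := zet p (m + 1 + k)) (e ▸ hz)
    have h2 := minpoly_primitiveRoot (p := p) (n := m + k) (ζ := zet p (m + 1 + k) ^ b) (e ▸ hz')
    rw [h1, h2]
  obtain ⟨g, hg⟩ := minpoly.exists_algEquiv_of_root' (K := ℚ_[p])
    (x := zet p (m + 1 + k) ^ b) (y := zet p (m + 1 + k))
    (Algebra.IsAlgebraic.isAlgebraic _) (by rw [hmin]; exact minpoly.aeval _ _)
  refine ⟨g, ?_, ?_⟩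
  · have h1 : zet p (m + 1) = zet p (m + 1 + k) ^ (p ^ k) := (zet_add_pow _ _).symm
    rw [h1, map_pow, hg, ← pow_mul, mul_comm, pow_mul, ← h1, hb, pow_add, pow_one,
      (zet_prim (m + 1)).pow_eq_one, mul_one]
  · intro hone
    have h2 := kap_spec g (n := m + 1 + k) (zet p (m + 1 + k)) hz.pow_eq_one
    rw [hg, primitiveRoot_pow_inj (pow_pos hp.pos _) hz] at h2
    have h3 : (((kap p g : ℤ_[p]).toZModPow (m + 1 + k)).val : ZMod (p ^ (m + 1 + k))) =
        ((b : ℕ) : ZMod (p ^ (m + 1 + k))) := by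
      rw [ZMod.natCast_eq_natCast_iff]
      exact h2.symm
    rw [ZMod.natCast_val, ZMod.cast_id] at h3
    have h4 := congrArg (PadicInt.toZModPow (m + 1 + k)) hone
    rw [map_pow, h3, map_one] at h4
    have h5 : ((b ^ N : ℕ) : ZMod (p ^ (m + 1 + k))) = ((1 : ℕ) : ZMod (p ^ (m + 1 + k))) := by
      push_cast; exact_mod_cast h4
    rw [ZMod.natCast_eq_natCast_iff] at h5
    have h6 : b ^ N = 1 := Nat.ModEq.eq_of_lt_of_lt h5 hM (by omega)
    omega

/-- `κ(σ)` as an element of `ℂ_p` -/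
noncomputable def kapC (σ : GalQp p) : ℂ_[p] :=
  algebraMap ℚ_[p] ℂ_[p] ((kap p σ : ℤ_[p]) : ℚ_[p])

theorem tate_nat (z : ℂ_[p]) (N : ℕ) (hN : 0 < N)
    (hz : ∀ σ : GalQp p, galC σ z = kapC σ ^ N * z) : z = 0 := by
  have hp : p.Prime := Fact.out
  have hp0 : (0 : ℝ) < p := by exact_mod_cast hp.pos
  by_contra hz0
  have hznorm : 0 < ‖z‖ := norm_pos_iff.mpr hz0
  -- `z` is in the closure of `Linf`
  have hclose : ∀ ε : ℝ, 0 < ε → ∃ a : PadicAlgCl p, a ∈ Linf p ∧ ‖z - a‖ < ε := by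
    refine ax_sen_tate (Linf p) z fun σ hσ => ?_
    have h1 : kap p σ = 1 := by
      ext
      rw [← PadicInt.ext_of_toZModPow]
      intro n
      have h2 := kap_spec σ (n := n) (zet p n) (zet_prim n).pow_eq_one
      have h3 : σ (zet p n) = zet p n := hσ _ ((mem_Linf_iff _).mpr ⟨n, mem_adjoin_simple_self _ _⟩)
      rw [h3] at h2
      have h4 : zet p n ^ 1 = zet p n ^ ((kap p σ : ℤ_[p]).toZModPow n).val := by
        rw [pow_one]; exact h2
      rw [primitiveRoot_pow_inj (pow_pos hp.pos _) (zet_prim n), ← ZMod.natCast_eq_natCast_iff,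
        ZMod.natCast_val, ZMod.cast_id] at h4
      rw [← h4]
      simp
    rw [hz, kapC, h1]
    simp
  have hp1 : (1 : ℝ) < p := by exact_mod_cast hp.one_lt
  obtain ⟨a, haL, ha⟩ := hclose (‖z‖ / (2 * p)) (by positivity)
  have hlt : ‖z‖ / (2 * p) < ‖z‖ := by
    rw [div_lt_iff₀ (by positivity)]
    nlinarith
  have hazn : ‖a‖ = ‖z‖ := by
    rw [← PadicComplex.norm_extends]
    have h1 : ‖(a : ℂ_[p])‖ ≤ ‖z‖ := by
      have e : (a : ℂ_[p]) = z - (z - a) := by ring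
      rw [e]
      exact (us_norm_sub_le _ _).trans (max_le le_rfl (ha.trans hlt).le)
    have h2 : ‖z‖ ≤ max ‖z - a‖ ‖(a : ℂ_[p])‖ := by
      have e : z = (z - a) + a := by ring
      calc ‖z‖ = ‖(z - a) + a‖ := by rw [← e]
        _ ≤ _ := IsUltrametricDist.norm_add_le_max _ _
    rcases le_max_iff.mp h2 with h3 | h3
    · linarith
    · exact le_antisymm h1 h3
  have ha0 : a ≠ 0 := by
    intro h0
    rw [h0, norm_zero] at hazn
    linarith
  set b := a⁻¹ with hb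
  have hbL : b ∈ Linf p := inv_mem haL
  have hbnorm : ‖b‖ = ‖z‖⁻¹ := by rw [hb, norm_inv, hazn]
  obtain ⟨m, hm⟩ := (mem_Linf_iff b).mp hbL
  have hm' : b ∈ ℚ_[p]⟮zet p (m + 1)⟯ := tower_mono (Nat.le_succ m) hm
  obtain ⟨g, hg1, hg2⟩ := exists_gal (p := p) m N hN
  have hgb : g b = b := by
    have h1 : (ℚ_[p]⟮zet p (m + 1)⟯) ≤ IntermediateField.fixedField (Subgroup.zpowers g) := by
      rw [adjoin_simple_le_iff]
      intro h
      obtain ⟨k, hk⟩ := h.2
      have hk' : (h : GalQp p) = g ^ k := hk.symm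
      have : ∀ k : ℤ, (g ^ k) (zet p (m + 1)) = zet p (m + 1) := by
        intro k
        have h3 : g ∈ MulAction.stabilizer (GalQp p) (zet p (m + 1)) := hg1
        exact zpow_mem h3 k
      change (h : GalQp p) (zet p (m + 1)) = zet p (m + 1)
      rw [hk']
      exact this k
    exact h1 hm' ⟨g, Subgroup.mem_zpowers g⟩
  set c : ℚ_[p] := ((kap p g : ℤ_[p]) : ℚ_[p]) ^ N with hc
  have hc1 : c ≠ 1 := by
    intro h
    apply hg2
    have : (((kap p g : ℤ_[p]) ^ N : ℤ_[p]) : ℚ_[p]) = ((1 : ℤ_[p]) : ℚ_[p]) := by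
      push_cast
      exact h
    exact PadicInt.ext this
  have hcn : ‖c‖ ≤ 1 := by
    rw [hc, norm_pow]
    exact pow_le_one₀ (norm_nonneg _) (PadicInt.norm_le_one _)
  have hgz : galC g z = algebraMap ℚ_[p] ℂ_[p] c * z := by
    rw [hz g, kapC, hc, map_pow]
  have h1c : 0 < ‖1 - c‖ := norm_pos_iff.mpr (sub_ne_zero.mpr hc1.symm)
  have hb0 : 0 < ‖b‖ := by rw [hbnorm]; positivity
  set δ := ‖1 - c‖ / (4 * p * ‖b‖) with hδ
  have hδ0 : 0 < δ := by positivity
  obtain ⟨a', ha'L, ha'⟩ := hclose (min δ (‖z‖ / (2 * p))) (by positivity)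
  have ha'1 : ‖z - a'‖ < δ := lt_of_lt_of_le ha' (min_le_left _ _)
  have ha'2 : ‖z - a'‖ < ‖z‖ / (2 * p) := lt_of_lt_of_le ha' (min_le_right _ _)
  have hab : ‖a' * b - 1‖ ≤ 1 / (2 * p) := by
    have e : a' * b - 1 = (a' - a) * b := by
      rw [hb, sub_mul, mul_inv_cancel₀ ha0]
    rw [e, norm_mul, hbnorm, ← PadicComplex.norm_extends, UniformSpace.Completion.coe_sub]
    have e2 : (a' : ℂ_[p]) - a = (z - a) - (z - a') := by ring
    rw [e2]
    have h4 : ‖(z - (a : ℂ_[p])) - (z - a')‖ ≤ ‖z‖ / (2 * p) :=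
      (us_norm_sub_le _ _).trans (max_le ha.le ha'2.le)
    calc ‖(z - (a : ℂ_[p])) - (z - a')‖ * ‖z‖⁻¹ ≤ ‖z‖ / (2 * p) * ‖z‖⁻¹ := by gcongr
      _ = 1 / (2 * p) := by field_simp
  have hR1 : ‖R0 p (a' * b) - 1‖ ≤ 1 / 2 := by
    have e : R0 p (a' * b) - 1 = R0 p (a' * b - 1) := by rw [map_sub, R0_one]
    rw [e]
    calc ‖R0 p (a' * b - 1)‖ ≤ p * ‖a' * b - 1‖ :=
          norm_R0_le_Linf (sub_mem (mul_mem ha'L hbL) (one_mem _))
      _ ≤ p * (1 / (2 * p)) := by gcongr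
      _ = 1 / 2 := by field_simp
  have hR2 : (1 : ℝ) / 2 ≤ ‖R0 p (a' * b)‖ := by
    have h5 : ‖(1 : ℚ_[p])‖ ≤ ‖R0 p (a' * b)‖ + ‖R0 p (a' * b) - 1‖ := by
      have e : (1 : ℚ_[p]) = R0 p (a' * b) - (R0 p (a' * b) - 1) := by ring
      calc ‖(1 : ℚ_[p])‖ = ‖R0 p (a' * b) - (R0 p (a' * b) - 1)‖ := by rw [← e]
        _ ≤ _ := norm_sub_le _ _
    rw [norm_one] at h5
    linarith
  have hgL : g (a' * b) ∈ Linf p := by
    rw [mem_Linf_iff]
    obtain ⟨n, hn⟩ := (mem_Linf_iff (a' * b)).mp (mul_mem ha'L hbL)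
    refine ⟨n, ?_⟩
    have h6 : (ℚ_[p]⟮zet p n⟯) ≤ (ℚ_[p]⟮zet p n⟯).comap (g : PadicAlgCl p →ₐ[ℚ_[p]] PadicAlgCl p) := by
      rw [adjoin_simple_le_iff]
      have := kap_spec g (n := n) (zet p n) (zet_prim n).pow_eq_one
      change g (zet p n) ∈ (ℚ_[p]⟮zet p n⟯)
      rw [this]
      exact pow_mem (mem_adjoin_simple_self _ _) _
    exact h6 hn
  have hmain : ‖(1 - c) * R0 p (a' * b)‖ ≤ p * (‖b‖ * δ) := by
    have e : (1 - c) * R0 p (a' * b) = R0 p (g (a' * b) - c • (a' * b)) := by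
      rw [map_sub, R0_gal, map_smul, smul_eq_mul]
      ring
    rw [e]
    have hmem : g (a' * b) - c • (a' * b) ∈ Linf p :=
      sub_mem hgL ((Linf p).smul_mem (mul_mem ha'L hbL))
    refine (norm_R0_le_Linf hmem).trans ?_
    gcongr
    have e2 : g (a' * b) - c • (a' * b) = b * (g a' - c • a') := by
      rw [map_mul, hgb, mul_sub, mul_smul_comm]
      congr 1
      · ring
      · rw [mul_comm]
    rw [e2, norm_mul]
    gcongr
    rw [← PadicComplex.norm_extends, UniformSpace.Completion.coe_sub]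
    have e3 : ((g a' : PadicAlgCl p) : ℂ_[p]) - ((c • a' : PadicAlgCl p) : ℂ_[p]) =
        algebraMap ℚ_[p] ℂ_[p] c * (z - a') - galC g (z - a') := by
      have e4 : ((c • a' : PadicAlgCl p) : ℂ_[p]) = algebraMap ℚ_[p] ℂ_[p] c * (a' : ℂ_[p]) := by
        rw [Algebra.smul_def, UniformSpace.Completion.coe_mul]
        rfl
      rw [e4, map_sub, hgz, galC_coe]
      ring
    rw [e3]
    refine (us_norm_sub_le _ _).trans (max_le ?_ ?_)
    · rw [norm_mul]
      have : ‖algebraMap ℚ_[p] ℂ_[p] c‖ ≤ 1 := by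
        have := PadicComplex.norm_extends' p c
        rw [show algebraMap ℚ_[p] ℂ_[p] c = ((algebraMap ℚ_[p] (PadicAlgCl p) c : PadicAlgCl p) :
          ℂ_[p]) from rfl, PadicComplex.norm_extends, norm_algebraMap']
        exact hcn
      calc _ ≤ 1 * ‖z - a'‖ := by gcongr
        _ ≤ δ := by rw [one_mul]; exact ha'1.le
    · rw [norm_galC]; exact ha'1.le
  rw [norm_mul] at hmain
  have h7 : ‖1 - c‖ * (1 / 2) ≤ p * (‖b‖ * δ) :=
    le_trans (by gcongr) hmain
  have h8 : p * (‖b‖ * δ) = ‖1 - c‖ / 4 := by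
    rw [hδ]; field_simp
  rw [h8] at h7
  linarith

theorem kapC_mul (σ τ : GalQp p) : kapC (σ * τ) = kapC σ * kapC τ := by
  unfold kapC
  rw [← map_mul (algebraMap ℚ_[p] ℂ_[p]), ← PadicInt.coe_mul, ← Units.val_mul, ← map_mul (kap p)]

theorem kapC_ne_zero (σ : GalQp p) : kapC σ ≠ 0 := by
  intro h
  have h1 : kapC (σ * σ⁻¹) = 0 := by rw [kapC_mul, h, zero_mul]
  rw [mul_inv_cancel, kapC, map_one] at h1
  simp at h1

theorem galC_kapC (σ τ : GalQp p) : galC σ (kapC τ) = kapC τ := by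
  rw [kapC, show algebraMap ℚ_[p] ℂ_[p] ((kap p τ : ℤ_[p]) : ℚ_[p]) =
    ((algebraMap ℚ_[p] (PadicAlgCl p) ((kap p τ : ℤ_[p]) : ℚ_[p]) : PadicAlgCl p) : ℂ_[p]) from rfl,
    galC_coe, AlgEquiv.commutes]

theorem galC_mul_apply (σ τ : GalQp p) (x : ℂ_[p]) : galC (σ * τ) x = galC σ (galC τ x) := by
  induction x using UniformSpace.Completion.induction_on with
  | hp =>
    exact isClosed_eq (isometry_galC _).continuous
      ((isometry_galC _).continuous.comp (isometry_galC _).continuous)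
  | ih a => rw [galC_coe, galC_coe, galC_coe]; rfl

theorem galC_one_apply (x : ℂ_[p]) : galC (1 : GalQp p) x = x := by
  induction x using UniformSpace.Completion.induction_on with
  | hp => exact isClosed_eq (isometry_galC _).continuous continuous_id
  | ih a => rw [galC_coe]; rfl

theorem tate_int (z : ℂ_[p]) (j : ℤ) (hj : j ≠ 0)
    (hz : ∀ σ : GalQp p, galC σ z = kapC σ ^ j * z) : z = 0 := by
  rcases lt_or_gt_of_ne hj with h | h
  · -- use the inverse
    by_contra hz0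
    have : z⁻¹ = 0 := by
      refine tate_nat z⁻¹ (-j).toNat (by omega) fun σ => ?_
      rw [map_inv₀, hz, mul_inv, ← zpow_neg, ← zpow_natCast, Int.toNat_of_nonneg (by omega)]
    exact hz0 (inv_eq_zero.mp this)
  · refine tate_nat z j.toNat (by omega) fun σ => ?_
    rw [hz, ← zpow_natCast, Int.toNat_of_nonneg (by omega)]

/-- **Tate's theorem** : for a finite index subgroup `H` of `Gal(ℚ̄_p/ℚ_p)` and `j ≠ 0`, the
invariants of `ℂ_p(-j)` under `H` vanish. -/
theorem tate (H : Subgroup (GalQp p)) [H.FiniteIndex] (z : ℂ_[p]) (j : ℤ) (hj : j ≠ 0)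
    (hz : ∀ σ ∈ H, galC σ z = kapC σ ^ j * z) : z = 0 := by
  classical
  let f : GalQp p → ℂ_[p] := fun σ => galC σ z * (kapC σ ^ j)⁻¹
  have hf : ∀ σ τ : GalQp p, galC τ (f σ) = kapC τ ^ j * f (τ * σ) := by
    intro σ τ
    simp only [f]
    rw [map_mul, map_inv₀, map_zpow₀, galC_kapC, galC_mul_apply, kapC_mul, mul_zpow, mul_inv]
    have := zpow_ne_zero j (kapC_ne_zero τ)
    field_simp
  have hfH : ∀ σ τ : GalQp p, σ⁻¹ * τ ∈ H → f σ = f τ := by
    intro σ τ h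
    obtain ⟨η, hη, rfl⟩ : ∃ η ∈ H, τ = σ * η := ⟨σ⁻¹ * τ, h, by group⟩
    simp only [f]
    rw [galC_mul_apply, hz η hη, map_mul, map_zpow₀, galC_kapC, kapC_mul, mul_zpow, mul_inv]
    have := zpow_ne_zero j (kapC_ne_zero η)
    field_simp
  let F : GalQp p ⧸ H → ℂ_[p] := Quotient.lift f (fun a b hab => hfH a b (QuotientGroup.leftRel_apply.mp hab))
  have hF : ∀ σ : GalQp p, F (σ : GalQp p ⧸ H) = f σ := fun σ => rfl
  have : Fintype (GalQp p ⧸ H) := Fintype.ofFinite _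
  set d := Fintype.card (GalQp p ⧸ H) with hd
  have hdpos : 0 < d := Fintype.card_pos
  have hprod : ∀ τ : GalQp p, galC τ (∏ c, F c) = kapC τ ^ (j * d) * ∏ c, F c := by
    intro τ
    rw [map_prod]
    have h1 : ∀ c : GalQp p ⧸ H, galC τ (F c) = kapC τ ^ j * F (τ • c) := by
      intro c
      induction c using QuotientGroup.induction_on with
      | H σ =>
        rw [hF, hf]
        rfl
    rw [Finset.prod_congr rfl fun c _ => h1 c, Finset.prod_mul_distrib, Finset.prod_const,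
      Finset.card_univ, ← hd, zpow_mul, zpow_natCast]
    congr 1
    exact Fintype.prod_bijective (fun c => τ • c) (MulAction.bijective τ) _ _ fun c => rfl
  have h0 : ∏ c, F c = 0 := tate_int _ (j * d) (mul_ne_zero hj (by exact_mod_cast hdpos.ne')) hprod
  rw [Finset.prod_eq_zero_iff] at h0
  obtain ⟨c, _, hc⟩ := h0
  induction c using QuotientGroup.induction_on with
  | H σ =>
    rw [hF] at hc
    simp only [f, mul_eq_zero, inv_eq_zero] at hc
    rcases hc with hc | hc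
    · exact (map_eq_zero _).mp hc
    · exact absurd hc (zpow_ne_zero j (kapC_ne_zero σ))

end Pool.Agent.Work.MP_395897_nt
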