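import Mathlib
import Pool.Agent.Work.MP_395897_nt.Defs
import Pool.Agent.Work.MP_395897_nt.Psi
import Pool.Agent.Work.MP_395897_nt.Tate

/-!
The half-cyclotomic character as a representation of `G_F`; it satisfies condition 2 with weight 1.
-/

open NumberField IsDedekindDomain

namespace Pool.Agent.Work.MP_395897_nt

noncomputable section

universe u

/-! ### Roots of unity -/

/-- Two `N`-th roots of unity of `ℚ̄_p` which are congruent modulo the maximal ideal are equal when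
`p` does not divide `N`. -/
theorem root_eq_of_norm_lt {p : ℕ} [Fact p.Prime] {N : ℕ} (hN : ¬ p ∣ N) {x y : PadicAlgCl p}
    (hx : x ^ N = 1) (hy : y ^ N = 1) (h : ‖x - y‖ < 1) : x = y := by
  have hN0 : N ≠ 0 := by rintro rfl; exact hN (dvd_zero p)
  have hy0 : y ≠ 0 := by
    rintro rfl
    rw [zero_pow hN0] at hy
    exact zero_ne_one hy
  have hny : ‖y‖ = 1 := by
    have h1 := congrArg norm hy
    rw [norm_pow, norm_one] at h1
    exact (pow_eq_one_iff_of_nonneg (norm_nonneg _) hN0).mp h1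
  set z := x / y with hz
  have hzN : z ^ N = 1 := by rw [hz, div_pow, hx, hy, div_one]
  have hz1 : ‖z - 1‖ < 1 := by
    have : z - 1 = (x - y) / y := by rw [hz]; field_simp
    rw [this, norm_div, hny, div_one]
    exact h
  have hnz : ‖z‖ = 1 := by
    have h1 := congrArg norm hzN
    rw [norm_pow, norm_one] at h1
    exact (pow_eq_one_iff_of_nonneg (norm_nonneg _) hN0).mp h1
  have hpow : ∀ i : ℕ, ‖z ^ i - 1‖ < 1 := by
    intro i
    induction i with
    | zero => simp
    | succ i ih =>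
      have e : z ^ (i + 1) - 1 = z ^ i * (z - 1) + (z ^ i - 1) := by ring
      rw [e]
      refine lt_of_le_of_lt (IsUltrametricDist.norm_add_le_max _ _) (max_lt ?_ ih)
      rw [norm_mul, norm_pow, hnz, one_pow, one_mul]
      exact hz1
  have hsum : (∑ i ∈ Finset.range N, z ^ i) * (z - 1) = 0 := by
    rw [geom_sum_mul, hzN, sub_self]
  rcases mul_eq_zero.mp hsum with h0 | h0
  · exfalso
    have h1 : (N : PadicAlgCl p) = -(∑ i ∈ Finset.range N, (z ^ i - 1)) := by
      rw [Finset.sum_sub_distrib, h0]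
      simp
    have h2 : ‖(N : PadicAlgCl p)‖ = 1 := by
      rw [← map_natCast (algebraMap ℚ_[p] (PadicAlgCl p)), norm_algebraMap']
      by_contra hne
      have h4 : ‖((N : ℤ) : ℚ_[p])‖ < 1 := by
        refine lt_of_le_of_ne (Padic.norm_int_le_one _) ?_
        rw [Int.cast_natCast]
        exact hne
      rw [Padic.norm_intCast_lt_one_iff] at h4
      exact hN (by exact_mod_cast h4)
    have h5 : ‖∑ i ∈ Finset.range N, (z ^ i - 1)‖ < 1 := by
      have hne : (Finset.range N).Nonempty := Finset.nonempty_range_iff.mpr hN0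
      obtain ⟨i, _, hi⟩ := IsUltrametricDist.exists_norm_finsetSum_le_of_nonempty hne
        (fun i => z ^ i - 1)
      exact lt_of_le_of_lt hi (hpow i)
    rw [h1, norm_neg] at h2
    linarith
  · rw [hz, sub_eq_zero, div_eq_one_iff_eq hy0] at h0
    exact h0

/-- Uniqueness of the cyclotomic character. -/
theorem cyclo_unique {L : Type u} [Field L] {l : ℕ} [Fact l.Prime]
    [∀ i, HasEnoughRootsOfUnity L (l ^ i)] (g : L ≃+* L) (a : ℤ_[l])
    (h : ∀ (n : ℕ) (t : L), t ^ (l ^ n) = 1 → g t = t ^ (a.toZModPow n).val) :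
    (cyclotomicCharacter L l g : ℤ_[l]) = a := by
  refine PadicInt.ext_of_toZModPow.mp fun n => ?_
  obtain ⟨ζ, hζ⟩ := HasEnoughRootsOfUnity.exists_primitiveRoot L (l ^ n)
  have h1 := cyclotomicCharacter.spec l g ζ hζ.pow_eq_one
  rw [h n ζ hζ.pow_eq_one] at h1
  have h2 := hζ.pow_inj (ZMod.val_lt _) (ZMod.val_lt _) h1
  exact (ZMod.val_injective _ h2).symm

section chi

variable {F : Type u} [Field F] [NumberField F] {l : ℕ} [Fact l.Prime]

instance hasEnough (F : Type u) [Field F] [NumberField F] (l : ℕ) [Fact l.Prime] (i : ℕ) :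
    HasEnoughRootsOfUnity (AlgebraicClosure F) (l ^ i) := by
  have : NeZero ((l ^ i : ℕ) : AlgebraicClosure F) := ⟨by
    have := (Fact.out : l.Prime).ne_zero
    exact_mod_cast pow_ne_zero i this⟩
  infer_instance

variable (F l) in
/-- The `l`-adic cyclotomic character of `G_F`. -/
def chi : GalF F →* ℤ_[l]ˣ :=
  (cyclotomicCharacter (AlgebraicClosure F) l).comp
    (MulSemiringAction.toRingAut (GalF F) (AlgebraicClosure F))

theorem continuous_chi : Continuous (chi F l) :=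
  cyclotomicCharacter.continuous l F (AlgebraicClosure F)

theorem chi_spec (s : GalF F) {n : ℕ} (t : AlgebraicClosure F) (ht : t ^ l ^ n = 1) :
    s t = t ^ ((chi F l s : ℤ_[l]).toZModPow n).val :=
  cyclotomicCharacter.spec l (MulSemiringAction.toRingAut (GalF F) (AlgebraicClosure F) s) t ht

theorem chi_unique (s : GalF F) (a : ℤ_[l])
    (h : ∀ (n : ℕ) (t : AlgebraicClosure F), t ^ (l ^ n) = 1 →
      s t = t ^ (a.toZModPow n).val) : (chi F l s : ℤ_[l]) = a :=
  cyclo_unique (MulSemiringAction.toRingAut (GalF F) (AlgebraicClosure F) s) a h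

/-- The global and the local cyclotomic characters agree. -/
theorem chi_eq_kap (ι : AlgebraicClosure F →+* PadicAlgCl l) (σ : GalQp l) (s : GalF F)
    (h : Restricts ι σ s) : chi F l s = kap l σ := by
  apply Units.ext
  refine chi_unique s _ fun n t ht => ?_
  apply ι.injective
  rw [h t, map_pow]
  exact kap_spec σ (ι t) (by rw [← map_pow, ht, map_one])

/-- The cyclotomic character is trivial on inertia at places not above `l`. -/
theorem chi_eq_one {p : ℕ} [Fact p.Prime] (hpl : p ≠ l)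
    (ι : AlgebraicClosure F →+* PadicAlgCl p) (σ : GalQp p) (s : GalF F)
    (h : Restricts ι σ s) (hσ : ActsTriviallyOnResidue σ) : chi F l s = 1 := by
  apply Units.ext
  refine chi_unique s _ fun n t ht => ?_
  have hN : ¬ p ∣ l ^ n := by
    intro hd
    exact hpl ((Nat.prime_dvd_prime_iff_eq Fact.out Fact.out).mp
      ((Fact.out : p.Prime).dvd_of_dvd_pow hd))
  have h1 : (ι t) ^ l ^ n = 1 := by rw [← map_pow, ht, map_one]
  have h2 : (σ (ι t)) ^ l ^ n = 1 := by rw [← map_pow, h1, map_one]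
  have hnorm : ‖ι t‖ ≤ 1 := by
    have h3 := congrArg norm h1
    rw [norm_pow, norm_one] at h3
    exact ((pow_eq_one_iff_of_nonneg (norm_nonneg _)
      (pow_ne_zero _ (Fact.out : l.Prime).ne_zero)).mp h3).le
  have h4 : s t = t := by
    apply ι.injective
    rw [h t]
    exact root_eq_of_norm_lt hN h2 h1 (hσ _ hnorm)
  rw [h4]
  have h5 : ((1 : ℤ_[l]ˣ) : ℤ_[l]).toZModPow n = 1 := by simp
  rw [h5]
  rcases Nat.eq_zero_or_pos n with rfl | hn
  · rw [pow_zero, pow_one] at ht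
    rw [ht, one_pow]
  · have : Fact (1 < l ^ n) := ⟨Nat.one_lt_pow hn.ne' (Fact.out : l.Prime).one_lt⟩
    rw [ZMod.val_one, pow_one]

/-- The value of the cyclotomic character at a geometric Frobenius. -/
theorem chi_mul_eq_one {p : ℕ} [Fact p.Prime] (hpl : p ≠ l)
    (ι : AlgebraicClosure F →+* PadicAlgCl p) (q : ℕ) (σ : GalQp p) (s : GalF F)
    (h : Restricts ι σ s) (hσ : IsGeomFrob q σ) : (chi F l s : ℤ_[l]) * (q : ℤ_[l]) = 1 := by
  refine PadicInt.ext_of_toZModPow.mp fun n => ?_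
  obtain ⟨ζ, hζ⟩ := HasEnoughRootsOfUnity.exists_primitiveRoot (AlgebraicClosure F) (l ^ n)
  have hN : ¬ p ∣ l ^ n := by
    intro hd
    exact hpl ((Nat.prime_dvd_prime_iff_eq Fact.out Fact.out).mp
      ((Fact.out : p.Prime).dvd_of_dvd_pow hd))
  have h1 : (ι ζ) ^ l ^ n = 1 := by rw [← map_pow, hζ.pow_eq_one, map_one]
  have h2 : (σ (ι ζ) ^ q) ^ l ^ n = 1 := by
    rw [← pow_mul, mul_comm, pow_mul, ← map_pow, h1, map_one, one_pow]
  have hnorm : ‖ι ζ‖ ≤ 1 := by
    have h3 := congrArg norm h1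
    rw [norm_pow, norm_one] at h3
    exact ((pow_eq_one_iff_of_nonneg (norm_nonneg _)
      (pow_ne_zero _ (Fact.out : l.Prime).ne_zero)).mp h3).le
  have h4 : (s ζ) ^ q = ζ := by
    apply ι.injective
    rw [map_pow, h ζ]
    exact root_eq_of_norm_lt hN h2 h1 (hσ _ hnorm)
  rw [chi_spec s ζ hζ.pow_eq_one, ← pow_mul] at h4
  have hζ0 : ζ ≠ 0 := hζ.ne_zero (pow_ne_zero _ (Fact.out : l.Prime).ne_zero)
  have h5 : ζ ^ ((((((chi F l s : ℤ_[l]).toZModPow n).val) * q : ℕ) : ℤ) - 1) = 1 := by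
    rw [zpow_sub_one₀ hζ0, zpow_natCast, h4, mul_inv_cancel₀ hζ0]
  rw [hζ.zpow_eq_one_iff_dvd, ← ZMod.intCast_zmod_eq_zero_iff_dvd] at h5
  have h6 : (((((chi F l s : ℤ_[l]).toZModPow n).val) * q : ℕ) : ZMod (l ^ n)) - 1 = 0 := by
    exact_mod_cast h5
  rw [map_mul, map_one, map_natCast]
  rw [Nat.cast_mul, ZMod.natCast_val, ZMod.cast_id', id] at h6
  exact sub_eq_zero.mp h6

end chi

/-! ### The representation -/

section rep

variable (F : Type u) [Field F] [NumberField F] {l : ℕ} [Fact l.Prime]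

/-- The representation `ψ(χ)⁻¹` of `G_F` of dimension one. -/
def halfRep (ψ : ℤ_[l]ˣ →* (PadicAlgCl l)ˣ) (hψ : Continuous ψ) : GalRep F l 1 where
  toHom := (Units.map (Matrix.scalar (Fin 1) : PadicAlgCl l →+* _).toMonoidHom).comp
    ((invMonoidHom : (PadicAlgCl l)ˣ →* (PadicAlgCl l)ˣ).comp (ψ.comp (chi F l)))
  continuous_toHom := by
    have h1 : Continuous (Units.map (Matrix.scalar (Fin 1) : PadicAlgCl l →+* _).toMonoidHom) := by
      refine Continuous.units_map _ ?_
      change Continuous fun a : PadicAlgCl l => Matrix.diagonal fun _ : Fin 1 => a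
      exact Continuous.matrix_diagonal (continuous_pi fun _ => continuous_id)
    exact h1.comp (continuous_inv.comp (hψ.comp continuous_chi))

variable {F}

theorem halfRep_mulVec (ψ : ℤ_[l]ˣ →* (PadicAlgCl l)ˣ) (hψ : Continuous ψ) (s : GalF F)
    (x : Fin 1 → PadicAlgCl l) :
    ((halfRep F ψ hψ).mat s).mulVec x =
      (((ψ (chi F l s))⁻¹ : (PadicAlgCl l)ˣ) : PadicAlgCl l) • x := by
  change (Matrix.scalar (Fin 1) (((ψ (chi F l s))⁻¹ : (PadicAlgCl l)ˣ) : PadicAlgCl l)).mulVec x = _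
  ext i
  simp [Matrix.scalar_apply, Matrix.mulVec_diagonal]

theorem halfRep_eq_one (ψ : ℤ_[l]ˣ →* (PadicAlgCl l)ˣ) (hψ : Continuous ψ) (s : GalF F)
    (h : chi F l s = 1) : (halfRep F ψ hψ).toHom s = 1 := by
  simp [halfRep, h]

theorem halfRep_irreducible (ψ : ℤ_[l]ˣ →* (PadicAlgCl l)ˣ) (hψ : Continuous ψ) :
    (halfRep F ψ hψ).IsIrreducible := by
  refine ⟨one_pos, fun W _ => ?_⟩
  have h1 : Module.finrank (PadicAlgCl l) (Fin 1 → PadicAlgCl l) = 1 := by simp
  have := isSimpleModule_iff_finrank_eq_one.mpr h1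
  exact eq_bot_or_eq_top W

theorem halfRep_unramified (ψ : ℤ_[l]ˣ →* (PadicAlgCl l)ˣ) (hψ : Continuous ψ)
    (v : HeightOneSpectrum (𝓞 F)) (hv : (l : 𝓞 F) ∉ v.asIdeal) :
    (halfRep F ψ hψ).UnramifiedAt v := by
  intro p _ ι hι σ s hs hσ
  have hpl : p ≠ l := by
    rintro rfl
    apply hv
    rw [hι]
    rw [map_natCast, map_natCast, ← map_natCast (algebraMap ℚ_[p] (PadicAlgCl p)),
      norm_algebraMap', Padic.norm_p]
    exact inv_lt_one_of_one_lt₀ (by exact_mod_cast (Fact.out : p.Prime).one_lt)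
  exact halfRep_eq_one ψ hψ s (chi_eq_one hpl ι σ s hs hσ)

theorem halfRep_finite (ψ : ℤ_[l]ˣ →* (PadicAlgCl l)ˣ) (hψ : Continuous ψ) :
    {v : HeightOneSpectrum (𝓞 F) | ¬ (halfRep F ψ hψ).UnramifiedAt v}.Finite := by
  have h0 : Ideal.span {(l : 𝓞 F)} ≠ 0 := by
    rw [Ne, Ideal.zero_eq_bot, Ideal.span_singleton_eq_bot]
    exact_mod_cast (Fact.out : l.Prime).ne_zero
  refine (Ideal.finite_factors h0).subset ?_
  intro v hv
  by_contra hcon
  apply hv
  apply halfRep_unramified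
  intro hmem
  apply hcon
  change v.asIdeal ∣ _
  rw [Ideal.dvd_span_singleton]
  exact hmem

/-- The Weil number property of `ψ(q)`. -/
theorem weil_of_pow {q d : ℕ} (hd : 0 < d) {α : PadicAlgCl l}
    (hα : α ^ (2 * d) = (q : PadicAlgCl l) ^ d) : IsIntegral ℤ α ∧ IsWeilNumber q (1 + 0) α := by
  have hint : IsIntegral ℤ α := by
    refine ⟨Polynomial.X ^ (2 * d) - Polynomial.C ((q : ℤ) ^ d),
      Polynomial.monic_X_pow_sub_C _ (by omega), ?_⟩
    simp [hα]
  refine ⟨hint, ?_, ?_⟩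
  · exact (hint.tower_top (A := ℚ)).isAlgebraic
  · intro z hz
    have h1 : Polynomial.aeval α (Polynomial.X ^ (2 * d) - Polynomial.C ((q : ℚ) ^ d)) = 0 := by
      simp [hα]
    have h2 := minpoly.dvd ℚ α h1
    obtain ⟨r, hr⟩ := h2
    have h3 : Polynomial.aeval z (Polynomial.X ^ (2 * d) - Polynomial.C ((q : ℚ) ^ d)) = 0 := by
      rw [hr, map_mul, hz, zero_mul]
    have h4 : z ^ (2 * d) = (q : ℂ) ^ d := by
      have h5 : z ^ (2 * d) - (q : ℂ) ^ d = 0 := by simpa using h3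
      exact sub_eq_zero.mp h5
    have h5 : ‖z‖ ^ (2 * d) = (q : ℝ) ^ d := by
      rw [← norm_pow, h4, norm_pow]
      simp
    have h6 : ‖z‖ ^ 2 = q := by
      rw [pow_mul] at h5
      exact (pow_left_inj₀ (by positivity) (by positivity) hd.ne').mp h5
    have h7 : ‖z‖ = Real.sqrt q := by
      rw [← h6, Real.sqrt_sq (norm_nonneg _)]
    rw [h7, Real.sqrt_eq_rpow]
    norm_num

theorem isMonodromyFiltration_zero {k : Type*} [Field k] {n : ℕ} :
    IsMonodromyFiltration (0 : Matrix (Fin n) (Fin n) k)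
      (fun j : ℤ => if 0 ≤ j then ⊤ else ⊥) := by
  refine ⟨?_, ⟨-1, by simp⟩, ⟨0, by simp⟩, ?_, ?_, ?_⟩
  · intro a b hab
    simp only
    split_ifs with h1 h2
    · exact le_rfl
    · exact absurd (h1.trans hab) h2
    · exact bot_le
    · exact le_rfl
  · intro j x _
    rw [Matrix.zero_mulVec]
    exact Submodule.zero_mem _
  · intro j x hx hx2
    rcases Nat.eq_zero_or_pos j with rfl | hj
    · simp at hx2 ⊢
      exact hx2
    · have h1 : (0 : ℤ) ≤ (j : ℤ) - 1 := by omega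
      simp only [h1, if_true]
      trivial
  · intro j y hy
    rcases Nat.eq_zero_or_pos j with rfl | hj
    · refine ⟨y, by simp, ?_⟩
      simp
    · have h1 : ¬ (0 : ℤ) ≤ -(j : ℤ) := by omega
      simp only [h1, if_false, Submodule.mem_bot] at hy
      refine ⟨0, Submodule.zero_mem _, ?_⟩
      rw [hy, Matrix.mulVec_zero, sub_zero]
      exact Submodule.zero_mem _

theorem halfRep_condition2 (ψ : ℤ_[l]ˣ →* (PadicAlgCl l)ˣ) (hψ : Continuous ψ) (d : ℕ)
    (hd : 0 < d) (hψd : ∀ u, ψ u ^ (2 * d) = unitsMap l u ^ d) :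
    (halfRep F ψ hψ).Condition2 := by
  refine ⟨1, fun v p _ ι hpl hι => ?_⟩
  refine ⟨0, fun j : ℤ => if 0 ≤ j then ⊤ else ⊥, ?_, isMonodromyFiltration_zero, ?_⟩
  · refine ⟨IsNilpotent.zero, ⊤, fun _ => 0, isOpen_univ, ?_, fun h => absurd rfl h⟩
    intro σ _ hσ s hs
    rw [smul_zero, IsNilpotent.exp_zero]
    rw [GalRep.mat, halfRep_eq_one ψ hψ s (chi_eq_one hpl ι σ s hs hσ)]
    rfl
  · intro Φ s hs hΦ j α x hx hx2 hx3
    set q := Nat.card (𝓞 F ⧸ v.asIdeal) with hq
    have hj : j = 0 := by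
      by_contra hne
      rcases lt_or_gt_of_ne hne with h | h
      · have h1 : ¬ (0 ≤ j) := by omega
        simp only [h1, if_false, Submodule.mem_bot] at hx
        apply hx2
        rw [hx]
        exact Submodule.zero_mem _
      · apply hx2
        have h1 : 0 ≤ j - 1 := by omega
        simp only [h1, if_true]
        trivial
    subst hj
    simp only [zero_sub, Int.reduceNeg, Left.nonneg_neg_iff, Int.reduceLE, if_false,
      Submodule.mem_bot] at hx2 hx3
    have hchi := chi_mul_eq_one (l := l) hpl ι q Φ s hs hΦ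
    rw [halfRep_mulVec, ← sub_smul, smul_eq_zero] at hx3
    have hα : (((ψ (chi F l s))⁻¹ : (PadicAlgCl l)ˣ) : PadicAlgCl l) = α :=
      sub_eq_zero.mp (hx3.resolve_right hx2)
    refine weil_of_pow hd ?_
    rw [← hα, ← map_inv, ← Units.val_pow_eq_pow_val, hψd]
    have hinv : (((chi F l s)⁻¹ : ℤ_[l]ˣ) : ℤ_[l]) = (q : ℤ_[l]) := by
      calc (((chi F l s)⁻¹ : ℤ_[l]ˣ) : ℤ_[l])
          = (((chi F l s)⁻¹ : ℤ_[l]ˣ) : ℤ_[l]) * ((chi F l s : ℤ_[l]) * (q : ℤ_[l])) := by
            rw [hchi, mul_one]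
        _ = (q : ℤ_[l]) := by rw [← mul_assoc, Units.inv_mul, one_mul]
    rw [Units.val_pow_eq_pow_val]
    congr 1
    change algebraMap ℚ_[l] (PadicAlgCl l) ((((chi F l s)⁻¹ : ℤ_[l]ˣ) : ℤ_[l]) : ℚ_[l]) = _
    rw [hinv]
    simp

end rep

end

end Pool.Agent.Work.MP_395897_nt
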