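import Mathlib
import Pool.Agent.Work.MP_395897_nt.BLem3

/-!
Fontaine's map `θ` on the image of `ℤ_p` and `ℚ_p`.
-/

open Ideal WittVector

namespace Pool.Agent.Work.MP_395897_nt

universe u

/-- Two ring homomorphisms from `ℤ_p` to a `p`-adically separated ring agree. -/
theorem padicInt_ringHom_ext {p : ℕ} [Fact p.Prime] {R : Type u} [CommRing R]
    [IsHausdorff (span {(p : R)}) R] (f g : ℤ_[p] →+* R) : f = g := by
  ext x
  rw [IsHausdorff.eq_iff_smodEq (I := span {(p : R)})]
  intro n
  simp only [smul_eq_mul, mul_top]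
  have h := PadicInt.appr_spec n x
  rw [mem_span_singleton] at h
  obtain ⟨c, hc⟩ := h
  have hx : x = (x.appr n : ℤ_[p]) + (p : ℤ_[p]) ^ n * c := by
    rw [← hc]; ring
  rw [SModEq.sub_mem]
  have e : f x - g x = (p : R) ^ n * (f c - g c) := by
    rw [hx]
    simp only [map_add, map_mul, map_pow, map_natCast]
    ring
  rw [e, span_singleton_pow]
  exact Ideal.mul_mem_right _ _ (mem_span_singleton_self _)

section general

variable (R : Type u) [CommRing R] (p : ℕ) [Fact p.Prime] [Fact ¬IsUnit (p : R)]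
variable [IsAdicComplete (span {(p : R)}) R]

/-- `θ` restricted to `ℤ_p` is any ring homomorphism `ℤ_p → R`. -/
theorem fontaineTheta_zpToWitt (g : ℤ_[p] →+* R) (x : ℤ_[p]) :
    fontaineTheta R p (zpToWitt R p x) = g x := by
  have h : (fontaineTheta R p).comp (zpToWitt R p) = g := padicInt_ringHom_ext _ _
  exact RingHom.congr_fun h x

theorem fontaineThetaInvertP_zpToWLoc (g : ℤ_[p] →+* R) (x : ℤ_[p]) :
    fontaineThetaInvertP R p (zpToWLoc R p x) = algebraMap R (Localization.Away (p : R)) (g x) := by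
  rw [zpToWLoc, RingHom.comp_apply, fontaineThetaInvertP_algebraMap, fontaineTheta_zpToWitt R p g]

/-- `θ[1/p]` restricted to `ℚ_p` is any ring homomorphism `ℚ_p → R[1/p]` extending
a ring homomorphism `ℤ_p → R`. -/
theorem fontaineThetaInvertP_qpToWLoc (g : ℤ_[p] →+* R) (G : ℚ_[p] →+* Localization.Away (p : R))
    (hG : ∀ x : ℤ_[p], G x = algebraMap R (Localization.Away (p : R)) (g x)) (x : ℚ_[p]) :
    fontaineThetaInvertP R p (qpToWLoc R p x) = G x := by
  have key : (fontaineThetaInvertP R p).comp (qpToWLoc R p) = G := by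
    refine IsLocalization.ringHom_ext (nonZeroDivisors ℤ_[p]) ?_
    ext x
    have h : algebraMap ℤ_[p] ℚ_[p] x = (x : ℚ_[p]) := rfl
    rw [RingHom.comp_apply, RingHom.comp_apply, RingHom.comp_apply, h, qpToWLoc_coe,
      fontaineThetaInvertP_zpToWLoc R p g, hG]
  exact RingHom.congr_fun key x

end general

end Pool.Agent.Work.MP_395897_nt
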