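import Mathlib
import Pool.Agent.Work.MP_395897_nt.Tate
import Pool.Agent.Work.MP_395897_nt.BInst

/-!
# The kernel of Fontaine's map `θ` for `𝓞_{ℂ_p}`
-/

open Ideal WittVector

namespace Pool.Agent.Work.MP_395897_nt

variable (p : ℕ) [Fact p.Prime]

/-- The tilt of `𝓞_{ℂ_p}`. -/
abbrev Flat : Type := PreTilt 𝓞_ℂ_[p] p

/-- `A_inf` -/
abbrev Ainf : Type := WittVector p (PreTilt 𝓞_ℂ_[p] p)

variable {p}

instance : IsDomain (Flat p) :=
  PreTilt.isDomain ℂ_[p] Valued.v 𝓞_ℂ_[p] (PadicComplexInt.integers p) p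

/-- norm on the tilt -/
noncomputable def tn (x : Flat p) : ℝ := ‖((PreTilt.untilt x : 𝓞_ℂ_[p]) : ℂ_[p])‖

theorem tn_mul (x y : Flat p) : tn (x * y) = tn x * tn y := by
  unfold tn
  rw [map_mul, ← norm_mul]
  rfl

theorem tn_pow (x : Flat p) (n : ℕ) : tn (x ^ n) = tn x ^ n := by
  unfold tn
  rw [map_pow, ← norm_pow]
  rfl

theorem coeff_zero_eq_zero_iff (x : Flat p) : PreTilt.coeff 0 x = 0 ↔ tn x ≤ (p : ℝ)⁻¹ := by
  rw [← PreTilt.mk_untilt_eq_coeff_zero, Ideal.Quotient.eq_zero_iff_mem, mem_span_singleton,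
    int_dvd_iff, natCast_int, norm_p_C]
  rfl

/-- `Perfection 𝓞 p ≃* Perfection (𝓞/p) p`, with the right types -/
noncomputable def qme : Perfection 𝓞_ℂ_[p] p ≃* Flat p :=
  Perfection.quotientMulEquiv p (span {(p : 𝓞_ℂ_[p])})

/-- the sequence of `p`-power roots of the untilt -/
noncomputable def seqP (x : Flat p) : Perfection 𝓞_ℂ_[p] p := qme.symm x

/-- the sequence of `p`-power roots of the untilt -/
noncomputable def seqc (x : Flat p) (n : ℕ) : 𝓞_ℂ_[p] :=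
  Perfection.coeffMonoidHom 𝓞_ℂ_[p] p n (seqP x)

theorem seqc_zero (x : Flat p) : seqc x 0 = PreTilt.untilt x :=
  Perfection.coeff_zero_symm_quotientMulEquiv x

theorem seqc_succ (x : Flat p) (n : ℕ) : seqc x (n + 1) ^ p = seqc x n :=
  Perfection.coeffMonoidHom_pow_p' (seqP x) n

theorem norm_seqc (x : Flat p) (n : ℕ) : ‖((seqc x n : 𝓞_ℂ_[p]) : ℂ_[p])‖ ^ (p ^ n) = tn x := by
  induction n with
  | zero => rw [seqc_zero, pow_zero, pow_one]; rfl
  | succ n ih =>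
    rw [pow_succ' p, pow_mul, ← norm_pow]
    have : ((seqc x (n + 1) : 𝓞_ℂ_[p]) : ℂ_[p]) ^ p = ((seqc x n : 𝓞_ℂ_[p]) : ℂ_[p]) := by
      rw [← seqc_succ x n]; rfl
    rw [this, ih]

/-- element of the tilt from a compatible sequence -/
noncomputable def ofSeq (f : ℕ → 𝓞_ℂ_[p]) (hf : ∀ n, f (n + 1) ^ p = f n) : Flat p :=
  qme (show Perfection 𝓞_ℂ_[p] p from ⟨f, hf⟩)

theorem seqc_ofSeq (f : ℕ → 𝓞_ℂ_[p]) (hf : ∀ n, f (n + 1) ^ p = f n) (n : ℕ) :
    seqc (ofSeq f hf) n = f n := by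
  unfold seqc seqP ofSeq
  rw [MulEquiv.symm_apply_apply]
  rfl

theorem ofSeq_seqc (x : Flat p) : ofSeq (seqc x) (seqc_succ x) = x := by
  exact MulEquiv.apply_symm_apply qme x

theorem coeff_ofSeq (f : ℕ → 𝓞_ℂ_[p]) (hf : ∀ n, f (n + 1) ^ p = f n) (n : ℕ) :
    PreTilt.coeff n (ofSeq f hf) = Ideal.Quotient.mk _ (f n) := rfl

theorem seqc_injective {x y : Flat p} (h : ∀ n, seqc x n = seqc y n) : x = y := by
  have h' : seqc x = seqc y := funext h
  rw [← ofSeq_seqc x, ← ofSeq_seqc y]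
  congr 1

theorem seqc_mul (x y : Flat p) (n : ℕ) : seqc (x * y) n = seqc x n * seqc y n := by
  unfold seqc seqP
  rw [map_mul, map_mul]

theorem tn_eq_zero {x : Flat p} (h : tn x = 0) : x = 0 := by
  have h1 : ∀ n, seqc x n = 0 := by
    intro n
    have h2 := norm_seqc x n
    rw [h] at h2
    have h3 : ‖((seqc x n : 𝓞_ℂ_[p]) : ℂ_[p])‖ = 0 :=
      eq_zero_of_pow_eq_zero h2
    exact Subtype.ext (norm_eq_zero.mp h3)
  rw [← ofSeq_seqc x]
  refine Perfection.ext fun n => ?_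
  change PreTilt.coeff n (ofSeq (seqc x) (seqc_succ x)) = PreTilt.coeff n 0
  rw [coeff_ofSeq, h1, map_zero, map_zero]

theorem flat_dvd_iff (x y : Flat p) : x ∣ y ↔ tn y ≤ tn x := by
  constructor
  · rintro ⟨z, rfl⟩
    rw [tn_mul]
    refine mul_le_of_le_one_right (norm_nonneg _) ?_
    exact (mem_int_iff _).mp (PreTilt.untilt z).2
  · intro h
    by_cases hx : tn x = 0
    · rw [hx] at h
      have hy : tn y = 0 := le_antisymm h (norm_nonneg _)
      rw [tn_eq_zero hy]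
      exact dvd_zero _
    have hxpos : 0 < tn x := lt_of_le_of_ne (norm_nonneg _) (Ne.symm hx)
    have hle : ∀ n, ‖((seqc y n : 𝓞_ℂ_[p]) : ℂ_[p])‖ ≤ ‖((seqc x n : 𝓞_ℂ_[p]) : ℂ_[p])‖ := by
      intro n
      have h1 := norm_seqc x n
      have h2 := norm_seqc y n
      rw [← h1, ← h2] at h
      exact le_of_pow_le_pow_left₀ (pow_pos (Fact.out : p.Prime).pos _).ne' (norm_nonneg _) h
    have hne : ∀ n, ((seqc x n : 𝓞_ℂ_[p]) : ℂ_[p]) ≠ 0 := by
      intro n h0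
      have h1 := norm_seqc x n
      rw [h0, norm_zero, zero_pow (pow_pos (Fact.out : p.Prime).pos _).ne'] at h1
      exact hx h1.symm
    let f : ℕ → 𝓞_ℂ_[p] := fun n => ⟨((seqc y n : 𝓞_ℂ_[p]) : ℂ_[p]) / ((seqc x n : 𝓞_ℂ_[p]) : ℂ_[p]), by
      rw [mem_int_iff, norm_div]
      exact div_le_one_of_le₀ (hle n) (norm_nonneg _)⟩
    have hf : ∀ n, f (n + 1) ^ p = f n := by
      intro n
      apply Subtype.ext
      change (((seqc y (n + 1) : 𝓞_ℂ_[p]) : ℂ_[p]) / ((seqc x (n + 1) : 𝓞_ℂ_[p]) : ℂ_[p])) ^ p =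
        ((seqc y n : 𝓞_ℂ_[p]) : ℂ_[p]) / ((seqc x n : 𝓞_ℂ_[p]) : ℂ_[p])
      rw [div_pow, ← seqc_succ y n, ← seqc_succ x n]
      rfl
    refine ⟨ofSeq f hf, seqc_injective fun n => ?_⟩
    rw [seqc_mul, seqc_ofSeq]
    apply Subtype.ext
    change _ = ((seqc x n : 𝓞_ℂ_[p]) : ℂ_[p]) *
      (((seqc y n : 𝓞_ℂ_[p]) : ℂ_[p]) / ((seqc x n : 𝓞_ℂ_[p]) : ℂ_[p]))
    have := hne n
    field_simp

/-! ### The elements `ε`, `ε^{1/p}` and `ω` -/

variable (p) in
/-- `ζ_{p^n}` as an element of `𝓞_{ℂ_p}` -/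
noncomputable def zetO (n : ℕ) : 𝓞_ℂ_[p] := ⟨(zet p n : ℂ_[p]), by
  rw [mem_int_iff, PadicComplex.norm_extends]
  exact (norm_root_of_unity (pow_pos (Fact.out : p.Prime).pos n).ne' (zet_prim n).pow_eq_one).le⟩

theorem coe_zetO (n : ℕ) : ((zetO p n : 𝓞_ℂ_[p]) : ℂ_[p]) = (zet p n : ℂ_[p]) := rfl

theorem zetO_succ_pow (n : ℕ) : zetO p (n + 1) ^ p = zetO p n := by
  apply Subtype.ext
  change ((zetO p (n + 1) : 𝓞_ℂ_[p]) : ℂ_[p]) ^ p = _
  rw [coe_zetO, coe_zetO, ← zet_succ_pow n, PadicComplex.coe_eq, PadicComplex.coe_eq, map_pow]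

theorem zetO_zero : zetO p 0 = 1 := by
  apply Subtype.ext
  rw [coe_zetO, zet_zero]
  rfl

variable (p) in
/-- `ε = (1, ζ_p, ζ_{p^2}, …)` -/
noncomputable def eps : Flat p := ofSeq (zetO p) zetO_succ_pow

variable (p) in
/-- `ε^{1/p} = (ζ_p, ζ_{p^2}, …)` -/
noncomputable def eps1 : Flat p := ofSeq (fun n => zetO p (n + 1)) (fun n => zetO_succ_pow (n + 1))

theorem seqc_pow (x : Flat p) (k n : ℕ) : seqc (x ^ k) n = seqc x n ^ k := by
  unfold seqc seqP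
  rw [map_pow, map_pow]

theorem eps1_pow : eps1 p ^ p = eps p := by
  refine seqc_injective fun n => ?_
  rw [seqc_pow, eps1, eps, seqc_ofSeq, seqc_ofSeq, zetO_succ_pow]

theorem untilt_eps1 : PreTilt.untilt (eps1 p) = zetO p 1 := by
  rw [← seqc_zero, eps1, seqc_ofSeq]

theorem untilt_eps : PreTilt.untilt (eps p) = 1 := by
  rw [← seqc_zero, eps, seqc_ofSeq, zetO_zero]

/-- untilt modulo `p^(n+1)` -/
theorem untilt_mod {x : Flat p} {y : 𝓞_ℂ_[p]} {n : ℕ}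
    (h : Ideal.Quotient.mk (span {(p : 𝓞_ℂ_[p])}) y = PreTilt.coeff n x) :
    ‖((PreTilt.untilt x : 𝓞_ℂ_[p]) : ℂ_[p]) - (y : ℂ_[p]) ^ (p ^ n)‖ ≤ ((p : ℝ)⁻¹) ^ (n + 1) := by
  have h1 : PreTilt.untilt x ≡ y ^ p ^ n [SMOD (span {(p : 𝓞_ℂ_[p])}) ^ (n + 1)] :=
    Perfection.teichmuller_sModEq h
  rw [SModEq.sub_mem, mem_pow_iff] at h1
  exact h1

theorem tn_eps1_sub_one : tn (eps1 p - 1) ^ (p - 1) = (p : ℝ)⁻¹ := by
  have hp : p.Prime := Fact.out
  have h1 := untilt_mod (x := eps1 p - 1) (y := zetO p 2 - 1) (n := 1) (by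
    rw [map_sub, map_sub, map_one, map_one]
    rfl)
  rw [pow_one] at h1
  have h2 := norm_sub_one_pow (p := p) (n := 1) (zet_prim 2)
  rw [pow_one, pow_mul] at h2
  have e1 : (((zetO p 2 - 1 : 𝓞_ℂ_[p])) : ℂ_[p]) = ((zet p 2 - 1 : PadicAlgCl p) : ℂ_[p]) := by
    rw [UniformSpace.Completion.coe_sub, UniformSpace.Completion.coe_one]
    rfl
  rw [e1] at h1
  have e2 : ‖((zet p 2 - 1 : PadicAlgCl p) : ℂ_[p]) ^ p‖ = ‖zet p 2 - 1‖ ^ p := by
    rw [norm_pow, PadicComplex.norm_extends]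
  have hlt : ((p : ℝ)⁻¹) ^ 2 < ‖zet p 2 - 1‖ ^ p := by
    by_contra hcon
    push Not at hcon
    have h3 : (‖zet p 2 - 1‖ ^ p) ^ (p - 1) ≤ (((p : ℝ)⁻¹) ^ 2) ^ (p - 1) :=
      pow_le_pow_left₀ (by positivity) hcon _
    rw [h2, ← pow_mul] at h3
    have h4 : ((p : ℝ)⁻¹) ^ (2 * (p - 1)) < ((p : ℝ)⁻¹) ^ 1 :=
      pow_lt_pow_right_of_lt_one₀ inv_p_pos inv_p_lt_one (by have := hp.two_le; omega)
    rw [pow_one] at h4
    linarith
  have h5 : tn (eps1 p - 1) = ‖zet p 2 - 1‖ ^ p := by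
    rw [← e2]
    unfold tn
    set u := ((PreTilt.untilt (eps1 p - 1) : 𝓞_ℂ_[p]) : ℂ_[p]) with hu
    set w := ((zet p 2 - 1 : PadicAlgCl p) : ℂ_[p]) ^ p with hw
    have h6 : ‖u - w‖ < ‖w‖ := lt_of_le_of_lt h1 (by rw [e2]; exact hlt)
    have h7 := IsUltrametricDist.norm_add_eq_max_of_norm_ne_norm (x := u - w) (y := w) h6.ne
    rw [sub_add_cancel, max_eq_right h6.le] at h7
    exact h7
  rw [h5, h2]

variable (p) in
/-- `ω = ∑_{i<p} [ε^{1/p}]^i`, a generator of `ker θ`. -/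
noncomputable def om : Ainf p := ∑ i ∈ Finset.range p, (teichmuller p (eps1 p)) ^ i

theorem eps1_ne_one : eps1 p ≠ 1 := by
  intro h
  have h1 := tn_eps1_sub_one (p := p)
  rw [h, sub_self] at h1
  have h2 : tn (0 : Flat p) = 0 := by
    unfold tn
    have : PreTilt.untilt (0 : Flat p) = 0 := Perfection.teichmuller_zero
    rw [this]
    exact norm_zero
  have hp : p.Prime := Fact.out
  rw [h2, zero_pow (by have := hp.two_le; omega)] at h1
  exact inv_p_pos.ne h1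

theorem constantCoeff_om : constantCoeff (om p) = (eps1 p - 1) ^ (p - 1) := by
  have hp : p.Prime := Fact.out
  have h1 : constantCoeff (om p) = ∑ i ∈ Finset.range p, eps1 p ^ i := by
    rw [om, map_sum]
    refine Finset.sum_congr rfl fun i _ => ?_
    rw [map_pow]
    congr 1
  have h2 : (∑ i ∈ Finset.range p, eps1 p ^ i) * (eps1 p - 1) = (eps1 p - 1) ^ (p - 1) *
      (eps1 p - 1) := by
    rw [geom_sum_mul, ← pow_succ, Nat.sub_add_cancel hp.one_lt.le, sub_pow_char, one_pow]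
  rw [h1]
  exact mul_right_cancel₀ (sub_ne_zero.mpr eps1_ne_one) h2

theorem tn_om : tn (constantCoeff (om p)) = (p : ℝ)⁻¹ := by
  rw [constantCoeff_om, tn_pow, tn_eps1_sub_one]

theorem theta_om : fontaineTheta 𝓞_ℂ_[p] p (om p) = 0 := by
  have hp : p.Prime := Fact.out
  rw [om, map_sum]
  have h1 : ∀ i ∈ Finset.range p, fontaineTheta 𝓞_ℂ_[p] p (teichmuller p (eps1 p) ^ i) =
      zetO p 1 ^ i := by
    intro i _
    rw [map_pow, fontaineTheta_teichmuller, untilt_eps1]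
  rw [Finset.sum_congr rfl h1]
  apply Subtype.ext
  have h2 : ∑ i ∈ Finset.range p, (zet p 1) ^ i = 0 := by
    have := zet_prim (p := p) 1
    rw [pow_one] at this
    exact this.geom_sum_eq_zero hp.one_lt
  have h3 := congrArg (algebraMap (PadicAlgCl p) ℂ_[p]) h2
  rw [map_sum, map_zero] at h3
  rw [show ((0 : 𝓞_ℂ_[p]) : ℂ_[p]) = 0 from rfl, ← h3]
  have h4 : ((∑ i ∈ Finset.range p, zetO p 1 ^ i : 𝓞_ℂ_[p]) : ℂ_[p]) =
      ∑ i ∈ Finset.range p, ((zetO p 1 ^ i : 𝓞_ℂ_[p]) : ℂ_[p]) :=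
    map_sum (𝓞_ℂ_[p].subtype) _ _
  rw [h4]
  refine Finset.sum_congr rfl fun i _ => ?_
  rw [map_pow]
  rfl

theorem natCast_ne_zero_int : (p : 𝓞_ℂ_[p]) ≠ 0 := by
  intro h
  have h1 := congrArg (fun x : 𝓞_ℂ_[p] => ‖(x : ℂ_[p])‖) h
  simp only [natCast_int, norm_p_C] at h1
  rw [show ((0 : 𝓞_ℂ_[p]) : ℂ_[p]) = 0 from rfl, norm_zero] at h1
  exact inv_p_pos.ne' h1

/-- decomposition step -/
theorem ker_step (x : Ainf p) (hx : fontaineTheta 𝓞_ℂ_[p] p x = 0) :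
    ∃ a b : Ainf p, x = om p * a + p * b ∧ fontaineTheta 𝓞_ℂ_[p] p b = 0 := by
  have h1 := mk_fontaineTheta x
  rw [hx, map_zero] at h1
  have h2 : tn (x.coeff 0) ≤ (p : ℝ)⁻¹ := (coeff_zero_eq_zero_iff _).mp h1.symm
  rw [← tn_om] at h2
  obtain ⟨a0, ha0⟩ := (flat_dvd_iff _ _).mpr h2
  have h3 : (x - om p * teichmuller p a0).coeff 0 = 0 := by
    change constantCoeff (x - om p * teichmuller p a0) = 0
    rw [map_sub, map_mul]
    have : constantCoeff (teichmuller p a0) = a0 := teichmuller_coeff_zero p a0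
    rw [this]
    change x.coeff 0 - _ = 0
    rw [ha0, sub_self]
  rw [← mem_span_p_iff_coeff_zero_eq_zero, mem_span_singleton] at h3
  obtain ⟨b, hb⟩ := h3
  refine ⟨teichmuller p a0, b, by rw [← hb]; ring, ?_⟩
  have h4 := congrArg (fontaineTheta 𝓞_ℂ_[p] p) hb
  rw [map_sub, map_mul, theta_om, zero_mul, hx, sub_zero, map_mul, map_natCast] at h4
  exact (mul_eq_zero.mp h4.symm).resolve_left natCast_ne_zero_int

/-- `ker θ = (ω)` -/
theorem ker_theta : RingHom.ker (fontaineTheta 𝓞_ℂ_[p] p) = span {om p} := by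
  refine le_antisymm (fun x hx => ?_) ?_
  swap
  · rw [span_singleton_le_iff_mem]; exact theta_om
  · let K := RingHom.ker (fontaineTheta 𝓞_ℂ_[p] p)
    let f : Ainf p →ₗ[Ainf p] K :=
      LinearMap.codRestrict K ((LinearMap.mulLeft (Ainf p) (om p))) (fun a => by
        change fontaineTheta 𝓞_ℂ_[p] p (om p * a) = 0
        rw [map_mul, theta_om, zero_mul])
    have hf : ∀ a, ((f a : K) : Ainf p) = om p * a := fun a => rfl
    have hH : IsHausdorff (span {(p : Ainf p)}) K := by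
      refine ⟨fun y hy => ?_⟩
      apply Subtype.ext
      apply IsHausdorff.haus (I := span {(p : Ainf p)}) inferInstance
      intro n
      have h1 := hy n
      rw [SModEq.zero] at h1 ⊢
      have h2 : Submodule.map K.subtype ((span {(p : Ainf p)}) ^ n • (⊤ : Submodule (Ainf p) K)) ≤
          ((span {(p : Ainf p)}) ^ n • (⊤ : Submodule (Ainf p) (Ainf p))) := by
        rw [Submodule.map_smul'']
        exact Submodule.smul_mono le_rfl le_top
      exact h2 (Submodule.mem_map_of_mem h1)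
    have hsurj : Function.Surjective f := by
      refine surjective_of_mkQ_comp_surjective (I := span {(p : Ainf p)}) ?_
      intro y
      obtain ⟨y, rfl⟩ := Submodule.mkQ_surjective _ y
      obtain ⟨a, b, hab, hb⟩ := ker_step (y : Ainf p) y.2
      refine ⟨a, ?_⟩
      rw [LinearMap.comp_apply]
      rw [← sub_eq_zero, ← map_sub, Submodule.mkQ_apply, Submodule.Quotient.mk_eq_zero]
      have h1 : f a - y = (p : Ainf p) • (-(⟨b, hb⟩ : K)) := by
        apply Subtype.ext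
        change om p * a - (y : Ainf p) = (p : Ainf p) * (-b)
        rw [hab]; ring
      rw [h1]
      exact Submodule.smul_mem_smul (mem_span_singleton_self _) trivial
    obtain ⟨a, ha⟩ := hsurj ⟨x, hx⟩
    rw [mem_span_singleton]
    refine ⟨a, ?_⟩
    have := congrArg (fun y : K => (y : Ainf p)) ha
    exact this.symm

end Pool.Agent.Work.MP_395897_nt
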