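import Mathlib
import Pool.Agent.Work.MP_395897_nt.Theta
import Pool.Agent.Work.MP_395897_nt.BQpTheta
import Pool.Agent.Work.MP_395897_nt.BInst

/-!
# Structure of `B_dR^+` and `B_dR` (Mathlib's `BDeRhamPlus` and `BDeRham`) for `𝓞_{ℂ_p}`
-/

open Ideal WittVector

namespace Pool.Agent.Work.MP_395897_nt

variable (p : ℕ) [Fact p.Prime]

/-- `A_inf[1/p]` -/
abbrev AinfP : Type := Localization.Away (p : Ainf p)

/-- the ideal `ker θ` of `A_inf[1/p]` -/
noncomputable abbrev Iker : Ideal (AinfP p) := RingHom.ker (fontaineThetaInvertP 𝓞_ℂ_[p] p)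

variable {p}

theorem natCast_ne_zero_Ainf : (p : Ainf p) ≠ 0 := by
  intro h
  have h1 := congrArg (fontaineTheta 𝓞_ℂ_[p] p) h
  rw [map_natCast, map_zero] at h1
  exact natCast_ne_zero_int h1

theorem powers_le_Ainf : Submonoid.powers (p : Ainf p) ≤ nonZeroDivisors (Ainf p) :=
  powers_le_nonZeroDivisors_of_noZeroDivisors natCast_ne_zero_Ainf

theorem powers_le_int : Submonoid.powers (p : 𝓞_ℂ_[p]) ≤ nonZeroDivisors 𝓞_ℂ_[p] :=
  powers_le_nonZeroDivisors_of_noZeroDivisors natCast_ne_zero_int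

instance : IsDomain (AinfP p) :=
  IsLocalization.isDomain_localization powers_le_Ainf

variable (p) in
/-- `ω` in `A_inf[1/p]` -/
noncomputable def omA : AinfP p := algebraMap (Ainf p) (AinfP p) (om p)

theorem om_ne_zero : om p ≠ 0 := by
  intro h
  have h1 := tn_om (p := p)
  rw [h, map_zero] at h1
  have h2 : tn (0 : Flat p) = 0 := by
    unfold tn
    have : PreTilt.untilt (0 : Flat p) = 0 := Perfection.teichmuller_zero
    rw [this]
    exact norm_zero
  rw [h2] at h1
  exact inv_p_pos.ne h1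

theorem omA_ne_zero : omA p ≠ 0 := by
  unfold omA
  intro h
  have := IsLocalization.injective (AinfP p) (powers_le_Ainf (p := p))
  exact om_ne_zero (this (by rw [h, map_zero]))

theorem thetaInvP_algebraMap (x : Ainf p) :
    fontaineThetaInvertP 𝓞_ℂ_[p] p (algebraMap (Ainf p) (AinfP p) x) =
      algebraMap 𝓞_ℂ_[p] (Localization.Away (p : 𝓞_ℂ_[p])) (fontaineTheta 𝓞_ℂ_[p] p x) := by
  unfold fontaineThetaInvertP Localization.awayLift
  rw [IsLocalization.Away.lift_eq]
  rfl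

theorem ker_thetaInvP : Iker p = span {omA p} := by
  refine le_antisymm (fun x hx => ?_) ?_
  swap
  · rw [span_singleton_le_iff_mem]
    change fontaineThetaInvertP 𝓞_ℂ_[p] p (omA p) = 0
    rw [omA, thetaInvP_algebraMap, theta_om, map_zero]
  · obtain ⟨⟨a, s⟩, has⟩ := IsLocalization.surj (Submonoid.powers (p : Ainf p)) x
    simp only at has
    have h1 : fontaineThetaInvertP 𝓞_ℂ_[p] p (algebraMap (Ainf p) (AinfP p) a) = 0 := by
      rw [← has, map_mul]
      have : fontaineThetaInvertP 𝓞_ℂ_[p] p x = 0 := hx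
      rw [this, zero_mul]
    rw [thetaInvP_algebraMap] at h1
    have h2 : fontaineTheta 𝓞_ℂ_[p] p a = 0 :=
      IsLocalization.injective (Localization.Away (p : 𝓞_ℂ_[p])) powers_le_int
        (by rw [h1, map_zero])
    have h3 : a ∈ span {om p} := by rw [← ker_theta]; exact h2
    obtain ⟨b, rfl⟩ := mem_span_singleton.mp h3
    rw [mem_span_singleton]
    have hs : IsUnit (algebraMap (Ainf p) (AinfP p) s) := IsLocalization.map_units _ s
    rw [← hs.dvd_mul_right, has, map_mul]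
    exact Dvd.intro _ rfl

/-- The underlying ring `B_dR^+`. -/
noncomputable abbrev BP (p : ℕ) [Fact p.Prime] : Type := BDeRhamPlus 𝓞_ℂ_[p] p

variable (p) in
/-- the canonical map `A_inf[1/p] → B_dR^+` -/
noncomputable def toBP : AinfP p →+* BP p :=
  algebraMap (AinfP p) (AdicCompletion (Iker p) (AinfP p))

/-- the reduction `B_dR^+ → A_inf[1/p]/(ker θ)^n` -/
noncomputable def evB (n : ℕ) : BP p →+* AinfP p ⧸ (Iker p) ^ n :=
  (AdicCompletion.evalₐ (Iker p) n).toRingHom

theorem evB_toBP (n : ℕ) (x : AinfP p) : evB n (toBP p x) = Ideal.Quotient.mk _ x :=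
  AdicCompletion.evalₐ_of (Iker p) n x

theorem evB_ext {x y : BP p} (h : ∀ n, evB n x = evB n y) : x = y :=
  AdicCompletion.ext_evalₐ (I := Iker p) (fun n => h n)

theorem evB_compat {m n : ℕ} (h : m ≤ n) (y : BP p) (b : AinfP p)
    (hb : evB n y = Ideal.Quotient.mk _ b) : evB m y = Ideal.Quotient.mk _ b := by
  obtain ⟨x, rfl⟩ := AdicCompletion.mk_surjective (Iker p) (AinfP p) y
  have h1 : evB n (AdicCompletion.mk (Iker p) (AinfP p) x) = Ideal.Quotient.mk _ (x.val n) :=
    AdicCompletion.evalₐ_mk _ n x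
  have h2 : evB m (AdicCompletion.mk (Iker p) (AinfP p) x) = Ideal.Quotient.mk _ (x.val m) :=
    AdicCompletion.evalₐ_mk _ m x
  rw [h1, Ideal.Quotient.eq] at hb
  rw [h2, ← AdicCompletion.Ideal.mk_eq_mk _ h, Ideal.Quotient.eq]
  exact Ideal.pow_le_pow_right h hb

theorem evB_zero (y : BP p) : evB 0 y = 0 := by
  obtain ⟨b, hb⟩ := Ideal.Quotient.mk_surjective (evB 0 y)
  rw [← hb, Ideal.Quotient.eq_zero_iff_mem, pow_zero, Ideal.one_eq_top]
  trivial

theorem mem_Iker_pow_iff (n : ℕ) (x : AinfP p) : x ∈ (Iker p) ^ n ↔ omA p ^ n ∣ x := by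
  rw [ker_thetaInvP, span_singleton_pow, mem_span_singleton]

/-- leading term of a nonzero element of `B_dR^+` -/
theorem exists_leading (y : BP p) (hy : y ≠ 0) :
    ∃ (i : ℕ) (a : AinfP p), evB (i + 1) y = Ideal.Quotient.mk _ (omA p ^ i * a) ∧ a ∉ Iker p := by
  classical
  have h1 : ∃ n, evB n y ≠ 0 := by
    by_contra hcon
    push Not at hcon
    exact hy (evB_ext fun n => by rw [hcon n, map_zero])
  set n := Nat.find h1 with hn
  have hn1 : evB n y ≠ 0 := Nat.find_spec h1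
  have hn0 : n ≠ 0 := by
    intro h0
    rw [h0] at hn1
    exact hn1 (evB_zero y)
  obtain ⟨i, hi⟩ := Nat.exists_eq_succ_of_ne_zero hn0
  have hi0 : evB i y = 0 := by
    by_contra hcon
    have := Nat.find_min' h1 hcon
    omega
  rw [hi] at hn1
  obtain ⟨b, hb⟩ := Ideal.Quotient.mk_surjective (evB (i + 1) y)
  have h2 := evB_compat (Nat.le_succ i) y b hb.symm
  rw [hi0] at h2
  have h3 : b ∈ (Iker p) ^ i := Ideal.Quotient.eq_zero_iff_mem.mp h2.symm
  obtain ⟨a, rfl⟩ := (mem_Iker_pow_iff i b).mp h3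
  refine ⟨i, a, hb.symm, fun ha => hn1 ?_⟩
  change evB (i + 1) y = 0
  rw [← hb, Ideal.Quotient.eq_zero_iff_mem, pow_succ]
  exact Ideal.mul_mem_mul (by rw [mem_Iker_pow_iff]) ha

/-- `ω` is not a zero divisor in `B_dR^+` -/
theorem omA_mul_eq_zero (y : BP p) (h : toBP p (omA p) * y = 0) : y = 0 := by
  refine evB_ext fun n => ?_
  obtain ⟨b, hb⟩ := Ideal.Quotient.mk_surjective (evB (n + 1) y)
  have h1 := congrArg (evB (n + 1)) h
  rw [map_mul, evB_toBP, ← hb, ← map_mul, map_zero, Ideal.Quotient.eq_zero_iff_mem,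
    mem_Iker_pow_iff] at h1
  obtain ⟨c, hc⟩ := h1
  have h2 : b = omA p ^ n * c := by
    have : omA p * b = omA p * (omA p ^ n * c) := by rw [hc]; ring
    exact mul_left_cancel₀ omA_ne_zero this
  rw [evB_compat (Nat.le_succ n) y b hb.symm, map_zero, Ideal.Quotient.eq_zero_iff_mem,
    mem_Iker_pow_iff, h2]
  exact Dvd.intro _ rfl

/-- the set of generators of `ker θ`, inside `B_dR^+` -/
theorem generator_iff (a : AinfP p) : Iker p = span {a} ↔ Associated (omA p) a := by
  rw [ker_thetaInvP, span_singleton_eq_span_singleton]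

variable (p) in
/-- the submonoid at which `B_dR` is the localisation of `B_dR^+` -/
noncomputable abbrev SB : Submonoid (BP p) := bdrSub 𝓞_ℂ_[p] p

/-- `B_dR` -/
noncomputable abbrev BB (p : ℕ) [Fact p.Prime] : Type := BDeRham 𝓞_ℂ_[p] p

theorem SB_form (s : BP p) (hs : s ∈ SB p) : ∃ (k : ℕ) (u : BP p), IsUnit u ∧
    s = toBP p (omA p) ^ k * u := by
  induction hs using Submonoid.closure_induction with
  | mem x hx =>
    obtain ⟨a, ha, rfl⟩ := hx
    obtain ⟨u, hu⟩ := (generator_iff a).mp ha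
    refine ⟨1, toBP p u, u.isUnit.map (toBP p), ?_⟩
    rw [pow_one, ← map_mul, hu]
    rfl
  | one => exact ⟨0, 1, isUnit_one, by simp⟩
  | mul x y _ _ hx hy =>
    obtain ⟨k, u, hu, rfl⟩ := hx
    obtain ⟨k', u', hu', rfl⟩ := hy
    exact ⟨k + k', u * u', hu.mul hu', by ring⟩

theorem SB_le : SB p ≤ nonZeroDivisors (BP p) := by
  intro s hs
  obtain ⟨k, u, hu, rfl⟩ := SB_form s hs
  refine mul_mem (pow_mem ?_ k) hu.mem_nonZeroDivisors
  rw [mem_nonZeroDivisors_iff_right]
  intro x hx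
  rw [mul_comm] at hx
  exact omA_mul_eq_zero x hx

theorem algebraMap_BB_injective : Function.Injective (algebraMap (BP p) (BB p)) :=
  IsLocalization.injective (BB p) (SB_le (p := p))

theorem omA_mem_SB : toBP p (omA p) ∈ SB p :=
  Submonoid.subset_closure ⟨omA p, ker_thetaInvP, rfl⟩

/-- every element of `B_dR` is of the form `y / ω^k` -/
theorem BB_form (x : BB p) : ∃ (k : ℕ) (y : BP p),
    algebraMap (BP p) (BB p) (toBP p (omA p)) ^ k * x = algebraMap (BP p) (BB p) y := by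
  obtain ⟨⟨a, s⟩, has⟩ := IsLocalization.surj (SB p) x
  simp only at has
  obtain ⟨k, u, hu, hs⟩ := SB_form (p := p) s.1 s.2
  obtain ⟨u, rfl⟩ := hu
  refine ⟨k, a * (u⁻¹ : (BP p)ˣ), ?_⟩
  rw [map_mul, ← has, hs, map_mul, map_pow]
  have h1 : algebraMap (BP p) (BB p) u * algebraMap (BP p) (BB p) (u⁻¹ : (BP p)ˣ) = 1 := by
    rw [← map_mul, Units.mul_inv, map_one]
  linear_combination (- (algebraMap (BP p) (BB p) (toBP p (omA p)) ^ k * x)) * h1

end Pool.Agent.Work.MP_395897_nt
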