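import Mathlib
import Pool.Agent.Work.MP_395897_nt.BdRStruct

/-!
# From eigenvectors in `B_dR` to eigenvectors in `ℂ_p`
-/

open Ideal WittVector

namespace Pool.Agent.Work.MP_395897_nt

variable {p : ℕ} [Fact p.Prime]

/-- the automorphism of `𝓞_{ℂ_p}` as a ring hom -/
noncomputable abbrev sO (σ : GalQp p) : 𝓞_ℂ_[p] →+* 𝓞_ℂ_[p] := (galO σ : 𝓞_ℂ_[p] →+* 𝓞_ℂ_[p])

/-- action on `A_inf` -/
noncomputable abbrev sW (σ : GalQp p) : Ainf p →+* Ainf p := wittMap p (sO σ)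

/-- action on `A_inf[1/p]` -/
noncomputable abbrev sA (σ : GalQp p) : AinfP p →+* AinfP p := locMap p (sW σ)

/-- action on `B_dR^+` -/
noncomputable abbrev sP (σ : GalQp p) : BP p →+* BP p := bdrPlusMap p (sO σ)

theorem theta_sW (σ : GalQp p) (x : Ainf p) :
    fontaineTheta 𝓞_ℂ_[p] p (sW σ x) = galO σ (fontaineTheta 𝓞_ℂ_[p] p x) :=
  fontaineTheta_wittMap p (sO σ) x

theorem mem_ker_iff (x : Ainf p) : fontaineTheta 𝓞_ℂ_[p] p x = 0 ↔ om p ∣ x := by
  rw [← mem_span_singleton, ← ker_theta, RingHom.mem_ker]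

theorem exists_w (σ : GalQp p) : ∃ w : Ainf p, sW σ (om p) = om p * w := by
  have h : fontaineTheta 𝓞_ℂ_[p] p (sW σ (om p)) = 0 := by
    rw [theta_sW, theta_om, map_zero]
  exact (mem_ker_iff _).mp h

theorem untilt_sW (σ : GalQp p) (x : Flat p) : sW σ (teichmuller p x) =
    teichmuller p (tiltMap p (sO σ) x) :=
  WittVector.map_teichmuller _ _ _

theorem seqc_tiltMap (σ : GalQp p) (x : Flat p) (n : ℕ) :
    seqc (tiltMap p (sO σ) x) n = galO σ (seqc x n) := by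
  have h : tiltMap p (sO σ) x = ofSeq (fun n => galO σ (seqc x n))
      (fun n => by rw [← map_pow, seqc_succ]) := by
    refine Perfection.ext (R := ModP 𝓞_ℂ_[p] p) (p := p) fun n => ?_
    have h1 := coeff_tiltMap p (sO σ) n x
    have h2 : PreTilt.coeff n x = Ideal.Quotient.mk _ (seqc x n) := by
      conv_lhs => rw [← ofSeq_seqc x]
      rw [coeff_ofSeq]
    rw [h2] at h1
    exact h1
  rw [h, seqc_ofSeq]

theorem om_mul : om p * (teichmuller p (eps1 p) - 1) = teichmuller p (eps p) - 1 := by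
  rw [om, geom_sum_mul, ← map_pow, eps1_pow]

/-- `σ` acts on `ζ_{p^n}` in `𝓞` by the cyclotomic character -/
theorem galO_zetO (σ : GalQp p) (n : ℕ) :
    galO σ (zetO p n) = zetO p n ^ ((kap p σ : ℤ_[p]).toZModPow n).val := by
  apply Subtype.ext
  have h := kap_spec σ (n := n) (zet p n) (zet_prim n).pow_eq_one
  have h2 : (((zetO p n ^ ((kap p σ : ℤ_[p]).toZModPow n).val : 𝓞_ℂ_[p])) : ℂ_[p]) =
      (zet p n : ℂ_[p]) ^ ((kap p σ : ℤ_[p]).toZModPow n).val := rfl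
  rw [h2, coe_galO, coe_zetO, galC_coe, h, PadicComplex.coe_eq, PadicComplex.coe_eq, map_pow]

theorem zetO_pow_add (n k : ℕ) : zetO p (n + k) ^ (p ^ k) = zetO p n := by
  induction k with
  | zero => simp
  | succ k ih => rw [← add_assoc, pow_succ' p, pow_mul, zetO_succ_pow, ih]

/-- for `n ≤ N`, `σ ζ_n = ζ_n ^ k` where `k = κ(σ) mod p^N` -/
theorem galO_zetO_le (σ : GalQp p) {n N : ℕ} (h : n ≤ N) :
    galO σ (zetO p n) = zetO p n ^ ((kap p σ : ℤ_[p]).toZModPow N).val := by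
  obtain ⟨k, rfl⟩ := Nat.exists_eq_add_of_le h
  rw [← zetO_pow_add n k, map_pow, galO_zetO, ← pow_mul, ← pow_mul, mul_comm]

/-- key computation modulo `p^N` -/
theorem key_mod (σ : GalQp p) (w : Ainf p) (hw : sW σ (om p) = om p * w) (N : ℕ) :
    ∃ m : 𝓞_ℂ_[p], fontaineTheta 𝓞_ℂ_[p] p w * galO σ (zetO p 1 - 1) =
      m * (p : 𝓞_ℂ_[p]) ^ N +
      (zetO p 1 - 1) * ((((kap p σ : ℤ_[p]).toZModPow N).val : ℕ) : 𝓞_ℂ_[p]) := by
  have hp : p.Prime := Fact.out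
  set k := ((kap p σ : ℤ_[p]).toZModPow N).val with hk
  -- inverse of `ζ_n`
  have hinv : ∀ n, zetO p n * zetO p n ^ (p ^ n - 1) = 1 := by
    intro n
    rw [← pow_succ', Nat.sub_add_cancel (pow_pos hp.pos n)]
    have := zetO_pow_add (p := p) 0 n
    rwa [zero_add, zetO_zero] at this
  let d : ℕ → 𝓞_ℂ_[p] := fun n => galO σ (zetO p n) * (zetO p n ^ (p ^ n - 1)) ^ k
  have hd : ∀ n, d (n + 1) ^ p = d n := by
    intro n
    simp only [d]
    rw [mul_pow, ← map_pow, zetO_succ_pow, ← pow_mul, mul_comm k p, pow_mul, ← pow_mul _ _ p,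
      mul_comm _ p, pow_mul, zetO_succ_pow]
    congr 2
    -- both are inverses of `ζ_n`
    have h1 : zetO p n * zetO p n ^ (p ^ (n + 1) - 1) = 1 := by
      rw [← pow_succ', Nat.sub_add_cancel (pow_pos hp.pos _), pow_succ, pow_mul]
      have := zetO_pow_add (p := p) 0 n
      rw [zero_add, zetO_zero] at this
      rw [this, one_pow]
    have h2 := hinv n
    calc zetO p n ^ (p ^ (n + 1) - 1) = (zetO p n * zetO p n ^ (p ^ n - 1)) *
          zetO p n ^ (p ^ (n + 1) - 1) := by rw [h2, one_mul]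
      _ = (zetO p n * zetO p n ^ (p ^ (n + 1) - 1)) * zetO p n ^ (p ^ n - 1) := by ring
      _ = _ := by rw [h1, one_mul]
  -- `δ` and its `p^N`-th root
  have hd' : ∀ n, d (n + 1 + N) ^ p = d (n + N) := by
    intro n
    have e : n + 1 + N = n + N + 1 := by ring
    rw [e, hd]
  set δN : Flat p := ofSeq (fun n => d (n + N)) hd' with hδN
  have hdN : ∀ n ≤ N, d n = 1 := by
    intro n hn
    simp only [d]
    rw [galO_zetO_le σ hn, ← mul_pow, hinv, one_pow]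
  have hpowd : ∀ n m, d (n + m) ^ (p ^ m) = d n := by
    intro n m
    induction m with
    | zero => simp
    | succ m ih => rw [← add_assoc, pow_succ' p, pow_mul, hd, ih]
  have hεσ : tiltMap p (sO σ) (eps p) = eps p ^ k * δN ^ (p ^ N) := by
    refine seqc_injective fun n => ?_
    rw [seqc_tiltMap, seqc_mul, seqc_pow, seqc_pow, hδN, seqc_ofSeq, eps, seqc_ofSeq]
    rw [hpowd]
    simp only [d]
    rw [mul_comm (galO σ (zetO p n)), ← mul_assoc, ← mul_pow, hinv, one_pow, one_mul]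
  have huntδ : PreTilt.untilt δN = 1 := by
    rw [← seqc_zero, hδN, seqc_ofSeq, zero_add, hdN N le_rfl]
  obtain ⟨m, hm⟩ : om p ∣ teichmuller p δN - 1 := by
    rw [← mem_ker_iff, map_sub, fontaineTheta_teichmuller, huntδ, map_one, sub_self]
  have hT : sW σ (teichmuller p (eps p) - 1) = om p *
      (teichmuller p (eps p) ^ k * (m * ∑ i ∈ Finset.range (p ^ N), teichmuller p δN ^ i) +
        (teichmuller p (eps1 p) - 1) * ∑ i ∈ Finset.range k, teichmuller p (eps p) ^ i) := by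
    rw [map_sub, map_one, untilt_sW, hεσ, map_mul, map_pow, map_pow]
    have e1 : teichmuller p δN ^ (p ^ N) = 1 + om p * m *
        ∑ i ∈ Finset.range (p ^ N), teichmuller p δN ^ i := by
      rw [← hm, mul_comm, geom_sum_mul]
      ring
    have e2 : teichmuller p (eps p) ^ k = 1 + om p * (teichmuller p (eps1 p) - 1) *
        ∑ i ∈ Finset.range k, teichmuller p (eps p) ^ i := by
      rw [om_mul, mul_comm, geom_sum_mul]
      ring
    rw [e1]
    linear_combination e2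
  rw [← om_mul, map_mul, hw, mul_assoc] at hT
  have hT2 := mul_left_cancel₀ om_ne_zero hT
  have hT3 := congrArg (fontaineTheta 𝓞_ℂ_[p] p) hT2
  simp only [map_mul, map_add, map_sum, map_pow, map_sub, map_one, theta_sW,
    fontaineTheta_teichmuller, untilt_eps, untilt_eps1, huntδ, one_pow, Finset.sum_const,
    Finset.card_range, nsmul_eq_mul, mul_one, one_mul] at hT3
  refine ⟨fontaineTheta 𝓞_ℂ_[p] p m, ?_⟩
  rw [map_sub, map_one, hT3]
  push_cast
  ring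

/-- `θ(w) σ(ζ_p - 1) = κ(σ) (ζ_p - 1)` in `ℂ_p` -/
theorem theta_w (σ : GalQp p) (w : Ainf p) (hw : sW σ (om p) = om p * w) :
    ((fontaineTheta 𝓞_ℂ_[p] p w : 𝓞_ℂ_[p]) : ℂ_[p]) * galC σ ((zet p 1 - 1 : PadicAlgCl p) : ℂ_[p]) =
      kapC σ * ((zet p 1 - 1 : PadicAlgCl p) : ℂ_[p]) := by
  rw [← sub_eq_zero, ← norm_le_zero_iff]
  have h3 := tendsto_pow_atTop_nhds_zero_of_lt_one inv_p_pos.le (inv_p_lt_one (p := p))
  refine ge_of_tendsto' h3 fun N => ?_
  obtain ⟨m, hm⟩ := key_mod σ w hw N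
  have hm' := congrArg (fun x : 𝓞_ℂ_[p] => (x : ℂ_[p])) hm
  set k := ((kap p σ : ℤ_[p]).toZModPow N).val with hk
  have e1 : (((fontaineTheta 𝓞_ℂ_[p] p w * galO σ (zetO p 1 - 1) : 𝓞_ℂ_[p])) : ℂ_[p]) =
      ((fontaineTheta 𝓞_ℂ_[p] p w : 𝓞_ℂ_[p]) : ℂ_[p]) *
        galC σ ((zet p 1 - 1 : PadicAlgCl p) : ℂ_[p]) := by
    rw [UniformSpace.Completion.coe_sub, UniformSpace.Completion.coe_one]
    rfl
  have e2 : (((m * (p : 𝓞_ℂ_[p]) ^ N + (zetO p 1 - 1) * ((k : ℕ) : 𝓞_ℂ_[p]) : 𝓞_ℂ_[p])) : ℂ_[p]) =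
      (m : ℂ_[p]) * (p : ℂ_[p]) ^ N + ((zet p 1 - 1 : PadicAlgCl p) : ℂ_[p]) * (k : ℂ_[p]) := by
    rw [UniformSpace.Completion.coe_sub, UniformSpace.Completion.coe_one]
    rfl
  simp only [e1, e2] at hm'
  rw [hm']
  have hkap : ‖(k : ℂ_[p]) - kapC σ‖ ≤ ((p : ℝ)⁻¹) ^ N := by
    have h1 : (kap p σ : ℤ_[p]) - (k : ℤ_[p]) ∈ (span {(p : ℤ_[p]) ^ N}) := by
      rw [← PadicInt.ker_toZModPow, RingHom.mem_ker, map_sub, map_natCast, hk,
        ZMod.natCast_val, ZMod.cast_id, sub_self]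
    rw [← PadicInt.norm_le_pow_iff_mem_span_pow] at h1
    have e3 : (k : ℂ_[p]) - kapC σ = - algebraMap ℚ_[p] ℂ_[p]
        ((((kap p σ : ℤ_[p]) - (k : ℤ_[p]) : ℤ_[p])) : ℚ_[p]) := by
      rw [PadicInt.coe_sub, map_sub, PadicInt.coe_natCast, map_natCast, kapC]
      ring
    rw [e3, norm_neg]
    have e4 : ∀ c : ℚ_[p], ‖algebraMap ℚ_[p] ℂ_[p] c‖ = ‖c‖ := fun c => by
      rw [show algebraMap ℚ_[p] ℂ_[p] c = ((algebraMap ℚ_[p] (PadicAlgCl p) c : PadicAlgCl p) :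
          ℂ_[p]) from rfl, PadicComplex.norm_extends, norm_algebraMap']
    rw [e4]
    refine h1.trans ?_
    rw [inv_pow, zpow_neg, zpow_natCast]
  have e5 : (m : ℂ_[p]) * (p : ℂ_[p]) ^ N + ((zet p 1 - 1 : PadicAlgCl p) : ℂ_[p]) * (k : ℂ_[p]) -
      kapC σ * ((zet p 1 - 1 : PadicAlgCl p) : ℂ_[p]) = (m : ℂ_[p]) * (p : ℂ_[p]) ^ N +
      ((zet p 1 - 1 : PadicAlgCl p) : ℂ_[p]) * ((k : ℂ_[p]) - kapC σ) := by ring
  rw [e5]
  refine (IsUltrametricDist.norm_add_le_max _ _).trans (max_le ?_ ?_)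
  · rw [norm_mul, norm_pow, norm_p_C]
    exact mul_le_of_le_one_left (pow_nonneg inv_p_pos.le _) ((mem_int_iff _).mp m.2)
  · rw [norm_mul]
    have h4 : ‖((zet p 1 - 1 : PadicAlgCl p) : ℂ_[p])‖ ≤ 1 := by
      rw [PadicComplex.norm_extends]
      exact (norm_sub_one_lt_one (n := 0) (zet_prim 1)).le
    calc _ ≤ 1 * ((p : ℝ)⁻¹) ^ N := mul_le_mul h4 hkap (norm_nonneg _) zero_le_one
      _ = _ := one_mul _

/-- `θ : A_inf → ℂ_p` -/
noncomputable def thC0 (p : ℕ) [Fact p.Prime] : Ainf p →+* ℂ_[p] :=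
  (𝓞_ℂ_[p].subtype).comp (fontaineTheta 𝓞_ℂ_[p] p)

theorem natCast_C_ne_zero : (p : ℂ_[p]) ≠ 0 := by
  exact_mod_cast (Fact.out : p.Prime).ne_zero

/-- `θ : A_inf[1/p] → ℂ_p` -/
noncomputable def thC (p : ℕ) [Fact p.Prime] : AinfP p →+* ℂ_[p] :=
  IsLocalization.Away.lift (p : Ainf p) (g := thC0 p) (by
    rw [map_natCast]
    exact isUnit_iff_ne_zero.mpr natCast_C_ne_zero)

theorem thC_algebraMap (x : Ainf p) : thC p (algebraMap (Ainf p) (AinfP p) x) =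
    ((fontaineTheta 𝓞_ℂ_[p] p x : 𝓞_ℂ_[p]) : ℂ_[p]) := by
  unfold thC
  rw [IsLocalization.Away.lift_eq]
  rfl

theorem thC_eq_zero_iff (x : AinfP p) : thC p x = 0 ↔ x ∈ Iker p := by
  constructor
  · intro h
    obtain ⟨⟨a, s⟩, has⟩ := IsLocalization.surj (Submonoid.powers (p : Ainf p)) x
    simp only at has
    have h1 : thC p (algebraMap (Ainf p) (AinfP p) a) = 0 := by rw [← has, map_mul, h, zero_mul]
    rw [thC_algebraMap] at h1
    have h2 : fontaineTheta 𝓞_ℂ_[p] p a = 0 := Subtype.ext h1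
    obtain ⟨b, rfl⟩ := (mem_ker_iff a).mp h2
    rw [ker_thetaInvP, mem_span_singleton]
    have hs : IsUnit (algebraMap (Ainf p) (AinfP p) s) := IsLocalization.map_units _ s
    rw [← hs.dvd_mul_right, has, map_mul]
    exact Dvd.intro _ rfl
  · intro h
    rw [ker_thetaInvP, mem_span_singleton] at h
    obtain ⟨b, rfl⟩ := h
    rw [map_mul, omA, thC_algebraMap, theta_om]
    exact zero_mul _

theorem thC_sA (σ : GalQp p) (x : AinfP p) : thC p (sA σ x) = galC σ (thC p x) := by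
  have key : (thC p).comp (sA σ) = ((galC σ : ℂ_[p] ≃+* ℂ_[p]) : ℂ_[p] →+* ℂ_[p]).comp (thC p) := by
    refine IsLocalization.ringHom_ext (Submonoid.powers (p : Ainf p)) ?_
    ext a
    rw [RingHom.comp_apply, RingHom.comp_apply, RingHom.comp_apply, RingHom.comp_apply,
      locMap_algebraMap, thC_algebraMap, theta_sW, thC_algebraMap]
    rfl
  exact RingHom.congr_fun key x

theorem thC_qp (c : ℚ_[p]) : thC p (qpToWLoc 𝓞_ℂ_[p] p c) = algebraMap ℚ_[p] ℂ_[p] c := by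
  have key : (thC p).comp (qpToWLoc 𝓞_ℂ_[p] p) = algebraMap ℚ_[p] ℂ_[p] := by
    refine IsLocalization.ringHom_ext (nonZeroDivisors ℤ_[p]) ?_
    ext x
    have h : algebraMap ℤ_[p] ℚ_[p] x = (x : ℚ_[p]) := rfl
    let g : ℤ_[p] →+* 𝓞_ℂ_[p] := ((algebraMap ℚ_[p] ℂ_[p]).comp (algebraMap ℤ_[p] ℚ_[p])).codRestrict
      𝓞_ℂ_[p] (fun x => by
        rw [mem_int_iff, RingHom.comp_apply]
        have e4 : ∀ c : ℚ_[p], ‖algebraMap ℚ_[p] ℂ_[p] c‖ = ‖c‖ := fun c => by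
          rw [show algebraMap ℚ_[p] ℂ_[p] c = ((algebraMap ℚ_[p] (PadicAlgCl p) c : PadicAlgCl p) :
              ℂ_[p]) from rfl, PadicComplex.norm_extends, norm_algebraMap']
        rw [e4]
        exact PadicInt.norm_le_one x)
    rw [RingHom.comp_apply, RingHom.comp_apply, RingHom.comp_apply, h, qpToWLoc_coe, zpToWLoc,
      RingHom.comp_apply]
    have h5 := thC_algebraMap (zpToWitt 𝓞_ℂ_[p] p x)
    rw [fontaineTheta_zpToWitt 𝓞_ℂ_[p] p g x] at h5
    exact h5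
  exact RingHom.congr_fun key c

theorem evB_sP (σ : GalQp p) (n : ℕ) (y : BP p) (b : AinfP p)
    (hb : evB n y = Ideal.Quotient.mk _ b) : evB n (sP σ y) = Ideal.Quotient.mk _ (sA σ b) := by
  have h := evalₐ_adicMap (kerTheta 𝓞_ℂ_[p] p) (sA σ) (kerTheta_le p (sO σ)) n y
  have h2 : evB n (sP σ y) = Ideal.quotientMap ((kerTheta 𝓞_ℂ_[p] p) ^ n) (sA σ)
    (pow_le_comap_pow (kerTheta 𝓞_ℂ_[p] p) (kerTheta_le p (sO σ)) n) (evB n y) := h
  rw [h2, hb, Ideal.quotientMap_mk]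

theorem sP_toBP (σ : GalQp p) (x : AinfP p) : sP σ (toBP p x) = toBP p (sA σ x) :=
  bdrPlusMap_of p (sO σ) x

theorem omA_unit_BB : IsUnit (algebraMap (BP p) (BB p) (toBP p (omA p))) :=
  IsLocalization.map_units (M := SB p) (BB p) ⟨_, omA_mem_SB⟩

/-- An eigenvector in `B_dR` for a character with values in `ℚ_p` yields an eigenvector in `ℂ_p` for
the product of this character and a power of the cyclotomic character. -/
theorem bdr_eigen (H : Subgroup (GalQp p)) (c : GalQp p → ℚ_[p]) (b : BB p) (hb : b ≠ 0)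
    (hc : ∀ σ ∈ H, bdrMap p (galO σ) b = algebraMap ℚ_[p] (BB p) (c σ) * b) :
    ∃ z : ℂ_[p], z ≠ 0 ∧ ∃ m : ℤ, ∀ σ ∈ H,
      galC σ z = algebraMap ℚ_[p] ℂ_[p] (c σ) * kapC σ ^ m * z := by
  obtain ⟨k, y, hy⟩ := BB_form b
  have hy0 : y ≠ 0 := by
    intro h
    rw [h, map_zero] at hy
    exact hb ((omA_unit_BB.pow k).mul_right_eq_zero.mp hy)
  obtain ⟨i, a, hia, ha⟩ := exists_leading y hy0
  set π : ℂ_[p] := ((zet p 1 - 1 : PadicAlgCl p) : ℂ_[p]) with hπ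
  have hπ0 : π ≠ 0 := by
    rw [← norm_pos_iff, hπ, PadicComplex.norm_extends]
    exact norm_sub_one_pos (n := 0) (zet_prim 1)
  have ha0 : thC p a ≠ 0 := fun h => ha ((thC_eq_zero_iff a).mp h)
  refine ⟨thC p a * π ^ ((k : ℤ) - i), mul_ne_zero ha0 (zpow_ne_zero _ hπ0), (k : ℤ) - i,
    fun σ hσ => ?_⟩
  obtain ⟨w, hw⟩ := exists_w (p := p) σ
  set v : AinfP p := algebraMap (Ainf p) (AinfP p) w with hv
  have hsom : sA σ (omA p) = omA p * v := by
    rw [omA, locMap_algebraMap, hw, map_mul]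
  -- equation in `B_dR^+`
  have h1 : sP σ y = toBP p (v ^ k * qpToWLoc 𝓞_ℂ_[p] p (c σ)) * y := by
    apply algebraMap_BB_injective
    have h2 := bdrMap_algebraMap p (galO σ) y
    have h3 : bdrMap p (galO σ) (algebraMap (BP p) (BB p) y) = algebraMap (BP p) (BB p) (sP σ y) := h2
    rw [← h3, ← hy, map_mul, map_pow, hc σ hσ]
    have h4 : bdrMap p (galO σ) (algebraMap (BP p) (BB p) (toBP p (omA p))) =
        algebraMap (BP p) (BB p) (toBP p (omA p)) * algebraMap (BP p) (BB p) (toBP p v) := by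
      have h5 : bdrMap p (galO σ) (algebraMap (BP p) (BB p) (toBP p (omA p))) =
        algebraMap (BP p) (BB p) (sP σ (toBP p (omA p))) := bdrMap_algebraMap p (galO σ) _
      rw [h5, sP_toBP, hsom, map_mul, map_mul]
    rw [h4]
    have h6 : algebraMap ℚ_[p] (BB p) (c σ) =
        algebraMap (BP p) (BB p) (toBP p (qpToWLoc 𝓞_ℂ_[p] p (c σ))) := rfl
    rw [h6, map_mul, map_mul, map_mul, map_pow, map_pow, ← hy]
    ring
  have h7 := evB_sP σ (i + 1) y _ hia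
  rw [h1, map_mul, evB_toBP, hia, ← map_mul, Ideal.Quotient.eq, mem_Iker_pow_iff] at h7
  have h8 : v ^ k * qpToWLoc 𝓞_ℂ_[p] p (c σ) * a - v ^ i * sA σ a ∈ Iker p := by
    rw [ker_thetaInvP, mem_span_singleton]
    obtain ⟨e, he⟩ := h7
    refine ⟨e, ?_⟩
    have : omA p ^ i * (v ^ k * qpToWLoc 𝓞_ℂ_[p] p (c σ) * a - v ^ i * sA σ a) =
        omA p ^ i * (omA p * e) := by
      rw [← mul_assoc _ (omA p) e, ← pow_succ, ← he, map_mul, map_pow, hsom]
      ring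
    exact mul_left_cancel₀ (pow_ne_zero _ omA_ne_zero) this
  rw [← thC_eq_zero_iff, map_sub, sub_eq_zero, map_mul, map_mul, map_mul, map_pow, map_pow,
    thC_sA, thC_qp] at h8
  -- the unit `V = θ(w)`
  have hV := theta_w σ w hw
  rw [← thC_algebraMap, ← hv, ← hπ] at hV
  set V := thC p v with hVdef
  have hσπ : galC σ π ≠ 0 := by
    intro h
    exact hπ0 ((map_eq_zero _).mp h)
  have hV0 : V ≠ 0 := by
    intro h
    rw [h, zero_mul] at hV
    exact (mul_ne_zero (kapC_ne_zero σ) hπ0) hV.symm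
  have hVeq : V = kapC σ * π / galC σ π := by
    rw [eq_div_iff hσπ, hV]
  have h9 : galC σ (thC p a) = V ^ ((k : ℤ) - i) * algebraMap ℚ_[p] ℂ_[p] (c σ) * thC p a := by
    rw [zpow_sub₀ hV0, zpow_natCast, zpow_natCast]
    have hVi := pow_ne_zero i hV0
    field_simp
    rw [mul_comm (galC σ (thC p a)), ← h8]
  rw [map_mul, map_zpow₀, h9, hVeq, div_zpow, mul_zpow]
  have hz := zpow_ne_zero ((k : ℤ) - i) hσπ
  field_simp

end Pool.Agent.Work.MP_395897_nt
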