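import Mathlib
import Pool.Agent.Work.MP_395897_nt.Gr
import Pool.Agent.Work.MP_395897_nt.Defs

/-!
# A one dimensional representation whose square is the inverse cyclotomic character (up to finite
order) is not de Rham
-/

open Ideal WittVector TensorProduct

namespace Pool.Agent.Work.MP_395897_nt

section core

variable {p : ℕ} [Fact p.Prime]

theorem norm_algebraMap_C (c : ℚ_[p]) : ‖algebraMap ℚ_[p] ℂ_[p] c‖ = ‖c‖ := by
  rw [show algebraMap ℚ_[p] ℂ_[p] c = ((algebraMap ℚ_[p] (PadicAlgCl p) c : PadicAlgCl p) :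
      ℂ_[p]) from rfl, PadicComplex.norm_extends, norm_algebraMap']

/-- No nonzero element of `B_dR` is an eigenvector for a square root of the cyclotomic character. -/
theorem bdr_core (H : Subgroup (GalQp p)) [H.FiniteIndex] (c : GalQp p → ℚ_[p])
    (hc2 : ∀ σ ∈ H, (c σ) ^ 2 = ((kap p σ : ℤ_[p]) : ℚ_[p])) (b : BdR p)
    (hb : ∀ σ ∈ H, galBdR σ b = algebraMap ℚ_[p] (BdR p) (c σ) * b) : b = 0 := by
  by_contra hb0
  obtain ⟨z, hz0, m, hz⟩ := bdr_eigen H c b hb0 hb
  have h1 : z ^ 2 = 0 := by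
    refine tate H (z ^ 2) (2 * m + 1) (by omega) fun σ hσ => ?_
    rw [map_pow, hz σ hσ]
    have h2 : algebraMap ℚ_[p] ℂ_[p] (c σ) ^ 2 = kapC σ := by
      rw [← map_pow, hc2 σ hσ, kapC]
    rw [mul_pow, mul_pow, h2, zpow_add₀ (kapC_ne_zero σ), zpow_one, zpow_mul, zpow_ofNat,
      ← zpow_natCast (kapC σ ^ m), ← zpow_natCast (kapC σ), ← zpow_mul, ← zpow_mul]
    push_cast
    ring_nf
  exact hz0 (pow_eq_zero_iff (two_ne_zero) |>.mp h1)

/-- `B_dR ⊗ ℚ̄_p` as a tensor product -/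
abbrev TenBdR (p : ℕ) [Fact p.Prime] : Type := BdR p ⊗[ℚ_[p]] PadicAlgCl p

/-- coordinates in `B_dR ⊗ ℚ̄_p` -/
noncomputable abbrev coefBasis (p : ℕ) [Fact p.Prime] :
    Module.Basis (Module.Basis.ofVectorSpaceIndex ℚ_[p] (PadicAlgCl p)) (BdR p) (TenBdR p) :=
  Algebra.TensorProduct.basis (BdR p) (Module.Basis.ofVectorSpace ℚ_[p] (PadicAlgCl p))

/-- the action on the tensor product -/
noncomputable abbrev tenAct (σ : GalQp p) : TenBdR p →ₐ[ℚ_[p]] TenBdR p :=
  Algebra.TensorProduct.map (galBdR σ) (AlgHom.id ℚ_[p] (PadicAlgCl p))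

theorem repr_tenAct (σ : GalQp p) (x : TenBdR p) (i) :
    (coefBasis p).repr (tenAct σ x) i = galBdR σ ((coefBasis p).repr x i) := by
  induction x using TensorProduct.induction_on with
  | zero => simp
  | tmul b a =>
    have h1 : tenAct σ (b ⊗ₜ[ℚ_[p]] a) = (galBdR σ b) ⊗ₜ[ℚ_[p]] a := rfl
    rw [h1, coefBasis, Algebra.TensorProduct.basis_repr_tmul, Algebra.TensorProduct.basis_repr_tmul]
    simp only [Finsupp.smul_apply, Finsupp.mapRange_apply, smul_eq_mul, map_mul]
    rw [AlgHom.commutes]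
  | add x y hx hy => rw [map_add, map_add, map_add, Finsupp.add_apply, Finsupp.add_apply, hx, hy,
      map_add]

theorem ten_core (H : Subgroup (GalQp p)) [H.FiniteIndex] (c : GalQp p → ℚ_[p])
    (hc2 : ∀ σ ∈ H, (c σ) ^ 2 = ((kap p σ : ℤ_[p]) : ℚ_[p])) (x : TenBdR p)
    (hx : ∀ σ ∈ H, tenAct σ x = algebraMap ℚ_[p] (TenBdR p) (c σ) * x) : x = 0 := by
  apply (coefBasis p).repr.injective
  ext i
  rw [map_zero, Finsupp.zero_apply]
  refine bdr_core H c hc2 _ fun σ hσ => ?_
  rw [← repr_tenAct, hx σ hσ]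
  have h1 : algebraMap ℚ_[p] (TenBdR p) (c σ) * x =
      (algebraMap ℚ_[p] (BdR p) (c σ)) • x := by
    rw [Algebra.smul_def]
    rfl
  rw [h1, map_smul, Finsupp.smul_apply, smul_eq_mul]

theorem coefMk_algebraMap (c : ℚ_[p]) :
    coefMk (1 : BdR p) (algebraMap ℚ_[p] (PadicAlgCl p) c) =
      (show CoefBdR p from algebraMap ℚ_[p] (TenBdR p) c) := by
  change (1 : BdR p) ⊗ₜ[ℚ_[p]] (algebraMap ℚ_[p] (PadicAlgCl p) c) = algebraMap ℚ_[p] (TenBdR p) c
  rw [Algebra.TensorProduct.algebraMap_apply, Algebra.algebraMap_eq_smul_one,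
    Algebra.algebraMap_eq_smul_one, TensorProduct.tmul_smul, TensorProduct.smul_tmul']

theorem coefMk_inv_mul (c : ℚ_[p]) (hc : c ≠ 0) :
    coefMk 1 (algebraMap ℚ_[p] (PadicAlgCl p) c⁻¹) *
      coefMk 1 (algebraMap ℚ_[p] (PadicAlgCl p) c) = (1 : CoefBdR p) := by
  rw [coefMk_algebraMap, coefMk_algebraMap]
  have h : algebraMap ℚ_[p] (TenBdR p) c⁻¹ * algebraMap ℚ_[p] (TenBdR p) c = 1 := by
    rw [← map_mul, inv_mul_cancel₀ hc, map_one]
  exact h

theorem coef_core (H : Subgroup (GalQp p)) [H.FiniteIndex] (c : GalQp p → ℚ_[p])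
    (hc2 : ∀ σ ∈ H, (c σ) ^ 2 = ((kap p σ : ℤ_[p]) : ℚ_[p])) (x : CoefBdR p)
    (hx : ∀ σ ∈ H, coefAct σ x = coefMk 1 (algebraMap ℚ_[p] (PadicAlgCl p) (c σ)) * x) : x = 0 := by
  refine ten_core H c hc2 x fun σ hσ => ?_
  have h1 := hx σ hσ
  rw [coefMk_algebraMap] at h1
  exact h1

instance : Nontrivial (BdR p) := by
  refine ⟨⟨1, 0, fun h => ?_⟩⟩
  have h1 : algebraMap (BP p) (BB p) 1 = algebraMap (BP p) (BB p) 0 := by
    rw [map_one, map_zero]; exact h
  have h2 := algebraMap_BB_injective h1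
  have h3 := congrArg (evB 1) h2
  rw [map_one, map_zero] at h3
  have h4 : (1 : AinfP p) ∈ (Iker p) ^ 1 := by
    rw [← Ideal.Quotient.eq_zero_iff_mem, map_one, h3]
  rw [pow_one, ← thC_eq_zero_iff, map_one] at h4
  exact one_ne_zero h4

instance : Nontrivial (TenBdR p) := by
  have hne : Nonempty (Module.Basis.ofVectorSpaceIndex ℚ_[p] (PadicAlgCl p)) :=
    (Module.Basis.ofVectorSpace ℚ_[p] (PadicAlgCl p)).index_nonempty
  obtain ⟨i⟩ := hne
  exact ⟨⟨coefBasis p i, 0, (coefBasis p).ne_zero i⟩⟩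

instance : Nontrivial (CoefBdR p) := (inferInstance : Nontrivial (TenBdR p))

end core

section numberField

universe u

variable {F : Type u} [Field F] {l : ℕ} [Fact l.Prime]

/-- the subgroup of `σ` fixing `ι(F)` -/
def fixF (ι : AlgebraicClosure F →+* PadicAlgCl l) : Subgroup (GalQp l) where
  carrier := {σ | ∀ x : F, σ (ι (algebraMap F (AlgebraicClosure F) x)) =
    ι (algebraMap F (AlgebraicClosure F) x)}
  mul_mem' := by
    intro a b ha hb x
    rw [AlgEquiv.mul_apply, hb, ha]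
  one_mem' := fun x => rfl
  inv_mem' := by
    intro a ha x
    have h := ha x
    calc a⁻¹ (ι (algebraMap F (AlgebraicClosure F) x)) =
        a⁻¹ (a (ι (algebraMap F (AlgebraicClosure F) x))) := by rw [h]
      _ = _ := by rw [← AlgEquiv.mul_apply, inv_mul_cancel, AlgEquiv.one_apply]

theorem exists_restricts (ι : AlgebraicClosure F →+* PadicAlgCl l) (σ : GalQp l)
    (hσ : σ ∈ fixF ι) : ∃ s : GalF F, Restricts ι σ s := by
  let : Algebra (AlgebraicClosure F) (PadicAlgCl l) := ι.toAlgebra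
  let : Algebra F (PadicAlgCl l) := (ι.comp (algebraMap F (AlgebraicClosure F))).toAlgebra
  have : IsScalarTower F (AlgebraicClosure F) (PadicAlgCl l) :=
    IsScalarTower.of_algebraMap_eq fun x => rfl
  let σ' : PadicAlgCl l ≃ₐ[F] PadicAlgCl l :=
    AlgEquiv.ofRingEquiv (f := (σ : PadicAlgCl l ≃+* PadicAlgCl l)) hσ
  refine ⟨σ'.restrictNormal (AlgebraicClosure F), fun x => ?_⟩
  exact AlgEquiv.restrictNormal_commutes σ' (AlgebraicClosure F) x

theorem fixF_finiteIndex [NumberField F] (ι : AlgebraicClosure F →+* PadicAlgCl l) :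
    (fixF ι).FiniteIndex := by
  -- `K` is generated over `ℚ_l` by the image of a basis of `F`
  let b := Module.finBasis ℚ F
  let S : Set (PadicAlgCl l) := Set.range fun i => ι (algebraMap F (AlgebraicClosure F) (b i))
  let K := IntermediateField.adjoin ℚ_[l] S
  have : FiniteDimensional ℚ_[l] K :=
    IntermediateField.finiteDimensional_adjoin (fun x _ => (Algebra.IsAlgebraic.isAlgebraic x).isIntegral)
  have hle : K.fixingSubgroup ≤ fixF ι := by
    intro σ hσ x
    have hx : ι (algebraMap F (AlgebraicClosure F) x) ∈ K := by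
      rw [← b.sum_repr x, map_sum, map_sum]
      refine sum_mem fun i _ => ?_
      have h1 : ι (algebraMap F (AlgebraicClosure F) (b.repr x i • b i)) =
          ((b.repr x i : ℚ) : PadicAlgCl l) * ι (algebraMap F (AlgebraicClosure F) (b i)) := by
        rw [Algebra.smul_def, map_mul, map_mul, eq_ratCast, map_ratCast, map_ratCast]
      rw [h1]
      refine mul_mem ?_ (IntermediateField.subset_adjoin _ _ ⟨i, rfl⟩)
      exact SubfieldClass.ratCast_mem K _
    exact hσ ⟨_, hx⟩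
  have hopen : IsOpen (K.fixingSubgroup : Set (GalQp l)) := K.fixingSubgroup_isOpen
  have : Finite (GalQp l ⧸ K.fixingSubgroup) := K.fixingSubgroup.quotient_finite_of_isOpen hopen
  have : K.fixingSubgroup.FiniteIndex := Subgroup.finiteIndex_of_finite_quotient
  exact Subgroup.finiteIndex_of_le hle

/-- A one dimensional representation which, on a finite index subgroup of the decomposition group,
takes values `c` in `ℚ_l` with `c² κ = 1` is not de Rham. -/
theorem not_isDeRhamAt (ρ : GalRep F l 1) (ι : AlgebraicClosure F →+* PadicAlgCl l)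
    (H : Subgroup (GalQp l)) [H.FiniteIndex] (c : GalQp l → ℚ_[l])
    (hc : ∀ σ ∈ H, (c σ) ^ 2 * ((kap l σ : ℤ_[l]) : ℚ_[l]) = 1)
    (hρ : ∀ σ ∈ H, ∃ s : GalF F, Restricts ι σ s ∧
      ρ.mat s 0 0 = algebraMap ℚ_[l] (PadicAlgCl l) (c σ)) : ¬ ρ.IsDeRhamAt ι := by
  intro hdR
  have hzero : ∀ x ∈ ρ.DdR ι, x = 0 := by
    intro x hx
    funext i
    have hi : i = 0 := Subsingleton.elim _ _
    subst hi
    refine coef_core H (fun σ => (c σ)⁻¹) (fun σ hσ => ?_) _ fun σ hσ => ?_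
    · have h1 := hc σ hσ
      have h2 : c σ ≠ 0 := by
        intro h0
        rw [h0] at h1
        norm_num at h1
      rw [inv_pow]
      field_simp
      exact h1.symm
    · obtain ⟨s, hs, hcs⟩ := hρ σ hσ
      have h1 := congrFun (hx σ s hs) 0
      simp only [GalRep.diagAct, Finset.univ_unique, Fin.default_eq_zero, Finset.sum_singleton,
        hcs] at h1
      have h3 := hc σ hσ
      have h4 : c σ ≠ 0 := by
        intro h0
        rw [h0] at h3
        norm_num at h3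
      have h5 := coefMk_inv_mul (c σ) h4
      calc coefAct σ (x 0) = (coefMk 1 (algebraMap ℚ_[l] (PadicAlgCl l) (c σ)⁻¹) *
          coefMk 1 (algebraMap ℚ_[l] (PadicAlgCl l) (c σ))) * coefAct σ (x 0) := by
            rw [h5, one_mul]
        _ = coefMk 1 (algebraMap ℚ_[l] (PadicAlgCl l) (c σ)⁻¹) * x 0 := by
            rw [mul_assoc, h1]
  have hspan : Submodule.span (CoefBdR l) (ρ.DdR ι) = ⊥ := by
    rw [Submodule.span_eq_bot]
    exact hzero
  rw [GalRep.IsDeRhamAt, hspan] at hdR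
  have h1 : (fun _ => 1 : Fin 1 → CoefBdR l) ∈ (⊥ : Submodule (CoefBdR l) (Fin 1 → CoefBdR l)) := by
    rw [hdR]; trivial
  rw [Submodule.mem_bot] at h1
  exact one_ne_zero (congrFun h1 0)

/-- embeddings `F̄ → ℚ̄_l` exist -/
theorem exists_embedding [NumberField F] : Nonempty (AlgebraicClosure F →+* PadicAlgCl l) := by
  have : Algebra.IsAlgebraic ℚ (AlgebraicClosure F) := Algebra.IsAlgebraic.trans ℚ F _
  exact ⟨(IsAlgClosed.lift (R := ℚ) (S := AlgebraicClosure F) (M := PadicAlgCl l)).toRingHom⟩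

end numberField

end Pool.Agent.Work.MP_395897_nt
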