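import Mathlib
import Pool.Agent.Work.MP_395897_nt.DeRham
import Pool.Agent.Work.MP_395897_nt.Cond2

/-!
# Assembly: the inverse half-cyclotomic character is not de Rham at any place above `l`
-/

open NumberField IsDedekindDomain

namespace Pool.Agent.Work.MP_395897_nt

universe u

variable {F : Type u} [Field F] [NumberField F] {l : ℕ} [Fact l.Prime]

theorem halfRep_mat (ψ : ℤ_[l]ˣ →* (PadicAlgCl l)ˣ) (hψ : Continuous ψ) (s : GalF F) :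
    (halfRep F ψ hψ).mat s 0 0 = (((ψ (chi F l s))⁻¹ : (PadicAlgCl l)ˣ) : PadicAlgCl l) := by
  have h := congrFun (halfRep_mulVec ψ hψ s (fun _ => 1)) 0
  simpa [Matrix.mulVec, dotProduct] using h

theorem halfRep_not_deRham (ψ : ℤ_[l]ˣ →* (PadicAlgCl l)ˣ) (hψ : Continuous ψ)
    (U : Subgroup ℤ_[l]ˣ) (hU : U.FiniteIndex)
    (hψU : ∀ u ∈ U, ∃ v : ℤ_[l]ˣ, v ^ 2 = u ∧ ψ u = unitsMap l v)
    (ι : AlgebraicClosure F →+* PadicAlgCl l) : ¬ (halfRep F ψ hψ).IsDeRhamAt ι := by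
  classical
  have hfix : (fixF ι).FiniteIndex := fixF_finiteIndex ι
  have hcomap : (U.comap (kap l)).FiniteIndex := by
    refine ⟨?_⟩
    rw [Subgroup.index_comap]
    intro h0
    exact hU.index_ne_zero (Subgroup.index_eq_zero_of_relIndex_eq_zero h0)
  have hH : (fixF ι ⊓ U.comap (kap l)).FiniteIndex := inferInstance
  choose! r hr using hψU
  refine not_isDeRhamAt (halfRep F ψ hψ) ι (fixF ι ⊓ U.comap (kap l))
    (fun σ => (((r (kap l σ))⁻¹ : ℤ_[l]ˣ) : ℤ_[l])) (fun σ hσ => ?_) fun σ hσ => ?_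
  · have h1 : (r (kap l σ)) ^ 2 = kap l σ := (hr _ hσ.2).1
    have h2 : ((((r (kap l σ))⁻¹ : ℤ_[l]ˣ) : ℤ_[l])) ^ 2 * (kap l σ : ℤ_[l]) = 1 := by
      calc ((((r (kap l σ))⁻¹ : ℤ_[l]ˣ) : ℤ_[l])) ^ 2 * (kap l σ : ℤ_[l])
          = ((((r (kap l σ))⁻¹ ^ 2 * (r (kap l σ)) ^ 2 : ℤ_[l]ˣ)) : ℤ_[l]) := by
            rw [h1]; push_cast; rfl
        _ = 1 := by rw [inv_pow, inv_mul_cancel, Units.val_one]
    exact_mod_cast congrArg (fun x : ℤ_[l] => (x : ℚ_[l])) h2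
  · obtain ⟨s, hs⟩ := exists_restricts ι σ hσ.1
    refine ⟨s, hs, ?_⟩
    rw [halfRep_mat, chi_eq_kap ι σ s hs, (hr _ hσ.2).2, ← map_inv]
    rfl

end Pool.Agent.Work.MP_395897_nt
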